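import Pool.Agent.T6.H52.TP.Reg

/-!
Project TP (helper52), MP_8dfb46_an, module BC (helper51): boundary values on the outer boundary.
-/

set_option autoImplicit false

open MeasureTheory Set Metric Topology Filter
open scoped ContDiff ComplexConjugate

namespace Pool.Agent.T6.H52.TP

namespace ModBC

open ModREG

/-- `log ‖w‖` is differentiable at `z ≠ 0` -/
theorem hasf_log {z : ℂ} (hz : z ≠ 0) :
    HasFDerivAt (fun w : ℂ => Real.log ‖w‖)
      ((1 / 2 * (‖z‖ ^ 2)⁻¹) • (2 • (innerSL ℝ z))) z := by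
  have h3 : HasFDerivAt (fun w : ℂ => ‖w‖ ^ 2) (2 • (innerSL ℝ z)) z :=
    (hasStrictFDerivAt_norm_sq z).hasFDerivAt
  have h4 : ‖z‖ ^ 2 ≠ 0 := by positivity
  have h5 := (h3.log h4).const_mul (1 / 2)
  have h6 : (fun w : ℂ => Real.log ‖w‖) = fun w => 1 / 2 * Real.log (‖w‖ ^ 2) := by
    funext w
    rw [Real.log_pow]
    push_cast
    ring
  rw [h6, mul_smul]
  exact h5

theorem log_apply (z h : ℂ) :
    ((1 / 2 * (‖z‖ ^ 2)⁻¹) • (2 • (innerSL ℝ z)) : ℂ →L[ℝ] ℝ) h =
      (z.re * h.re + z.im * h.im) / ‖z‖ ^ 2 := by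
  simp only [smul_apply, smul_eq_mul, innerSL_apply_apply, Complex.inner, nsmul_eq_mul,
    Complex.mul_re, Complex.conj_re, Complex.conj_im, Nat.cast_ofNat]
  field_simp
  ring

theorem hasf_pow (k : ℕ) (z : ℂ) : HasFDerivAt (fun w : ℂ => (w ^ k).re)
    (Complex.reCLM.comp ((ContinuousLinearMap.toSpanSingleton ℂ
      ((k : ℂ) * z ^ (k - 1))).restrictScalars ℝ)) z :=
  Complex.reCLM.hasFDerivAt.comp z ((hasDerivAt_pow k z).hasFDerivAt.restrictScalars ℝ)

/-- the derivative of `rhoO` -/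
theorem fderiv_rho {k : ℕ} (hk : 100 ≤ k) {z : ℂ} (hz : z ≠ 0) (t : ℝ)
    (ht : z ^ k = ((‖z‖ ^ k : ℝ) : ℂ) * Complex.exp (t * Complex.I)) (h : ℂ) :
    fderiv ℝ (rhoO k) z h = (h / z).re + 2 * ee k * Real.sin t * (h / z).im := by
  have hR : 0 < ‖z‖ := norm_pos_iff.2 hz
  have hRk : 0 < ‖z‖ ^ k := by positivity
  have e1 : rhoO k =ᶠ[𝓝 z] fun w => Real.log ‖w‖ - ee k ^ 2 * (3 + 2 * ((w ^ k).re *
      Real.exp (-(k * Real.log ‖w‖)))) := by
    filter_upwards [isOpen_ne.mem_nhds hz] with w hw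
    unfold rhoO
    have hw' : 0 < ‖w‖ := norm_pos_iff.2 hw
    have h1 : Real.exp (-(k * Real.log ‖w‖)) = (‖w‖ ^ k)⁻¹ := by
      rw [Real.exp_neg, Real.exp_nat_mul, Real.exp_log hw']
    rw [h1, div_eq_mul_inv]
  obtain ⟨D, hL, hD⟩ : ∃ D : ℂ →L[ℝ] ℝ, HasFDerivAt (fun w : ℂ => Real.log ‖w‖) D z ∧
      ∀ h, D h = (z.re * h.re + z.im * h.im) / ‖z‖ ^ 2 := ⟨_, hasf_log hz, log_apply z⟩
  have h2 := hasf_pow k z
  have h3 : HasFDerivAt (fun w : ℂ => Real.exp (-(k * Real.log ‖w‖)))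
      (Real.exp (-(k * Real.log ‖z‖)) • -((k : ℝ) • D)) z := (hL.const_mul (k : ℝ)).neg.exp
  have h4 := hL.sub (((h2.mul h3).const_mul 2).const_add 3 |>.const_mul (ee k ^ 2))
  have h4' : HasFDerivAt (fun w : ℂ => Real.log ‖w‖ - ee k ^ 2 * (3 + 2 * ((w ^ k).re *
      Real.exp (-(k * Real.log ‖w‖))))) _ z := h4
  rw [e1.fderiv_eq, h4'.fderiv]
  have hexp : Real.exp (-(k * Real.log ‖z‖)) = (‖z‖ ^ k)⁻¹ := by
    rw [Real.exp_neg, Real.exp_nat_mul, Real.exp_log hR]
  -- the real and imaginary parts of `h / z`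
  set η : ℂ := h / z with hη
  have hh : h = η * z := by rw [hη]; field_simp
  have hzη : z.re * h.re + z.im * h.im = ‖z‖ ^ 2 * η.re := by
    rw [hh, Complex.sq_norm, Complex.normSq_apply]
    simp only [Complex.mul_re, Complex.mul_im]
    ring
  have hpow : ((k : ℂ) * z ^ (k - 1)) * h = k * (z ^ k * η) := by
    rw [hh]
    have : z ^ k = z ^ (k - 1) * z := by
      rw [← pow_succ]
      congr 1
      omega
    rw [this]
    ring
  have hre : (k * (z ^ k * η) : ℂ).re = k * (‖z‖ ^ k * (Real.cos t * η.re - Real.sin t * η.im)) := by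
    rw [ht]
    have h5 : Complex.exp (t * Complex.I) = Real.cos t + Real.sin t * Complex.I := by
      rw [Complex.exp_mul_I, Complex.ofReal_cos, Complex.ofReal_sin]
    rw [h5]
    simp only [Complex.mul_re, Complex.mul_im, Complex.add_re, Complex.add_im, Complex.ofReal_re,
      Complex.ofReal_im, Complex.natCast_re, Complex.natCast_im, Complex.I_re, Complex.I_im]
    ring
  have hzre : (z ^ k).re = ‖z‖ ^ k * Real.cos t := by
    rw [ht]
    have h5 : Complex.exp (t * Complex.I) = Real.cos t + Real.sin t * Complex.I := by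
      rw [Complex.exp_mul_I, Complex.ofReal_cos, Complex.ofReal_sin]
    rw [h5]
    simp only [Complex.mul_re, Complex.add_re, Complex.add_im, Complex.mul_im, Complex.ofReal_re,
      Complex.ofReal_im, Complex.I_re, Complex.I_im]
    ring
  simp only [sub_apply, smul_apply, add_apply, neg_apply, ContinuousLinearMap.comp_apply,
    ContinuousLinearMap.coe_restrictScalars', ContinuousLinearMap.toSpanSingleton_apply,
    Complex.reCLM_apply, smul_eq_mul]
  have hDL : D h = η.re := by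
    rw [hD, hzη]
    field_simp
  rw [mul_comm h, hpow, hre, hexp, hzre, hDL]
  have hke := kee hk
  have hRk' : ‖z‖ ^ k ≠ 0 := hRk.ne'
  have h7 : ee k ^ 2 * k = ee k := by
    calc ee k ^ 2 * k = ee k * (k * ee k) := by ring
      _ = ee k := by rw [hke, mul_one]
  field_simp
  linear_combination (2 * Real.sin t * η.im) * h7

end ModBC

open ModBC ModREG in
theorem bc : StmtBC := by
  intro k C c H hk hc hH z h1 h6 hρ
  have hke := kee hk
  have he0 := ee_pos hk
  have hR : 0 < ‖z‖ := by linarith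
  have hz : z ≠ 0 := norm_pos_iff.1 hR
  have hzc : (z : ℂ) ≠ 0 := hz
  set t : ℝ := (z ^ k).arg with ht
  have hzk : z ^ k = ((‖z‖ ^ k : ℝ) : ℂ) * Complex.exp (t * Complex.I) := by
    have h2 := Complex.norm_mul_exp_arg_mul_I (z ^ k)
    rw [norm_pow] at h2
    exact h2.symm
  have hE : Complex.exp (t * Complex.I) = Real.cos t + Real.sin t * Complex.I := by
    rw [Complex.exp_mul_I, Complex.ofReal_cos, Complex.ofReal_sin]
  have hcos : (z ^ k).re / ‖z‖ ^ k = Real.cos t := by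
    have h2 : (z ^ k).re = ‖z‖ ^ k * Real.cos t := by
      rw [hzk, hE]
      simp only [Complex.mul_re, Complex.add_re, Complex.add_im, Complex.mul_im,
        Complex.ofReal_re, Complex.ofReal_im, Complex.I_re, Complex.I_im]
      ring
    rw [h2]
    field_simp
  set p : ℝ := 3 + 2 * Real.cos t with hp
  have hlog : Real.log ‖z‖ = ee k ^ 2 * p := by
    unfold rhoO at hρ
    rw [hcos] at hρ
    linarith
  have hRe : ‖z‖ = Real.exp (ee k ^ 2 * p) := by
    rw [← hlog, Real.exp_log hR]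
  have hRk : ‖z‖ ^ k = Real.exp (ee k * p) := by
    rw [hRe, ← Real.exp_nat_mul]
    congr 1
    calc (k : ℝ) * (ee k ^ 2 * p) = ee k * p * (k * ee k) := by ring
      _ = ee k * p := by rw [hke, mul_one]
  have hxx : z ^ k = xx (ee k) t := by
    rw [hzk, hRk]
    unfold xx
    rw [Complex.exp_add, ← Complex.ofReal_exp]
  have hR2 : ‖z‖ ^ 2 = 2 * rA (ee k) (Real.cos t) := by
    rw [hRe, ← Real.exp_nat_mul]
    unfold rA
    rw [← hp]
    have h2 : (2 : ℝ) * (Real.exp (2 * ee k ^ 2 * p) / 2) = Real.exp (2 * ee k ^ 2 * p) := by ring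
    rw [h2]
    congr 1
    push_cast
    ring
  set A : ℝ := rA (ee k) (Real.cos t) with hA
  set Bq : ℝ := rB (ee k) (Real.cos t) (Real.sin t) with hB
  set J : ℝ := Real.sqrt (1 + 4 * ee k ^ 2 * Real.sin t ^ 2) with hJ
  have hJ0 : 0 < J := Real.sqrt_pos.2 (by positivity)
  have hJ2 : J ^ 2 = 1 + 4 * ee k ^ 2 * Real.sin t ^ 2 := Real.sq_sqrt (by positivity)
  have hBJ : Bq = ‖z‖ * J := by
    rw [hB, hRe]
    rfl
  set κ : ℂ := 1 + 2 * ee k * Real.sin t * Complex.I with hκ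
  have hκ' : κ = ((1 : ℝ) : ℂ) + ((2 * ee k * Real.sin t : ℝ) : ℂ) * Complex.I := by
    rw [hκ]
    push_cast
    ring
  have hκre : κ.re = 1 := by
    rw [hκ']
    simp only [Complex.add_re, Complex.mul_re, Complex.ofReal_re, Complex.ofReal_im,
      Complex.I_re, Complex.I_im]
    ring
  have hκim : κ.im = 2 * ee k * Real.sin t := by
    rw [hκ']
    simp only [Complex.add_im, Complex.mul_im, Complex.ofReal_re, Complex.ofReal_im,
      Complex.I_re, Complex.I_im]
    ring
  have hκn : ‖κ‖ = J := by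
    have h2 : ‖κ‖ ^ 2 = J ^ 2 := by
      rw [hJ2, Complex.sq_norm, Complex.normSq_apply, hκre, hκim]
      ring
    exact (pow_left_inj₀ (norm_nonneg _) hJ0.le two_ne_zero).1 h2
  have hκ0 : κ ≠ 0 := by
    rw [← norm_pos_iff, hκn]
    exact hJ0
  set N : ℂ := (Bq : ℂ) / (κ * z) with hN
  -- the function `W z = H (z ^ k)`
  have hb1 : Real.exp (-6 * ee k ^ 2) < ‖z‖ := by
    refine lt_of_le_of_lt ?_ h1
    rw [Real.exp_le_one_iff]
    nlinarith [sq_nonneg (ee k)]
  have hb2 : ‖z‖ < Real.exp (7 * ee k ^ 2) := by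
    refine h6.trans_le (Real.exp_le_exp.2 ?_)
    nlinarith [sq_nonneg (ee k)]
  have hW := analytic_O hk hH.diff hb1 hb2
  have hmem : z ^ k ∈ Ann 3 := by
    have he := ee_le hk
    refine ⟨lt_of_le_of_lt ?_ (lt_pow hk hb1), (pow_lt hk hb2).trans_le ?_⟩
    · have := Real.add_one_le_exp (-6 * ee k)
      linarith
    · have h6 : Real.exp (7 * ee k) ≤ Real.exp 1 := Real.exp_le_exp.2 (by linarith)
      have h7 := Real.exp_one_lt_d9
      linarith
  have hWd : HasDerivAt (fun w => H (w ^ k)) (deriv H (z ^ k) * ((k : ℂ) * z ^ (k - 1))) z := by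
    have h2 : HasDerivAt H (deriv H ((fun w : ℂ => w ^ k) z)) ((fun w : ℂ => w ^ k) z) :=
      (hH.diff.differentiableAt ((ann_open 3).mem_nhds hmem)).hasDerivAt
    exact HasDerivAt.comp z h2 (hasDerivAt_pow k z)
  have hder : deriv (fun w => H (w ^ k)) z = (A : ℂ) / z - c * N := by
    rw [hWd.deriv]
    have h2 := hH.der t
    rw [← hxx, ← hA, ← hB, ← hκ] at h2
    have h3 : z ^ k = z ^ (k - 1) * z := by
      rw [← pow_succ]
      congr 1
      omega
    have h4 : deriv H (z ^ k) * ((k : ℂ) * z ^ (k - 1)) * z = k * (z ^ k * deriv H (z ^ k)) := by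
      rw [mul_comm (deriv H (z ^ k)), mul_assoc, mul_assoc, mul_comm (deriv H (z ^ k)) z,
        ← mul_assoc (z ^ (k - 1)), ← h3]
    rw [eq_comm, ← mul_left_inj' hz, h4, h2]
    have h5 : (k : ℂ) * (ee k : ℂ) = 1 := by exact_mod_cast hke
    rw [← mul_assoc, h5, one_mul, hN]
    have h8 : ((A : ℂ) / z - c * ((Bq : ℂ) / (κ * z))) * z = A - c * Bq / κ := by
      field_simp
    rw [h8]
    push_cast
    ring
  have hAz : (A : ℂ) / z = conj z / 2 := by
    rw [div_eq_iff hz]
    have h2 : (A : ℂ) = ((‖z‖ ^ 2 / 2 : ℝ) : ℂ) := by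
      rw [hR2]
      push_cast
      ring
    rw [h2]
    have h3 : z * conj z = ((‖z‖ ^ 2 : ℝ) : ℂ) := by
      rw [Complex.mul_conj, Complex.normSq_eq_norm_sq]
    push_cast at h3 ⊢
    rw [← h3]
    ring
  have huO : uO k H = fun w => 1 * ((fun w => H (w ^ k)) w).re - 1 / 4 * ‖w‖ ^ 2 := by
    funext w
    simp only [uO]
    ring
  refine ⟨?_, conj N, ?_, ?_, J / ‖z‖, by positivity, ?_⟩
  · unfold uO
    rw [hxx, hH.re t, hR2]
    ring
  · rw [RCLike.norm_conj, hN, norm_div, norm_mul, hκn, Complex.norm_real, hBJ,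
      Real.norm_of_nonneg (by positivity), mul_comm J]
    exact div_self (by positivity)
  · intro h
    rw [huO, hasf_u hW, hder, hAz, Complex.inner, Complex.conj_conj, mul_comm h]
    have h2 : ((conj z / 2 - c * N) * h).re = (z.re * h.re + z.im * h.im) / 2 -
        c * (N * h).re := by
      rw [sub_mul, Complex.sub_re]
      congr 1
      · rw [show conj z / 2 * h = ((1 / 2 : ℝ) : ℂ) * (conj z * h) by push_cast; ring,
          Complex.re_ofReal_mul, Complex.mul_re, Complex.conj_re, Complex.conj_im]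
        ring
      · rw [mul_assoc, Complex.re_ofReal_mul]
    rw [h2]
    ring
  · intro h
    rw [fderiv_rho hk hz t hzk, Complex.inner, Complex.conj_conj, mul_comm h]
    set η : ℂ := h / z with hη
    have h2 : N * h = ((‖z‖ / J : ℝ) : ℂ) * (conj κ * η) := by
      have h3 : κ * conj κ = ((J ^ 2 : ℝ) : ℂ) := by
        rw [Complex.mul_conj, Complex.normSq_eq_norm_sq, hκn]
      have h4 : (J : ℂ) ≠ 0 := by exact_mod_cast hJ0.ne'
      rw [hN, hη, hBJ]
      push_cast at h3 ⊢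
      field_simp
      linear_combination (-(‖z‖ : ℂ) * h) * h3
    rw [h2, Complex.re_ofReal_mul, Complex.mul_re, Complex.conj_re, Complex.conj_im, hκre, hκim]
    field_simp
    ring

end Pool.Agent.T6.H52.TP
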