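import Pool.Agent.T6.H52.TP.Defs

/-!
# A convexity criterion (helper94, module CONV)
-/

set_option autoImplicit false

open MeasureTheory Set Metric Topology Filter
open scoped ContDiff ComplexConjugate

namespace Pool.Agent.T6.H52.TP

namespace ModCONV

theorem hasDerivAt_line (f : ℂ → ℂ) {f' z d : ℂ} {t : ℝ} (h : HasDerivAt f f' (z + t * d)) :
    HasDerivAt (fun t : ℝ => f (z + t * d)) (f' * d) t := by
  have h1 : HasDerivAt (fun t : ℝ => z + (t : ℂ) * d) d t := by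
    have : HasDerivAt (fun t : ℝ => (t : ℂ)) 1 t := Complex.ofRealCLM.hasDerivAt
    simpa using (this.mul_const d).const_add z
  exact HasDerivAt.comp (h := fun t : ℝ => z + (t : ℂ) * d) t h h1

end ModCONV

open ModCONV in
theorem conv : StmtCONV := by
  intro ψ R hR hψ hineq
  have hball : IsOpen (ball (0 : ℂ) R) := isOpen_ball
  have hψ' : DifferentiableOn ℂ (deriv ψ) (ball 0 R) := hψ.deriv hball
  have hcv : ConvexOn ℝ (ball (0 : ℂ) R) (fun z => ‖ψ z‖ ^ 2) := by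
    refine ⟨convex_ball _ _, ?_⟩
    intro z₁ hz₁ z₂ hz₂ a b ha hb hab
    let d := z₂ - z₁
    let w : ℝ → ℂ := fun t => ψ (z₁ + t * d)
    let w' : ℝ → ℂ := fun t => deriv ψ (z₁ + t * d) * d
    let w'' : ℝ → ℂ := fun t => deriv (deriv ψ) (z₁ + t * d) * d * d
    have hmem : ∀ t ∈ Icc (0 : ℝ) 1, z₁ + (t : ℂ) * d ∈ ball (0 : ℂ) R := by
      intro t ht
      have := (convex_ball (0 : ℂ) R) hz₁ hz₂ (sub_nonneg.2 ht.2) ht.1 (by ring)
      convert this using 1
      simp only [Complex.real_smul, d]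
      push_cast
      ring
    have hw : ∀ t ∈ Icc (0 : ℝ) 1, HasDerivAt w (w' t) t := fun t ht =>
      hasDerivAt_line ψ ((hψ _ (hmem t ht)).differentiableAt
        (hball.mem_nhds (hmem t ht))).hasDerivAt
    have hw' : ∀ t ∈ Icc (0 : ℝ) 1, HasDerivAt w' (w'' t) t := fun t ht =>
      (hasDerivAt_line (deriv ψ) ((hψ' _ (hmem t ht)).differentiableAt
        (hball.mem_nhds (hmem t ht))).hasDerivAt).mul_const d
    let f : ℝ → ℝ := fun t => ‖w t‖ ^ 2
    let f' : ℝ → ℝ := fun t => 2 * inner ℝ (w t) (w' t)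
    let f'' : ℝ → ℝ := fun t => 2 * (inner ℝ (w t) (w'' t) + inner ℝ (w' t) (w' t))
    have hf : ∀ t ∈ Icc (0 : ℝ) 1, HasDerivAt f (f' t) t := fun t ht => (hw t ht).norm_sq
    have hf' : ∀ t ∈ Icc (0 : ℝ) 1, HasDerivAt f' (f'' t) t := fun t ht =>
      ((hw t ht).inner ℝ (hw' t ht)).const_mul 2
    have hf'' : ∀ t ∈ Icc (0 : ℝ) 1, 0 ≤ f'' t := by
      intro t ht
      have h1 := hineq _ (hmem t ht)
      have h2 := abs_real_inner_le_norm (w t) (w'' t)
      have h3 : inner ℝ (w' t) (w' t) = ‖w' t‖ ^ 2 := real_inner_self_eq_norm_sq _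
      have h4 : ‖w t‖ * ‖w'' t‖ ≤ ‖w' t‖ ^ 2 := by
        have e1 : ‖w'' t‖ = ‖deriv (deriv ψ) (z₁ + t * d)‖ * ‖d‖ * ‖d‖ := by
          simp only [w'', norm_mul]
        have e2 : ‖w' t‖ = ‖deriv ψ (z₁ + t * d)‖ * ‖d‖ := by simp only [w', norm_mul]
        rw [e1, e2, mul_pow]
        have := mul_le_mul_of_nonneg_right h1 (sq_nonneg ‖d‖)
        change ‖ψ (z₁ + t * d)‖ * _ ≤ _
        calc _ = ‖ψ (z₁ + t * d)‖ * ‖deriv (deriv ψ) (z₁ + t * d)‖ * ‖d‖ ^ 2 := by ring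
          _ ≤ _ := this
      have h5 := (abs_le.1 h2).1
      change 0 ≤ 2 * (inner ℝ (w t) (w'' t) + inner ℝ (w' t) (w' t))
      rw [h3]
      linarith
    have hfc : ConvexOn ℝ (Icc (0 : ℝ) 1) f := by
      refine convexOn_of_hasDerivWithinAt2_nonneg (f' := f') (f'' := f'') (convex_Icc 0 1)
        (fun t ht => (hf t ht).continuousAt.continuousWithinAt) ?_ ?_ ?_
      · intro t ht
        exact (hf t (interior_subset ht)).hasDerivWithinAt
      · intro t ht
        exact (hf' t (interior_subset ht)).hasDerivWithinAt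
      · intro t ht
        exact hf'' t (interior_subset ht)
    have := hfc.2 (left_mem_Icc.2 zero_le_one) (right_mem_Icc.2 zero_le_one) ha hb hab
    have e0 : f 0 = ‖ψ z₁‖ ^ 2 := by simp [f, w]
    have e1 : f 1 = ‖ψ z₂‖ ^ 2 := by simp [f, w, d]
    have e2 : f (a • 0 + b • 1) = ‖ψ (a • z₁ + b • z₂)‖ ^ 2 := by
      change ‖ψ (z₁ + ((a • 0 + b • 1 : ℝ) : ℂ) * d)‖ ^ 2 = _
      congr 3
      have : (a : ℂ) + b = 1 := by exact_mod_cast hab
      simp only [smul_eq_mul, mul_zero, mul_one, zero_add, Complex.real_smul, d]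
      linear_combination (-z₁) * this
    rw [e0, e1, e2] at this
    exact this
  have h1 := hcv.convex_lt 1
  have h2 : {z | z ∈ ball (0 : ℂ) R ∧ ‖ψ z‖ < 1} = {z | z ∈ ball (0 : ℂ) R ∧ ‖ψ z‖ ^ 2 < 1} := by
    ext z
    simp only [mem_setOf_eq]
    rw [sq_lt_one_iff₀ (norm_nonneg _)]
  rw [h2]
  exact h1

end Pool.Agent.T6.H52.TP
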