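import Pool.Agent.T6.H52.TP.Defs

open MeasureTheory Set Metric Topology Filter
open scoped ContDiff ComplexConjugate

namespace Pool.Agent.T6.H52.TP

theorem cvx (hC : StmtCONV) (hP : StmtPSI) : StmtCVX := by
  intro k r hk hr
  have hk0 : (0:ℝ) < k := by exact_mod_cast (by omega : 0 < k)
  have hkR : (100:ℝ) ≤ k := by exact_mod_cast hk
  have he : 0 < ee k := by unfold ee; positivity
  have hke : (k:ℝ) * ee k = 1 := by unfold ee; field_simp
  have hle : ee k ≤ 1/100 := by
    unfold ee; exact one_div_le_one_div_of_le (by norm_num) hkR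
  have he2 : 0 < ee k ^ 2 := by positivity
  obtain ⟨hd, hb⟩ := hP k r hk hr
  have hconv := hC _ _ (Real.exp_pos (2 * ee k ^ 2)) hd hb
  have hset : DD k r = {z | z ∈ ball (0:ℂ) (Real.exp (2 * ee k ^ 2)) ∧
      ‖z * Complex.exp (-((ee k : ℂ) ^ 2 * r (z ^ k)))‖ < 1} := by
    have hx : ∀ z : ℂ, ‖z‖ < Real.exp (2 * ee k ^ 2) → z ^ k ∈ ball (0:ℂ) (3/2) := by
      intro z h2
      rw [mem_ball_zero_iff, norm_pow]
      calc ‖z‖ ^ k ≤ (Real.exp (2 * ee k ^ 2)) ^ k := pow_le_pow_left₀ (norm_nonneg _) h2.le k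
        _ = Real.exp (k * (2 * ee k ^ 2)) := by rw [← Real.exp_nat_mul]
        _ = Real.exp (2 * ee k) := by
            congr 1
            calc (k:ℝ) * (2 * ee k ^ 2) = 2 * ee k * (k * ee k) := by ring
              _ = 2 * ee k := by rw [hke]; ring
        _ ≤ Real.exp (1/50) := Real.exp_le_exp.mpr (by linarith)
        _ < 3 / 2 := by
            have := Real.exp_bound_div_one_sub_of_interval (x := 1/50) (by norm_num) (by norm_num)
            linarith [this]
    have hnorm : ∀ z : ℂ, ‖z * Complex.exp (-((ee k : ℂ) ^ 2 * r (z ^ k)))‖ =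
        ‖z‖ * Real.exp (-(ee k ^ 2 * (r (z ^ k)).re)) := by
      intro z
      rw [norm_mul, Complex.norm_exp]
      congr 2
      rw [← Complex.ofReal_pow, Complex.neg_re, Complex.re_ofReal_mul]
    have hsmall : ∀ z : ℂ, ‖z‖ ≤ Real.exp (-ee k ^ 2) → ‖z‖ < Real.exp (2 * ee k ^ 2) →
        ‖z‖ * Real.exp (-(ee k ^ 2 * (r (z ^ k)).re)) < 1 := by
      intro z h1 h2
      have hr1 := hr.2 _ (hx z h2)
      have hre : -(1/100) ≤ (r (z ^ k)).re := by
        have := (Complex.abs_re_le_norm (r (z ^ k))).trans hr1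
        exact (abs_le.mp this).1
      calc ‖z‖ * Real.exp (-(ee k ^ 2 * (r (z ^ k)).re))
          ≤ Real.exp (-ee k ^ 2) * Real.exp (-(ee k ^ 2 * (r (z ^ k)).re)) := by gcongr
        _ = Real.exp (-ee k ^ 2 + -(ee k ^ 2 * (r (z ^ k)).re)) := by rw [Real.exp_add]
        _ < 1 := by
            rw [Real.exp_lt_one_iff]
            nlinarith
    ext z
    rw [mem_setOf_eq, mem_ball_zero_iff, hnorm]
    have hiff : ∀ hz : 0 < ‖z‖, (rhoD k r z < 0 ↔
        ‖z‖ * Real.exp (-(ee k ^ 2 * (r (z ^ k)).re)) < 1) := by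
      intro hz
      unfold rhoD
      have : ‖z‖ * Real.exp (-(ee k ^ 2 * (r (z ^ k)).re)) =
          Real.exp (Real.log ‖z‖ - ee k ^ 2 * (r (z ^ k)).re) := by
        rw [sub_eq_add_neg, Real.exp_add, Real.exp_log hz]
      rw [this, Real.exp_lt_one_iff]
    constructor
    · rintro (h | ⟨h1, h2, h3⟩)
      · have h2 : ‖z‖ < Real.exp (2 * ee k ^ 2) :=
          lt_of_le_of_lt h (Real.exp_lt_exp.mpr (by linarith))
        exact ⟨h2, hsmall z h h2⟩
      · exact ⟨h2, (hiff (lt_trans (Real.exp_pos _) h1)).mp h3⟩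
    · rintro ⟨h1, h2⟩
      by_cases h : ‖z‖ ≤ Real.exp (-ee k ^ 2)
      · exact Or.inl h
      · right
        push Not at h
        have h3 : Real.exp (-2 * ee k ^ 2) < ‖z‖ :=
          lt_trans (Real.exp_lt_exp.mpr (by linarith)) h
        exact ⟨h3, h1, (hiff (lt_trans (Real.exp_pos _) h3)).mpr h2⟩
  rw [hset]
  exact hconv

end Pool.Agent.T6.H52.TP
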