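import Pool.Agent.T6.H52.TP.Defs

/-!
# Module FF: the outer potential as a function of the uniformising variable
-/

open MeasureTheory Set Metric Topology Filter
open scoped ContDiff ComplexConjugate

namespace Pool.Agent.T6.H52.TP

namespace ModFF

theorem ne_zero {V : ℂ} (hV : V ∈ Ann 4) : V ≠ 0 := by
  intro h
  have := hV.1
  rw [h, norm_zero] at this
  norm_num at this

theorem inv_mem {V : ℂ} (hv : V ∈ Ann 4) : 1 / conj V ∈ Ann 4 := by
  obtain ⟨h1, h2⟩ := hv
  have hv0 : 0 < ‖V‖ := lt_trans (by norm_num) h1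
  constructor
  · rw [norm_div, norm_one, RCLike.norm_conj]
    exact one_div_lt_one_div_of_lt hv0 h2
  · rw [norm_div, norm_one, RCLike.norm_conj, div_lt_iff₀ hv0]
    linarith

theorem circle_mem {v : ℂ} (hv : ‖v‖ = 1) : v ∈ Ann 4 := by
  constructor
  · rw [hv]; norm_num
  · rw [hv]; norm_num

theorem isOpen_Ann : IsOpen (Ann 4) :=
  (isOpen_lt continuous_const continuous_norm).inter (isOpen_lt continuous_norm continuous_const)

theorem PP_le {V : ℂ} (hV : V ∈ Ann 4) : ‖PP V‖ ≤ 11 := by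
  have h1 : ‖V‖ ≤ 4 := hV.2.le
  have h2 : ‖V⁻¹‖ ≤ 4 := by
    rw [norm_inv]
    have h0 : (0 : ℝ) < ‖V‖ := lt_trans (by norm_num) hV.1
    rw [inv_le_comm₀ h0 (by norm_num)]
    have := hV.1
    norm_num at this ⊢
    linarith
  calc ‖PP V‖ ≤ ‖(3 : ℂ)‖ + ‖V + V⁻¹‖ := norm_add_le _ _
    _ ≤ 3 + (‖V‖ + ‖V⁻¹‖) := by
        refine add_le_add ?_ (norm_add_le _ _)
        simp
    _ ≤ 11 := by linarith

theorem PP_diff {V : ℂ} (hV : V ≠ 0) : HasDerivAt PP (1 + -(V ^ 2)⁻¹) V := by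
  have h := ((hasDerivAt_id V).add (hasDerivAt_inv hV)).const_add 3
  exact h

theorem mul_PP' {V : ℂ} (hV : V ≠ 0) : V * (1 + -(V ^ 2)⁻¹) = QQ V := by
  unfold QQ
  field_simp
  ring

theorem conj_PP (V : ℂ) : conj (PP (1 / conj V)) = PP V := by
  unfold PP
  simp only [map_add, map_inv₀, Complex.conj_conj, one_div, inv_inv]
  rw [show (starRingEnd ℂ) (3 : ℂ) = 3 from Complex.conj_ofNat 3]
  ring

/-- `exp(2e²P)` -/
noncomputable def X (e : ℝ) (V : ℂ) : ℂ := Complex.exp (2 * e ^ 2 * PP V)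

theorem rfc_X (e : ℝ) (V : ℂ) : conj (X e (1 / conj V)) = X e V := by
  unfold X
  rw [← Complex.exp_conj]
  congr 1
  rw [map_mul, conj_PP]
  congr 1
  simp only [map_mul, map_pow, Complex.conj_ofReal]
  rw [show (starRingEnd ℂ) (2 : ℂ) = 2 from Complex.conj_ofNat 2]

theorem X_le {e : ℝ} (he : 0 < e) (he' : e ≤ 1 / 100) {V : ℂ} (hV : V ∈ Ann 4) :
    ‖X e V - 1‖ ≤ 44 * e ^ 2 := by
  have h1 : ‖2 * (e : ℂ) ^ 2 * PP V‖ ≤ 22 * e ^ 2 := by
    rw [norm_mul, norm_mul, norm_pow, Complex.norm_real, Real.norm_of_nonneg he.le]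
    simp only [Complex.norm_ofNat]
    have := PP_le hV
    nlinarith [sq_nonneg e]
  have h2 : ‖2 * (e : ℂ) ^ 2 * PP V‖ ≤ 1 := by
    refine h1.trans ?_
    nlinarith
  calc ‖X e V - 1‖ ≤ 2 * ‖2 * (e : ℂ) ^ 2 * PP V‖ := Complex.norm_exp_sub_one_le h2
    _ ≤ 44 * e ^ 2 := by linarith

theorem PP_circle {V : ℂ} (hV : ‖V‖ = 1) : PP V = ((3 + 2 * V.re : ℝ) : ℂ) := by
  have h1 : V⁻¹ = conj V := by
    rw [Complex.inv_def, Complex.normSq_eq_norm_sq, hV]; simp
  unfold PP
  rw [h1, Complex.add_conj]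
  push_cast
  ring

theorem QQ_circle {V : ℂ} (hV : ‖V‖ = 1) : QQ V = 2 * V.im * Complex.I := by
  have h1 : V⁻¹ = conj V := by
    rw [Complex.inv_def, Complex.normSq_eq_norm_sq, hV]; simp
  unfold QQ
  rw [h1, Complex.sub_conj]
  push_cast
  ring

theorem X_circle {e : ℝ} {V : ℂ} (hV : ‖V‖ = 1) : X e V = ((2 * rA e V.re : ℝ) : ℂ) := by
  unfold X rA
  rw [PP_circle hV]
  push_cast
  ring_nf

end ModFF

open ModFF in
theorem ff (hP : StmtPRIM) (hK : StmtKB) : StmtFF := by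
  obtain ⟨C, e₀, hC, he₀, hK⟩ := hK
  obtain ⟨K, hK0, hP⟩ := hP 4 (by norm_num)
  refine ⟨11 + K * C * e₀ + 2 * K * C, min e₀ (1 / 100), by positivity,
    lt_min he₀ (by norm_num), fun e he he1 => ?_⟩
  have he₀' : e < e₀ := he1.trans_le (min_le_left _ _)
  have he100 : e < 1 / 100 := he1.trans_le (min_le_right _ _)
  obtain ⟨c, hc, hd, hb, hs, hi, hr⟩ := hK e he he₀'
  obtain ⟨F2, hF2d, hF2b, hF2', hF2re⟩ := hP (KK e c) (C * e ^ 2) hd hb hs hi
  refine ⟨c, hc, fun V => X e V / 4 + e * F2 V, ?_⟩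
  have hXd : ∀ V : ℂ, V ≠ 0 →
      HasDerivAt (X e) (X e V * (2 * e ^ 2 * (1 + -(V ^ 2)⁻¹))) V := by
    intro V hV
    have := ((PP_diff hV).const_mul (2 * (e : ℂ) ^ 2)).cexp
    exact this
  constructor
  · intro V hV
    refine DifferentiableWithinAt.add ?_ ((hF2d V hV).const_mul _)
    exact ((hXd V (ne_zero hV)).differentiableAt.div_const 4).differentiableWithinAt
  · intro V hV
    have h1 := X_le he he100.le hV
    have h2 := hF2b V hV
    calc ‖X e V / 4 + e * F2 V - 1 / 4‖ = ‖(X e V - 1) / 4 + e * F2 V‖ := by ring_nf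
      _ ≤ ‖(X e V - 1) / 4‖ + ‖e * F2 V‖ := norm_add_le _ _
      _ ≤ 44 * e ^ 2 / 4 + e * (K * (C * e ^ 2)) := by
          refine add_le_add ?_ ?_
          · rw [norm_div]
            simp only [Complex.norm_ofNat]
            exact div_le_div_of_nonneg_right h1 (by norm_num)
          · rw [norm_mul, Complex.norm_real, Real.norm_of_nonneg he.le]
            exact mul_le_mul_of_nonneg_left h2 he.le
      _ = (11 + K * C * e) * e ^ 2 := by ring
      _ ≤ (11 + K * C * e₀ + 2 * K * C) * e ^ 2 := by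
          refine mul_le_mul_of_nonneg_right ?_ (by positivity)
          have : K * C * e ≤ K * C * e₀ := mul_le_mul_of_nonneg_left he₀'.le (by positivity)
          have : 0 ≤ 2 * K * C := by positivity
          linarith
  · intro V hV
    have h2 := hF2b V hV
    have h3 := hF2b _ (inv_mem hV)
    have e1 : X e V / 4 + e * F2 V - rfc (fun V => X e V / 4 + e * F2 V) V =
        e * (F2 V - conj (F2 (1 / conj V))) := by
      simp only [rfc, map_add, map_div₀, map_mul, Complex.conj_ofReal]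
      have e2 := rfc_X e V
      rw [e2, show (starRingEnd ℂ) (4 : ℂ) = 4 from Complex.conj_ofNat 4]
      ring
    calc ‖X e V / 4 + e * F2 V - rfc (fun V => X e V / 4 + e * F2 V) V‖
        = e * ‖F2 V - conj (F2 (1 / conj V))‖ := by
          rw [e1, norm_mul, Complex.norm_real, Real.norm_of_nonneg he.le]
      _ ≤ e * (K * (C * e ^ 2) + K * (C * e ^ 2)) := by
          refine mul_le_mul_of_nonneg_left ((norm_sub_le _ _).trans (add_le_add h2 ?_)) he.le
          rw [RCLike.norm_conj]; exact h3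
      _ = 2 * K * C * e ^ 3 := by ring
      _ ≤ (11 + K * C * e₀ + 2 * K * C) * e ^ 3 := by
          refine mul_le_mul_of_nonneg_right ?_ (by positivity)
          have : 0 ≤ K * C * e₀ := by positivity
          linarith
  · intro V hV
    have h1 := hF2re V hV
    rw [X_circle hV, Complex.add_re, Complex.re_ofReal_mul, h1, mul_zero, add_zero]
    have : (((2 * rA e V.re : ℝ) : ℂ) / 4).re = 2 * rA e V.re / 4 := by
      rw [show (4 : ℂ) = ((4 : ℝ) : ℂ) by norm_num, ← Complex.ofReal_div, Complex.ofReal_re]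
    rw [this]; ring
  · intro V hV
    have hV4 := circle_mem hV
    have hV0 := ne_zero hV4
    have hder : HasDerivAt (fun V => X e V / 4 + e * F2 V)
        (X e V * (2 * e ^ 2 * (1 + -(V ^ 2)⁻¹)) / 4 + e * deriv F2 V) V := by
      refine ((hXd V hV0).div_const 4).add (HasDerivAt.const_mul _ ?_)
      exact ((hF2d V hV4).differentiableAt (isOpen_Ann.mem_nhds hV4)).hasDerivAt
    rw [hder.deriv]
    have e1 : V * (X e V * (2 * e ^ 2 * (1 + -(V ^ 2)⁻¹)) / 4 + e * deriv F2 V) =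
        X e V * e ^ 2 / 2 * (V * (1 + -(V ^ 2)⁻¹)) + e * (V * deriv F2 V) := by ring
    rw [e1, hF2' V hV4, hr V hV, mul_PP' hV0, QQ_circle hV, X_circle hV]
    push_cast
    ring

end Pool.Agent.T6.H52.TP
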