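import Pool.Agent.T6.H52.TP.Defs

open MeasureTheory Set Metric Topology Filter
open scoped ContDiff ComplexConjugate

namespace Pool.Agent.T6.H52.TP

namespace ModSOL

lemma ee_pos {k : ℕ} (hk : 100 ≤ k) : 0 < ee k := by
  unfold ee
  have : (0:ℝ) < k := by exact_mod_cast (by omega : 0 < k)
  positivity

lemma ee2_pos {k : ℕ} (hk : 100 ≤ k) : 0 < ee k ^ 2 := pow_pos (ee_pos hk) 2

lemma ee_le {k : ℕ} (hk : 100 ≤ k) : ee k ≤ 1 / 100 := by
  unfold ee
  have h : (100:ℝ) ≤ k := by exact_mod_cast hk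
  exact one_div_le_one_div_of_le (by norm_num) h

lemma k_mul_ee {k : ℕ} (hk : 100 ≤ k) : (k:ℝ) * ee k = 1 := by
  unfold ee
  have : (k:ℝ) ≠ 0 := by exact_mod_cast (by omega : k ≠ 0)
  field_simp

/-- points of the closure of the core have small modulus -/
lemma closD_le (hGeo : StmtGEO) (hGD : StmtGD) {k : ℕ} {r : ℂ → ℂ} (hk : 100 ≤ k)
    (hr : RSmall r) {z : ℂ} (hz : z ∈ closure (DD k r)) : ‖z‖ ≤ Real.exp (ee k ^ 2 / 100) := by
  have he := ee_pos hk
  have he2 := ee2_pos hk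
  have hle := ee_le hk
  obtain ⟨_, _, hc, _⟩ := hGeo _ _ _ _ _ (hGD k r hk hr)
  unfold DD at hz
  rw [hc] at hz
  rcases hz with h | ⟨h1, h2, h3⟩
  · refine h.trans (Real.exp_le_exp.mpr ?_)
    nlinarith
  · have hz0 : 0 < ‖z‖ := lt_trans (Real.exp_pos _) h1
    have hx : z ^ k ∈ ball (0:ℂ) (3/2) := by
      rw [mem_ball_zero_iff, norm_pow]
      calc ‖z‖ ^ k ≤ (Real.exp (2 * ee k ^ 2)) ^ k :=
            pow_le_pow_left₀ hz0.le h2.le k
        _ = Real.exp (k * (2 * ee k ^ 2)) := by rw [← Real.exp_nat_mul]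
        _ = Real.exp (2 * ee k) := by
            congr 1
            have := k_mul_ee hk
            calc (k:ℝ) * (2 * ee k ^ 2) = 2 * ee k * (k * ee k) := by ring
              _ = 2 * ee k := by rw [this]; ring
        _ ≤ Real.exp (1/50) := Real.exp_le_exp.mpr (by linarith)
        _ < 3 / 2 := by
            have := Real.exp_bound_div_one_sub_of_interval (x := 1/50) (by norm_num) (by norm_num)
            linarith [this]
    have hrn := hr.2 _ hx
    have hre : (r (z ^ k)).re ≤ 1 / 100 := (Complex.re_le_norm _).trans hrn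
    unfold rhoD at h3
    have : Real.log ‖z‖ ≤ ee k ^ 2 / 100 := by nlinarith
    calc ‖z‖ = Real.exp (Real.log ‖z‖) := (Real.exp_log hz0).symm
      _ ≤ _ := Real.exp_le_exp.mpr this

lemma closD_sub (hGeo : StmtGEO) (hGD : StmtGD) {k : ℕ} {r : ℂ → ℂ} (hk : 100 ≤ k)
    (hr : RSmall r) : closure (DD k r) ⊆ OO k := by
  intro z hz
  left
  refine (closD_le hGeo hGD hk hr hz).trans (Real.exp_le_exp.mpr ?_)
  have he2 := ee2_pos hk
  linarith

end ModSOL

open ModSOL

theorem sol (hGeo : StmtGEO) (hGD : StmtGD) (hGO : StmtGO) (hReg : StmtREG) (hBC : StmtBC)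
    (hCVX : StmtCVX) (hLU : StmtLU) (hLS : StmtLS) (hW : StmtWEAK) (hN : StmtNORM) : StmtSOL := by
  intro k C c H r G hk hc hH hR
  have he := ee_pos hk
  have he2 := ee2_pos hk
  have hr : RSmall r := ⟨hR.rdiff, hR.rsmall⟩
  have hsub := closD_sub hGeo hGD hk hr
  have hle := fun z (hz : z ∈ closure (DD k r)) => closD_le hGeo hGD hk hr hz
  obtain ⟨hDdom, hDfr, hDcl, hDloc⟩ := hGeo _ _ _ _ _ (hGD k r hk hr)
  obtain ⟨hOdom, hOfr, hOcl, hOloc⟩ := hGeo _ _ _ _ _ (hGO k hk)
  have hgO := hGO k hk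
  have hDo : IsOpen (DD k r) := hDdom.isOpen
  have hOo : IsOpen (OO k) := hOdom.isOpen
  have hDO : DD k r ⊆ OO k := subset_closure.trans hsub
  obtain ⟨hreg1, hreg2⟩ := hReg k H G hk hH.diff hR.gdiff
  have hO_lt : ∀ z ∈ OO k, ‖z‖ < Real.exp (6 * ee k ^ 2) := by
    intro z hz
    rcases hz with h | ⟨_, h, _⟩
    · exact lt_of_le_of_lt h (Real.exp_lt_exp.mpr (by linarith))
    · exact h
  have hnotD : ∀ z, z ∉ DD k r → Real.exp (-ee k ^ 2) < ‖z‖ := by
    intro z hz
    by_contra h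
    exact hz (Or.inl (not_lt.mp h))
  refine ⟨hsub, ⟨hLU k C c H r G hk hc hH hR, ?_, ?_, ?_⟩⟩
  · intro x hx
    have hxD : x ∉ DD k r := fun h => hx (hDO h)
    simp [uu, hxD, hx]
  · obtain ⟨Lu, hLu⟩ := hLU k C c H r G hk hc hH hR
    obtain ⟨Ls, s, hLs, hs⟩ := hLS k C c H r G hk hc hH hR
    refine hW (sc k) (DD k r) (OO k) (uu k H r G) s Lu Ls hDo hOo ?_ hLu hLs ?_
    · exact (hCVX k r hk hr).addHaar_frontier volume
    · intro z hz hzf
      by_cases hzD : z ∈ DD k r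
      · have hsig : sig (sc k) (DD k r) z = sc k := by simp [sig, hzD]
        have h1 : uu k H r G =ᶠ[𝓝 z] uI k G := by
          filter_upwards [hDo.mem_nhds hzD] with y hy
          simp [uu, hy]
        have h2 : s =ᶠ[𝓝 z] sI k G := by
          filter_upwards [hDo.mem_nhds hzD] with y hy
          rw [hs y (hDO hy)]
          simp [ss, hy]
        rw [hsig, h1.fderiv_eq, h2.fderiv_eq]
        have hz' : ‖z‖ < Real.exp (5/2 * ee k ^ 2) :=
          lt_of_le_of_lt (hle z (subset_closure hzD)) (Real.exp_lt_exp.mpr (by linarith))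
        obtain ⟨_, _, a, b⟩ := hreg2 z hz'
        exact ⟨a, b⟩
      · have hsig : sig (sc k) (DD k r) z = 1 := by simp [sig, hzD]
        have hzc : z ∉ closure (DD k r) := by
          intro h
          apply hzf
          rw [frontier, hDo.interior_eq]
          exact ⟨h, hzD⟩
        have hnb : ∀ᶠ y in 𝓝 z, y ∉ DD k r ∧ y ∈ OO k := by
          filter_upwards [isClosed_closure.isOpen_compl.mem_nhds hzc, hOo.mem_nhds hz] with y h1 h2
          exact ⟨fun h => h1 (subset_closure h), h2⟩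
        have h1 : uu k H r G =ᶠ[𝓝 z] uO k H := by
          filter_upwards [hnb] with y hy
          simp [uu, hy.1, hy.2]
        have h2 : s =ᶠ[𝓝 z] sO k H := by
          filter_upwards [hnb] with y hy
          rw [hs y hy.2]
          simp [ss, hy.1]
        rw [hsig, h1.fderiv_eq, h2.fderiv_eq, one_mul, one_mul]
        have hz1 : Real.exp (-6 * ee k ^ 2) < ‖z‖ :=
          lt_trans (Real.exp_lt_exp.mpr (by linarith)) (hnotD z hzD)
        have hz2 : ‖z‖ < Real.exp (7 * ee k ^ 2) :=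
          lt_trans (hO_lt z hz) (Real.exp_lt_exp.mpr (by linarith))
        obtain ⟨_, _, a, b⟩ := hreg1 z hz1 hz2
        exact ⟨a, b⟩
  · have hfrO : ∀ x ∈ frontier (OO k), 1 < ‖x‖ ∧ ‖x‖ < Real.exp (6 * ee k ^ 2) ∧ rhoO k x = 0 := by
      intro x hx
      have : x ∈ frontier (Dom 1 (Real.exp (ee k ^ 2 / 2)) (Real.exp (6 * ee k ^ 2)) (rhoO k)) := hx
      rw [hOfr] at this
      exact this
    refine ⟨{z | Real.exp (ee k ^ 2 / 2) < ‖z‖ ∧ ‖z‖ < Real.exp (6 * ee k ^ 2)}, uO k H,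
      ?_, ?_, ?_, ?_, ?_, ?_⟩
    · exact (isOpen_lt continuous_const continuous_norm).inter
        (isOpen_lt continuous_norm continuous_const)
    · intro x hx
      obtain ⟨h1, h2, h3⟩ := hfrO x hx
      refine ⟨?_, h2⟩
      by_contra h
      have := hgO.neg x h1 (not_lt.mp h)
      linarith
    · intro x hx
      have hz1 : Real.exp (-6 * ee k ^ 2) < ‖x‖ :=
        lt_trans (Real.exp_lt_exp.mpr (by linarith)) hx.1
      have hz2 : ‖x‖ < Real.exp (7 * ee k ^ 2) :=
        lt_trans hx.2 (Real.exp_lt_exp.mpr (by linarith))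
      exact (hreg1 x hz1 hz2).1.contDiffWithinAt
    · rintro x ⟨hxU, hxc⟩
      have hxD : x ∉ DD k r := by
        intro h
        have := hle x (subset_closure h)
        have h2 : Real.exp (ee k ^ 2 / 100) ≤ Real.exp (ee k ^ 2 / 2) :=
          Real.exp_le_exp.mpr (by linarith)
        linarith [hxU.1]
      by_cases hxO : x ∈ OO k
      · simp [uu, hxD, hxO]
      · have hf : x ∈ frontier (OO k) := by
          rw [frontier, hOo.interior_eq]
          exact ⟨hxc, hxO⟩
        obtain ⟨h1, h2, h3⟩ := hfrO x hf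
        obtain ⟨h0, _⟩ := hBC k C c H hk hc hH x h1 h2 h3
        simp [uu, hxD, hxO, h0]
    · intro x hx
      obtain ⟨h1, h2, h3⟩ := hfrO x hx
      obtain ⟨_, n, hn, _, l, hl, hr⟩ := hBC k C c H hk hc hH x h1 h2 h3
      exact ⟨n, hn, rhoO k, hOloc x h1 h2 h3, l, hl, hr⟩
    · intro x hx n' hn'
      obtain ⟨h1, h2, h3⟩ := hfrO x hx
      obtain ⟨_, n, hn, hd, l, hl, hr⟩ := hBC k C c H hk hc hH x h1 h2 h3
      have hon : IsOuterNormal (OO k) x n := ⟨hn, rhoO k, hOloc x h1 h2 h3, l, hl, hr⟩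
      have := hN _ _ _ _ hn' hon
      subst this
      rw [hd, real_inner_self_eq_norm_sq, hn]
      ring

end Pool.Agent.T6.H52.TP
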