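import Pool.Agent.T6.H52.TP.Defs
import Pool.Agent.T6.H52.TP.Sol

open MeasureTheory Set Metric Topology Filter
open scoped ContDiff ComplexConjugate

namespace Pool.Agent.T6.H52.TP

open ModSOL

theorem counterexample_of (hHH : StmtHH) (hRR : StmtRR) (hSOL : StmtSOL) (hGeo : StmtGEO)
    (hGD : StmtGD) (hGO : StmtGO) (hCVX : StmtCVX) (hNCX : StmtNCX) : Counterexample := by
  obtain ⟨C, e₀, hC, he₀, h⟩ := hHH
  obtain ⟨e₁, he₁, h'⟩ := hRR C hC
  obtain ⟨n, hn⟩ := exists_nat_gt (1 / min e₀ e₁)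
  have hm : 0 < min e₀ e₁ := lt_min he₀ he₁
  set k : ℕ := max 100 n with hkdef
  have hk : 100 ≤ k := le_max_left _ _
  have hnk : (n:ℝ) ≤ k := by exact_mod_cast le_max_right 100 n
  have hk0 : (0:ℝ) < k := by
    have : (100:ℝ) ≤ k := by exact_mod_cast hk
    linarith
  have hek : ee k < min e₀ e₁ := by
    unfold ee
    rw [div_lt_iff₀ hk0]
    have := (div_lt_iff₀ hm).mp (lt_of_lt_of_le hn hnk)
    linarith
  have he := ee_pos hk
  obtain ⟨c, hc, H, hH⟩ := h (ee k) he (lt_of_lt_of_le hek (min_le_left _ _))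
  obtain ⟨r, G, hR⟩ := h' (ee k) he (lt_of_lt_of_le hek (min_le_right _ _)) H
    ⟨hH.diff, hH.small, hH.asym⟩
  have hr : RSmall r := ⟨hR.rdiff, hR.rsmall⟩
  obtain ⟨hsub, hsol⟩ := hSOL k C c H r G hk hc hH hR
  refine ⟨sc k, DD k r, OO k, -c, uu k H r G, ?_, ?_, (hGeo _ _ _ _ _ (hGD k r hk hr)).1,
    hCVX k r hk hr, (hGeo _ _ _ _ _ (hGO k hk)).1, hsub, hsol, hNCX k hk⟩
  · unfold sc; positivity
  · unfold sc
    intro h1
    have h2 : (2 * (k:ℝ) + 1) ≠ 0 := by positivity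
    rw [div_eq_iff h2] at h1
    linarith

theorem not_Q1_of (hce : Counterexample) (hV : StmtVOL) (hT : StmtTRANS) : ¬ Q1 := by
  intro hQ
  obtain ⟨σc, D, Ω, c, u, h0, h1, hD, hDc, hO, hsub, hsol, hnc⟩ := hce
  obtain ⟨a1, a2, a3, a4, a5, a6⟩ :=
    hT Complex.orthonormalBasisOneI.repr σc D Ω c u hD hDc hO hsub hsol hnc
  obtain ⟨v1, v2⟩ := hV _ _ a1 a3 a4
  have hV0 : volume (Complex.orthonormalBasisOneI.repr '' Ω) =
      ENNReal.ofReal (volume (Complex.orthonormalBasisOneI.repr '' Ω)).toReal :=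
    (ENNReal.ofReal_toReal v2.ne).symm
  exact a6 (hQ 2 le_rfl σc h0 h1 _ a1 a2 (volume (Complex.orthonormalBasisOneI.repr '' Ω)).toReal
    (by rw [← hV0]; exact v1) _ a3 a4 hV0 ⟨c, _, a5⟩)

end Pool.Agent.T6.H52.TP
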