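import Pool.Agent.T6.H52.TP.Defs

open MeasureTheory Set Metric Topology Filter
open scoped ContDiff ComplexConjugate

namespace Pool.Agent.T6.H52.TP

namespace ModFPA

lemma mem_ball {v : ℂ} (hv : v ∈ Ann 2) : v ∈ ball (0:ℂ) 2 := by
  rw [mem_ball_zero_iff]; exact hv.2

lemma ne0 {R : ℝ} (hR : 0 < R) {v : ℂ} (hv : v ∈ Ann R) : v ≠ 0 := by
  rintro rfl
  have h := hv.1
  rw [norm_zero] at h
  have : 0 < 1 / R := by positivity
  linarith

lemma isOpen_ann (R : ℝ) : IsOpen (Ann R) := by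
  have h1 : IsOpen {v : ℂ | 1 / R < ‖v‖} := isOpen_lt continuous_const continuous_norm
  have h2 : IsOpen {v : ℂ | ‖v‖ < R} := isOpen_lt continuous_norm continuous_const
  exact h1.inter h2

lemma inv_mem {R : ℝ} (hR : 0 < R) {v : ℂ} (hv : v ∈ Ann R) : 1 / v ∈ Ann R := by
  have h0 : 0 < ‖v‖ := norm_pos_iff.2 (ne0 hR hv)
  obtain ⟨h1, h2⟩ := hv
  refine ⟨?_, ?_⟩
  · rw [norm_div, norm_one]
    exact one_div_lt_one_div_of_lt h0 h2
  · rw [norm_div, norm_one]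
    rw [div_lt_iff₀ h0]
    rw [div_lt_iff₀ hR] at h1
    linarith

lemma conj_mem {R : ℝ} {v : ℂ} (hv : v ∈ Ann R) : conj v ∈ Ann R := by
  obtain ⟨h1, h2⟩ := hv
  exact ⟨by rwa [RCLike.norm_conj], by rwa [RCLike.norm_conj]⟩

lemma refl_mem {R : ℝ} (hR : 0 < R) {v : ℂ} (hv : v ∈ Ann R) : 1 / conj v ∈ Ann R :=
  inv_mem hR (conj_mem hv)

lemma diff_rfc {R : ℝ} (hR : 0 < R) {f : ℂ → ℂ} (hf : DifferentiableOn ℂ f (Ann R)) :
    DifferentiableOn ℂ (rfc f) (Ann R) := by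
  intro v hv
  have h1 : DifferentiableAt ℂ (fun w : ℂ => f (1 / w)) (conj v) := by
    have hc := conj_mem hv
    have hin := inv_mem hR hc
    have hd := (hf _ hin).differentiableAt ((isOpen_ann R).mem_nhds hin)
    have hi : DifferentiableAt ℂ (fun w : ℂ => 1 / w) (conj v) :=
      (differentiableAt_const _).div differentiableAt_id (ne0 hR hc)
    exact DifferentiableAt.comp (conj v) hd hi
  have h2 := h1.conj_conj
  rw [Complex.conj_conj] at h2
  exact h2.differentiableWithinAt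

lemma exp_quarter : Real.exp (1 / 4) < 3 / 2 := by
  have h1 : Real.exp (1 / 4) ^ 4 = Real.exp 1 := by
    rw [← Real.exp_nat_mul]; norm_num
  have h2 := Real.exp_one_lt_d9
  have h0 := Real.exp_pos (1 / 4)
  by_contra h
  push Not at h
  have : (3 / 2 : ℝ) ^ 4 ≤ Real.exp (1 / 4) ^ 4 := pow_le_pow_left₀ (by norm_num) h 4
  rw [h1] at this
  norm_num at this h2
  linarith

lemma mem3 {v y : ℂ} (hv : v ∈ Ann 2) (hy : ‖y‖ ≤ 1 / 4) : v * Complex.exp y ∈ Ann 3 := by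
  obtain ⟨h1, h2⟩ := hv
  have hre : |y.re| ≤ 1 / 4 := (Complex.abs_re_le_norm y).trans hy
  rw [abs_le] at hre
  have hn : ‖v * Complex.exp y‖ = ‖v‖ * Real.exp y.re := by
    rw [norm_mul, Complex.norm_exp]
  have hu : Real.exp y.re ≤ Real.exp (1 / 4) := Real.exp_le_exp.2 hre.2
  have hl : Real.exp (-(1 / 4)) ≤ Real.exp y.re := Real.exp_le_exp.2 hre.1
  have hq := exp_quarter
  have h4 : Real.exp (-(1 / 4)) * Real.exp (1 / 4) = 1 := by
    rw [← Real.exp_add]; norm_num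
  have h5 : 2 / 3 < Real.exp (-(1 / 4)) := by
    have hp := Real.exp_pos (-(1 / 4))
    nlinarith
  have hp := Real.exp_pos y.re
  refine ⟨?_, ?_⟩
  · rw [hn]
    nlinarith
  · rw [hn]
    nlinarith [norm_nonneg v]

/-- basic estimate -/
lemma basic {C e : ℝ} {H : ℂ → ℂ} (hH : HHyp C e H) {v y₁ y₂ : ℂ}
    (hv : v ∈ Ann 2) (h₁ : ‖y₁‖ ≤ 1 / 8) (h₂ : ‖y₂‖ ≤ 1 / 8) :
    ‖H (v * Complex.exp y₁) - H (v * Complex.exp y₂)‖ ≤ 16 * C * e ^ 2 * ‖y₁ - y₂‖ := by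
  obtain ⟨hd, hs, -⟩ := hH
  set φ : ℂ → ℂ := fun y => H (v * Complex.exp y) - 1 / 4 with hφ
  have hdiff : ∀ y ∈ ball (0:ℂ) (1 / 4), DifferentiableAt ℂ φ y := by
    intro y hy
    rw [mem_ball_zero_iff] at hy
    have hm := mem3 hv hy.le
    have h1 := (hd _ hm).differentiableAt ((isOpen_ann 3).mem_nhds hm)
    have h2 : DifferentiableAt ℂ (fun y : ℂ => v * Complex.exp y) y :=
      (differentiableAt_const v).mul Complex.differentiableAt_exp
    have h3 : DifferentiableAt ℂ (fun y : ℂ => H (v * Complex.exp y)) y :=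
      DifferentiableAt.comp y h1 h2
    exact h3.sub_const _
  have hbd : ∀ y ∈ ball (0:ℂ) (1 / 4), ‖φ y‖ ≤ C * e ^ 2 := by
    intro y hy
    rw [mem_ball_zero_iff] at hy
    exact hs _ (mem3 hv hy.le)
  have hder : ∀ y ∈ closedBall (0:ℂ) (1 / 8), ‖deriv φ y‖ ≤ 16 * C * e ^ 2 := by
    intro y hy
    rw [mem_closedBall_zero_iff] at hy
    have hsub : closedBall y (1 / 16) ⊆ ball (0:ℂ) (1 / 4) := by
      intro z hz
      rw [mem_closedBall, dist_eq_norm] at hz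
      rw [mem_ball_zero_iff]
      calc ‖z‖ = ‖(z - y) + y‖ := by ring_nf
        _ ≤ ‖z - y‖ + ‖y‖ := norm_add_le _ _
        _ ≤ 1 / 16 + 1 / 8 := add_le_add hz hy
        _ < 1 / 4 := by norm_num
    have hdc : DiffContOnCl ℂ φ (ball y (1 / 16)) := by
      apply DifferentiableOn.diffContOnCl
      intro z hz
      have hz' : z ∈ closedBall y (1 / 16) := by
        have := closure_ball_subset_closedBall hz
        exact this
      exact (hdiff z (hsub hz')).differentiableWithinAt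
    have := Complex.norm_deriv_le_of_forall_mem_sphere_norm_le (c := y) (R := 1 / 16)
      (C := C * e ^ 2) (by norm_num) hdc (fun z hz => hbd z (hsub (sphere_subset_closedBall hz)))
    calc ‖deriv φ y‖ ≤ C * e ^ 2 / (1 / 16) := this
      _ = 16 * C * e ^ 2 := by ring
  have hmain := Convex.norm_image_sub_le_of_norm_deriv_le (𝕜 := ℂ) (f := φ)
    (s := closedBall (0:ℂ) (1 / 8)) (C := 16 * C * e ^ 2) (x := y₂) (y := y₁)
    (fun y hy => hdiff y (by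
      rw [mem_closedBall_zero_iff] at hy
      rw [mem_ball_zero_iff]
      linarith)) hder (convex_closedBall _ _) (by rwa [mem_closedBall_zero_iff])
    (by rwa [mem_closedBall_zero_iff])
  have he' : φ y₁ - φ y₂ = H (v * Complex.exp y₁) - H (v * Complex.exp y₂) := by
    simp only [hφ]; ring
  rw [he'] at hmain
  exact hmain

lemma expdiff {r : ℝ} (hr : r ≤ 1) {w₁ w₂ : ℂ} (h₁ : ‖w₁‖ ≤ r) (h₂ : ‖w₂‖ ≤ r) :
    ‖(Complex.exp w₁ - w₁) - (Complex.exp w₂ - w₂)‖ ≤ 2 * r * ‖w₁ - w₂‖ := by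
  refine Convex.norm_image_sub_le_of_norm_deriv_le (𝕜 := ℂ)
    (f := fun w : ℂ => Complex.exp w - w)
    (s := closedBall (0:ℂ) r) (C := 2 * r) (x := w₂) (y := w₁)
    (fun y _ => Complex.differentiableAt_exp.sub differentiableAt_id) ?_
    (convex_closedBall _ _) (by rwa [mem_closedBall_zero_iff]) (by rwa [mem_closedBall_zero_iff])
  intro y hy
  rw [mem_closedBall_zero_iff] at hy
  have hd : deriv (fun w : ℂ => Complex.exp w - w) y = Complex.exp y - 1 :=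
    ((Complex.hasDerivAt_exp y).sub (hasDerivAt_id y)).deriv
  rw [hd]
  calc ‖Complex.exp y - 1‖ ≤ 2 * ‖y‖ := Complex.norm_exp_sub_one_le (hy.trans hr)
    _ ≤ 2 * r := by linarith

lemma small {e : ℝ} (he : 0 < e) (he1 : e < 1) {q : ℂ → ℂ} (hq : QHyp q) {v : ℂ}
    (hv : v ∈ ball (0:ℂ) 2) : ‖(e : ℂ) * q v‖ ≤ e / 100 ∧ ‖(e : ℂ) * q v‖ ≤ 1 / 8 := by
  have h := hq.2.2 v hv
  have h1 : ‖(e : ℂ) * q v‖ ≤ e / 100 := by
    rw [norm_mul, Complex.norm_real, Real.norm_eq_abs, abs_of_pos he]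
    calc e * ‖q v‖ ≤ e * (1 / 100) := mul_le_mul_of_nonneg_left h he.le
      _ = e / 100 := by ring
  exact ⟨h1, by linarith⟩

lemma diff_AA {C e : ℝ} {H : ℂ → ℂ} (he : 0 < e) (he1 : e < 1) (hH : HHyp C e H) {q : ℂ → ℂ}
    (hq : QHyp q) : DifferentiableOn ℂ (AA e H q) (Ann 2) := by
  intro v hv
  have hb := mem_ball hv
  have hm : v * Complex.exp (e * q v) ∈ Ann 3 :=
    mem3 hv ((small he he1 hq hb).2.trans (by norm_num))
  have h1 := (hH.1 _ hm).differentiableAt ((isOpen_ann 3).mem_nhds hm)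
  have hqd : DifferentiableAt ℂ q v := (hq.1 v hb).differentiableAt (isOpen_ball.mem_nhds hb)
  have h2 : DifferentiableAt ℂ (fun v : ℂ => v * Complex.exp (e * q v)) v :=
    differentiableAt_id.mul ((hqd.const_mul (e : ℂ)).cexp)
  have h3 : DifferentiableAt ℂ (AA e H q) v := DifferentiableAt.comp v h1 h2
  exact h3.differentiableWithinAt

lemma diff_NN {C e : ℝ} {H : ℂ → ℂ} (he : 0 < e) (he1 : e < 1) (hH : HHyp C e H) {q : ℂ → ℂ}
    (hq : QHyp q) : DifferentiableOn ℂ (NN e H q) (Ann 2) := by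
  have hA := diff_AA he he1 hH hq
  have hrA := diff_rfc (by norm_num : (0:ℝ) < 2) hA
  have hq1 : DifferentiableOn ℂ q (Ann 2) := hq.1.mono (fun v hv => mem_ball hv)
  have hrq := diff_rfc (by norm_num : (0:ℝ) < 2) hq1
  have hs : DifferentiableOn ℂ (fun v => q v + rfc q v) (Ann 2) := hq1.add hrq
  have hE : DifferentiableOn ℂ (fun v => EE e (q v + rfc q v)) (Ann 2) := by
    unfold EE
    have h1 : DifferentiableOn ℂ (fun v => (e : ℂ) ^ 2 * (q v + rfc q v)) (Ann 2) :=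
      hs.const_mul _
    have h2 := h1.cexp
    exact ((h2.sub_const 1).sub h1).div_const _
  have h2 : DifferentiableOn ℂ (fun v => (AA e H q v - rfc (AA e H q) v) / (e : ℂ) ^ 2) (Ann 2) :=
    (hA.sub hrA).div_const _
  have h3 : DifferentiableOn ℂ (fun v => (rfc (AA e H q) v - 1 / 4) / (e : ℂ)) (Ann 2) :=
    (hrA.sub_const _).div_const _
  exact (hE.sub h2).add h3

lemma refl_exp {v w : ℂ} : 1 / conj (v * Complex.exp w) = 1 / conj v * Complex.exp (-conj w) := by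
  rw [map_mul, ← Complex.exp_conj, Complex.exp_neg]
  simp only [one_div, mul_inv]

lemma AA_small {C e : ℝ} {H : ℂ → ℂ} (he : 0 < e) (he1 : e < 1) (hH : HHyp C e H) {q : ℂ → ℂ}
    (hq : QHyp q) {v : ℂ} (hv : v ∈ Ann 2) : ‖AA e H q v - 1 / 4‖ ≤ C * e ^ 2 :=
  hH.2.1 _ (mem3 hv ((small he he1 hq (mem_ball hv)).2.trans (by norm_num)))

lemma rAA_small {C e : ℝ} {H : ℂ → ℂ} (he : 0 < e) (he1 : e < 1) (hH : HHyp C e H) {q : ℂ → ℂ}
    (hq : QHyp q) {v : ℂ} (hv : v ∈ Ann 2) : ‖rfc (AA e H q) v - 1 / 4‖ ≤ C * e ^ 2 := by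
  have h := AA_small he he1 hH hq (refl_mem (by norm_num : (0:ℝ) < 2) hv)
  have h2 : rfc (AA e H q) v - 1 / 4 = conj (AA e H q (1 / conj v) - 1 / 4) := by
    unfold rfc
    rw [map_sub]
    congr 1
    rw [map_div₀, map_one, map_ofNat]
  rw [h2, RCLike.norm_conj]
  exact h

lemma AA_asym {C e : ℝ} {H : ℂ → ℂ} (hC : 0 < C) (he : 0 < e) (he1 : e < 1) (hH : HHyp C e H)
    {q : ℂ → ℂ} (hq : QHyp q) {v : ℂ} (hv : v ∈ Ann 2) :
    ‖AA e H q v - rfc (AA e H q) v‖ ≤ 2 * C * e ^ 3 := by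
  have hv' := refl_mem (by norm_num : (0:ℝ) < 2) hv
  set v' : ℂ := 1 / conj v with hv'def
  set x : ℂ := v * Complex.exp (e * q v) with hx
  have hxm : x ∈ Ann 3 := mem3 hv ((small he he1 hq (mem_ball hv)).2.trans (by norm_num))
  have h1 := hH.2.2 x hxm
  have hrx : rfc H x = conj (H (v' * Complex.exp (-conj (e * q v)))) := by
    unfold rfc
    rw [hx, refl_exp]
  have h2 : rfc (AA e H q) v = conj (H (v' * Complex.exp (e * q v'))) := rfl
  have h3 : AA e H q v = H x := rfl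
  have s1 := small he he1 hq (mem_ball hv)
  have s2 := small he he1 hq (mem_ball hv')
  have hb := basic hH hv' (y₁ := -conj (e * q v)) (y₂ := e * q v')
    (by rw [norm_neg, RCLike.norm_conj]; exact s1.2) s2.2
  have hn : ‖-conj ((e:ℂ) * q v) - e * q v'‖ ≤ e / 50 := by
    calc ‖-conj ((e:ℂ) * q v) - e * q v'‖ ≤ ‖-conj ((e:ℂ) * q v)‖ + ‖(e:ℂ) * q v'‖ :=
          norm_sub_le _ _
      _ ≤ e / 100 + e / 100 := by
          rw [norm_neg, RCLike.norm_conj]; exact add_le_add s1.1 s2.1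
      _ = e / 50 := by ring
  have h4 : AA e H q v - rfc (AA e H q) v = (H x - rfc H x) +
      conj (H (v' * Complex.exp (-conj (e * q v))) - H (v' * Complex.exp (e * q v'))) := by
    rw [h3, h2, hrx, map_sub]; ring
  rw [h4]
  calc _ ≤ ‖H x - rfc H x‖ + ‖conj (H (v' * Complex.exp (-conj (e * q v))) -
            H (v' * Complex.exp (e * q v')))‖ := norm_add_le _ _
    _ ≤ C * e ^ 3 + 16 * C * e ^ 2 * (e / 50) := by
        refine add_le_add h1 ?_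
        rw [RCLike.norm_conj]
        exact hb.trans (mul_le_mul_of_nonneg_left hn (by positivity))
    _ ≤ 2 * C * e ^ 3 := by
        have : 0 < C * e ^ 3 := by positivity
        nlinarith

lemma y_small {q : ℂ → ℂ} (hq : QHyp q) {v : ℂ} (hv : v ∈ Ann 2) :
    ‖q v + rfc q v‖ ≤ 1 / 50 := by
  have h1 := hq.2.2 v (mem_ball hv)
  have h2 := hq.2.2 _ (mem_ball (refl_mem (by norm_num : (0:ℝ) < 2) hv))
  calc ‖q v + rfc q v‖ ≤ ‖q v‖ + ‖rfc q v‖ := norm_add_le _ _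
    _ ≤ 1 / 100 + 1 / 100 := by
        refine add_le_add h1 ?_
        unfold rfc
        rw [RCLike.norm_conj]; exact h2
    _ = 1 / 50 := by norm_num

lemma norm_e (e : ℝ) (he : 0 < e) : ‖(e : ℂ)‖ = e := by
  rw [Complex.norm_real, Real.norm_eq_abs, abs_of_pos he]

lemma e2y {e : ℝ} (he : 0 < e) {y : ℂ} (hy : ‖y‖ ≤ 1 / 50) : ‖(e : ℂ) ^ 2 * y‖ ≤ e ^ 2 / 50 := by
  rw [norm_mul, norm_pow, norm_e e he]
  have : 0 < e ^ 2 := by positivity
  nlinarith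

lemma EE_small {e : ℝ} (he : 0 < e) (he1 : e < 1) {y : ℂ} (hy : ‖y‖ ≤ 1 / 50) :
    ‖EE e y‖ ≤ e := by
  have h1 := e2y he hy
  have he2 : e ^ 2 < 1 := by nlinarith
  have h2 := Complex.norm_exp_sub_one_sub_id_le (x := (e : ℂ) ^ 2 * y) (by linarith)
  unfold EE
  rw [norm_div, norm_mul, norm_pow, norm_e e he, Complex.norm_ofNat]
  rw [div_le_iff₀ (by positivity)]
  calc _ ≤ ‖(e : ℂ) ^ 2 * y‖ ^ 2 := h2
    _ ≤ (e ^ 2 / 50) ^ 2 := pow_le_pow_left₀ (norm_nonneg _) h1 2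
    _ ≤ e * (2 * e ^ 2) := by
        have h3 : 0 < e ^ 3 := by positivity
        have h4 : e ^ 4 ≤ e ^ 3 := by
          have : e ^ 4 = e * e ^ 3 := by ring
          rw [this]; nlinarith
        nlinarith

lemma EE_lip {e : ℝ} (he : 0 < e) (he1 : e < 1) {y₁ y₂ : ℂ} (h₁ : ‖y₁‖ ≤ 1 / 50)
    (h₂ : ‖y₂‖ ≤ 1 / 50) {N : ℝ} (hN : ‖y₁ - y₂‖ ≤ N) :
    ‖EE e y₁ - EE e y₂‖ ≤ e * N / 2 := by
  have hN0 : 0 ≤ N := (norm_nonneg _).trans hN
  have g1 := e2y he h₁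
  have g2 := e2y he h₂
  have he2 : e ^ 2 < 1 := by nlinarith
  have hx := expdiff (r := e ^ 2 / 50) (by linarith) g1 g2
  have h3 : EE e y₁ - EE e y₂ = ((Complex.exp ((e : ℂ) ^ 2 * y₁) - (e : ℂ) ^ 2 * y₁) -
      (Complex.exp ((e : ℂ) ^ 2 * y₂) - (e : ℂ) ^ 2 * y₂)) / (2 * (e:ℂ) ^ 2) := by
    unfold EE
    rw [← sub_div]
    congr 1
    ring
  rw [h3, norm_div, norm_mul, norm_pow, norm_e e he, Complex.norm_ofNat,
    div_le_iff₀ (by positivity)]
  have h4 : ‖(e : ℂ) ^ 2 * y₁ - (e : ℂ) ^ 2 * y₂‖ ≤ e ^ 2 * N := by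
    rw [← mul_sub, norm_mul, norm_pow, norm_e e he]
    exact mul_le_mul_of_nonneg_left hN (by positivity)
  calc _ ≤ 2 * (e ^ 2 / 50) * ‖(e : ℂ) ^ 2 * y₁ - (e : ℂ) ^ 2 * y₂‖ := hx
    _ ≤ 2 * (e ^ 2 / 50) * (e ^ 2 * N) := mul_le_mul_of_nonneg_left h4 (by positivity)
    _ ≤ e * N / 2 * (2 * e ^ 2) := by
        have h5 : 0 ≤ e ^ 3 * N := by positivity
        have h6 : e ^ 4 * N ≤ e ^ 3 * N := by
          have : e ^ 4 * N = e * (e ^ 3 * N) := by ring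
          rw [this]; nlinarith
        nlinarith

lemma AA_lip {C e : ℝ} {H : ℂ → ℂ} (hC : 0 < C) (he : 0 < e) (he1 : e < 1) (hH : HHyp C e H)
    {q₁ q₂ : ℂ → ℂ} (hq₁ : QHyp q₁) (hq₂ : QHyp q₂) {M : ℝ}
    (hM : ∀ v ∈ ball (0:ℂ) 2, ‖q₁ v - q₂ v‖ ≤ M) {v : ℂ} (hv : v ∈ Ann 2) :
    ‖AA e H q₁ v - AA e H q₂ v‖ ≤ 16 * C * e ^ 3 * M := by
  have hb := basic hH hv (y₁ := e * q₁ v) (y₂ := e * q₂ v)
    (small he he1 hq₁ (mem_ball hv)).2 (small he he1 hq₂ (mem_ball hv)).2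
  refine hb.trans ?_
  have : ‖(e:ℂ) * q₁ v - e * q₂ v‖ ≤ e * M := by
    rw [← mul_sub, norm_mul, norm_e e he]
    exact mul_le_mul_of_nonneg_left (hM v (mem_ball hv)) he.le
  calc 16 * C * e ^ 2 * ‖(e:ℂ) * q₁ v - e * q₂ v‖ ≤ 16 * C * e ^ 2 * (e * M) :=
        mul_le_mul_of_nonneg_left this (by positivity)
    _ = 16 * C * e ^ 3 * M := by ring

end ModFPA

open ModFPA in
theorem fpa : StmtFPA := by
  intro C hC
  refine ⟨48 * C + 10, by positivity, ?_⟩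
  intro e he he1 H hH
  have hR : (0:ℝ) < 2 := by norm_num
  refine ⟨fun q hq => ⟨diff_NN he he1 hH hq, fun v hv => ?_⟩, ?_⟩
  · have h1 := EE_small he he1 (y_small hq hv)
    have h2 := AA_asym hC he he1 hH hq hv
    have h3 := rAA_small he he1 hH hq hv
    have e2 : ‖(AA e H q v - rfc (AA e H q) v) / (e:ℂ) ^ 2‖ ≤ 2 * C * e := by
      rw [norm_div, norm_pow, norm_e e he, div_le_iff₀ (by positivity)]
      calc _ ≤ 2 * C * e ^ 3 := h2
        _ = 2 * C * e * e ^ 2 := by ring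
    have e3 : ‖(rfc (AA e H q) v - 1 / 4) / (e:ℂ)‖ ≤ C * e := by
      rw [norm_div, norm_e e he, div_le_iff₀ he]
      calc _ ≤ C * e ^ 2 := h3
        _ = C * e * e := by ring
    unfold NN
    calc _ ≤ ‖EE e (q v + rfc q v) - (AA e H q v - rfc (AA e H q) v) / (e:ℂ) ^ 2‖ +
          ‖(rfc (AA e H q) v - 1 / 4) / (e:ℂ)‖ := norm_add_le _ _
      _ ≤ (‖EE e (q v + rfc q v)‖ + ‖(AA e H q v - rfc (AA e H q) v) / (e:ℂ) ^ 2‖) + C * e :=
          add_le_add (norm_sub_le _ _) e3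
      _ ≤ (e + 2 * C * e) + C * e := by gcongr
      _ ≤ (48 * C + 10) * e := by
          have : 0 < C * e := by positivity
          nlinarith
  · intro q₁ q₂ hq₁ hq₂ M hM v hv
    have hM0 : 0 ≤ M := (norm_nonneg _).trans (hM 0 (by simp))
    have hv' := refl_mem hR hv
    have hy : ‖(q₁ v + rfc q₁ v) - (q₂ v + rfc q₂ v)‖ ≤ 2 * M := by
      have h1 := hM v (mem_ball hv)
      have h2 := hM _ (mem_ball hv')
      have h3 : (q₁ v + rfc q₁ v) - (q₂ v + rfc q₂ v) = (q₁ v - q₂ v) +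
          conj (q₁ (1 / conj v) - q₂ (1 / conj v)) := by
        unfold rfc
        rw [map_sub]; ring
      rw [h3]
      calc _ ≤ ‖q₁ v - q₂ v‖ + ‖conj (q₁ (1 / conj v) - q₂ (1 / conj v))‖ := norm_add_le _ _
        _ ≤ M + M := by
            refine add_le_add h1 ?_
            rw [RCLike.norm_conj]; exact h2
        _ = 2 * M := by ring
    have hE := EE_lip he he1 (y_small hq₁ hv) (y_small hq₂ hv) hy
    have hA := AA_lip hC he he1 hH hq₁ hq₂ hM hv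
    have hA' := AA_lip hC he he1 hH hq₁ hq₂ hM hv'
    have hrA : ‖rfc (AA e H q₁) v - rfc (AA e H q₂) v‖ ≤ 16 * C * e ^ 3 * M := by
      unfold rfc
      rw [← map_sub, RCLike.norm_conj]
      exact hA'
    have h4 : NN e H q₁ v - NN e H q₂ v =
        (EE e (q₁ v + rfc q₁ v) - EE e (q₂ v + rfc q₂ v)) -
        ((AA e H q₁ v - AA e H q₂ v) - (rfc (AA e H q₁) v - rfc (AA e H q₂) v)) / (e:ℂ) ^ 2 +
        (rfc (AA e H q₁) v - rfc (AA e H q₂) v) / (e:ℂ) := by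
      unfold NN
      ring
    have b2 : ‖((AA e H q₁ v - AA e H q₂ v) - (rfc (AA e H q₁) v - rfc (AA e H q₂) v)) /
        (e:ℂ) ^ 2‖ ≤ 32 * C * e * M := by
      rw [norm_div, norm_pow, norm_e e he, div_le_iff₀ (by positivity)]
      calc _ ≤ ‖AA e H q₁ v - AA e H q₂ v‖ + ‖rfc (AA e H q₁) v - rfc (AA e H q₂) v‖ :=
            norm_sub_le _ _
        _ ≤ 16 * C * e ^ 3 * M + 16 * C * e ^ 3 * M := add_le_add hA hrA
        _ = 32 * C * e * M * e ^ 2 := by ring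
    have b3 : ‖(rfc (AA e H q₁) v - rfc (AA e H q₂) v) / (e:ℂ)‖ ≤ 16 * C * e * M := by
      rw [norm_div, norm_e e he, div_le_iff₀ he]
      have h5 : 0 ≤ C * e ^ 2 * M := by positivity
      calc _ ≤ 16 * C * e ^ 3 * M := hrA
        _ = e * (16 * (C * e ^ 2 * M)) := by ring
        _ ≤ 1 * (16 * (C * e ^ 2 * M)) := by
            apply mul_le_mul_of_nonneg_right he1.le (by positivity)
        _ = 16 * C * e * M * e := by ring
    rw [h4]
    calc _ ≤ ‖(EE e (q₁ v + rfc q₁ v) - EE e (q₂ v + rfc q₂ v)) -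
        ((AA e H q₁ v - AA e H q₂ v) - (rfc (AA e H q₁) v - rfc (AA e H q₂) v)) / (e:ℂ) ^ 2‖ +
        ‖(rfc (AA e H q₁) v - rfc (AA e H q₂) v) / (e:ℂ)‖ := norm_add_le _ _
      _ ≤ (‖EE e (q₁ v + rfc q₁ v) - EE e (q₂ v + rfc q₂ v)‖ + ‖((AA e H q₁ v - AA e H q₂ v) -
        (rfc (AA e H q₁) v - rfc (AA e H q₂) v)) / (e:ℂ) ^ 2‖) + 16 * C * e * M :=
          add_le_add (norm_sub_le _ _) b3
      _ ≤ (e * (2 * M) / 2 + 32 * C * e * M) + 16 * C * e * M := by gcongr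
      _ ≤ (48 * C + 10) * e * M := by
          have : 0 ≤ e * M := by positivity
          nlinarith

end Pool.Agent.T6.H52.TP
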