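import Pool.Agent.T6.H52.TP.Defs

open MeasureTheory Set Metric Topology Filter
open scoped ContDiff ComplexConjugate

namespace Pool.Agent.T6.H52.TP

namespace ModFPB

/-- abstract contraction on the class `QHyp` -/
lemma fixed (T : (ℂ → ℂ) → (ℂ → ℂ)) (hT : ∀ q, QHyp q → QHyp (T q))
    (hc : ∀ q₁ q₂, QHyp q₁ → QHyp q₂ → ∀ M : ℝ, (∀ v ∈ ball (0:ℂ) 2, ‖q₁ v - q₂ v‖ ≤ M) →
      ∀ v ∈ ball (0:ℂ) 2, ‖T q₁ v - T q₂ v‖ ≤ M / 2) :
    ∃ q, QHyp q ∧ ∀ v ∈ ball (0:ℂ) 2, T q v = q v := by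
  have h0 : QHyp (fun _ => 0) := ⟨differentiableOn_const 0, rfl, fun v _ => by simp⟩
  set s : ℕ → (ℂ → ℂ) := fun n => T^[n] (fun _ => 0) with hs
  have hs1 : ∀ n, s (n + 1) = T (s n) := fun n => Function.iterate_succ_apply' T n _
  have hQ : ∀ n, QHyp (s n) := by
    intro n
    induction n with
    | zero => exact h0
    | succ n ih => rw [hs1]; exact hT _ ih
  have hstep : ∀ n, ∀ v ∈ ball (0:ℂ) 2, ‖s n v - s (n + 1) v‖ ≤ 1 * (1 / 2 : ℝ) ^ n := by
    intro n
    induction n with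
    | zero =>
      intro v hv
      have h1 : s 0 v = 0 := rfl
      have h2 := (hQ 1).2.2 v hv
      rw [h1, zero_sub, norm_neg]
      simp only [zero_add, pow_zero, mul_one]
      linarith
    | succ n ih =>
      intro v hv
      have := hc (s n) (s (n + 1)) (hQ n) (hQ (n + 1)) _ ih v hv
      rw [← hs1, ← hs1] at this
      calc _ ≤ 1 * (1 / 2 : ℝ) ^ n / 2 := this
        _ = 1 * (1 / 2 : ℝ) ^ (n + 1) := by ring
  have hdist : ∀ v ∈ ball (0:ℂ) 2, ∀ n, dist (s n v) (s (n + 1) v) ≤ 1 * (1 / 2 : ℝ) ^ n := by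
    intro v hv n
    rw [dist_eq_norm]; exact hstep n v hv
  set q : ℂ → ℂ := fun v => limUnder atTop (fun n => s n v) with hq
  have hlim : ∀ v ∈ ball (0:ℂ) 2, Tendsto (fun n => s n v) atTop (𝓝 (q v)) := by
    intro v hv
    exact (cauchySeq_of_le_geometric (1 / 2) 1 (by norm_num) (hdist v hv)).tendsto_limUnder
  have hrate : ∀ n, ∀ v ∈ ball (0:ℂ) 2, ‖s n v - q v‖ ≤ 2 * (1 / 2 : ℝ) ^ n := by
    intro n v hv
    have := dist_le_of_le_geometric_of_tendsto (1 / 2) 1 (by norm_num) (hdist v hv) (hlim v hv) n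
    rw [dist_eq_norm] at this
    calc _ ≤ 1 * (1 / 2 : ℝ) ^ n / (1 - 1 / 2) := this
      _ = 2 * (1 / 2 : ℝ) ^ n := by ring
  have hpow : Tendsto (fun n : ℕ => 2 * (1 / 2 : ℝ) ^ n) atTop (𝓝 0) := by
    have := (tendsto_pow_atTop_nhds_zero_of_lt_one (r := (1 / 2 : ℝ)) (by norm_num)
      (by norm_num)).const_mul 2
    simpa using this
  have hunif : TendstoUniformlyOn s q atTop (ball (0:ℂ) 2) := by
    rw [Metric.tendstoUniformlyOn_iff]
    intro ε hε
    filter_upwards [hpow.eventually (gt_mem_nhds hε)] with n hn v hv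
    rw [dist_comm, dist_eq_norm]
    exact (hrate n v hv).trans_lt hn
  have hqd : DifferentiableOn ℂ q (ball (0:ℂ) 2) :=
    hunif.tendstoLocallyUniformlyOn.differentiableOn (Eventually.of_forall fun n => (hQ n).1)
      isOpen_ball
  have hqQ : QHyp q := by
    refine ⟨hqd, ?_, ?_⟩
    · have h1 := hlim 0 (by simp)
      have h2 : (fun n => s n 0) = fun _ => (0:ℂ) := funext fun n => (hQ n).2.1
      rw [h2] at h1
      exact (tendsto_nhds_unique h1 tendsto_const_nhds)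
    · intro v hv
      exact le_of_tendsto (hlim v hv).norm (Eventually.of_forall fun n => (hQ n).2.2 v hv)
  refine ⟨q, hqQ, fun v hv => ?_⟩
  have h1 : ∀ n, ‖T q v - q v‖ ≤ 2 * (2 * (1 / 2 : ℝ) ^ n) := by
    intro n
    have a1 := hc q (s n) hqQ (hQ n) (2 * (1 / 2 : ℝ) ^ n) (fun v hv => by
      rw [norm_sub_rev]; exact hrate n v hv) v hv
    rw [← hs1] at a1
    have a2 := hrate (n + 1) v hv
    have a3 : 0 < (1 / 2 : ℝ) ^ n := by positivity
    calc ‖T q v - q v‖ = ‖(T q v - s (n + 1) v) + (s (n + 1) v - q v)‖ := by ring_nf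
      _ ≤ ‖T q v - s (n + 1) v‖ + ‖s (n + 1) v - q v‖ := norm_add_le _ _
      _ ≤ 2 * (1 / 2 : ℝ) ^ n / 2 + 2 * (1 / 2 : ℝ) ^ (n + 1) := add_le_add a1 a2
      _ = 2 * (1 / 2 : ℝ) ^ n := by ring
      _ ≤ 2 * (2 * (1 / 2 : ℝ) ^ n) := by linarith
  have h2 : Tendsto (fun n : ℕ => 2 * (2 * (1 / 2 : ℝ) ^ n)) atTop (𝓝 0) := by
    simpa using hpow.const_mul 2
  have h3 : ‖T q v - q v‖ ≤ 0 := ge_of_tendsto h2 (Eventually.of_forall h1)
  rw [norm_le_zero_iff] at h3
  exact sub_eq_zero.1 h3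

lemma circle_eq {v : ℂ} (hv : ‖v‖ = 1) : 1 / conj v = v := by
  have h1 : v * conj v = 1 := by
    rw [Complex.mul_conj, Complex.normSq_eq_norm_sq, hv]; simp
  have h2 : conj v ≠ 0 := by
    intro h; rw [h, mul_zero] at h1; exact zero_ne_one h1
  rw [div_eq_iff h2, h1]

lemma circle_mem {v : ℂ} (hv : ‖v‖ = 1) : v ∈ Ann 2 := by
  constructor <;> rw [hv] <;> norm_num

end ModFPB

open ModFPB in
theorem fpb (hL : StmtLAU) (hA : StmtFPA) : StmtFPB := by
  intro C hC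
  obtain ⟨K, hK, G, Hh, hG, hGl⟩ := hL 2 (by norm_num)
  obtain ⟨L, hL0, hF⟩ := hA C hC
  refine ⟨min 1 (1 / (200 * K * L)), by positivity, ?_⟩
  intro e he he0 H hH
  have he1 : e < 1 := he0.trans_le (min_le_left _ _)
  have he2 : e < 1 / (200 * K * L) := he0.trans_le (min_le_right _ _)
  have hsm : 2 * (K * (L * e)) ≤ 1 / 100 := by
    rw [lt_div_iff₀ (by positivity)] at he2
    nlinarith
  obtain ⟨hF1, hF2⟩ := hF e he he1 H hH
  set T : (ℂ → ℂ) → (ℂ → ℂ) := fun q v => -2 * G (NN e H q) v with hT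
  obtain ⟨q, hq, hfix⟩ := fixed T (by
    intro q hq
    obtain ⟨hd, hb⟩ := hF1 q hq
    obtain ⟨g1, -, g3, g4, -⟩ := hG (NN e H q) (L * e) hd hb
    refine ⟨g1.const_mul _, ?_, ?_⟩
    · simp [hT, g3]
    · intro v hv
      have := (g4 v hv).1
      simp only [hT]
      rw [norm_mul, norm_neg, Complex.norm_ofNat]
      linarith) (by
    intro q₁ q₂ h₁ h₂ M hM v hv
    have hM0 : 0 ≤ M := (norm_nonneg _).trans (hM 0 (by simp))
    have := hGl (NN e H q₁) (NN e H q₂) (L * e * M) (hF1 q₁ h₁).1 (hF1 q₂ h₂).1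
      (hF2 q₁ q₂ h₁ h₂ M hM) v hv
    have h3 : T q₁ v - T q₂ v = -2 * (G (NN e H q₁) v - G (NN e H q₂) v) := by
      simp only [hT]; ring
    rw [h3, norm_mul, norm_neg, Complex.norm_ofNat]
    calc 2 * ‖G (NN e H q₁) v - G (NN e H q₂) v‖ ≤ 2 * (K * (L * e * M)) := by linarith
      _ = 2 * (K * (L * e)) * M := by ring
      _ ≤ 1 / 100 * M := mul_le_mul_of_nonneg_right hsm hM0
      _ ≤ M / 2 := by linarith)
  obtain ⟨hd, hb⟩ := hF1 q hq
  obtain ⟨g1, g2, -, -, g5⟩ := hG (NN e H q) (L * e) hd hb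
  refine ⟨q, fun v => 1 / 2 + e / 4 + e ^ 2 * q v / 2 + e ^ 2 * Hh (NN e H q) v, hq, ?_, ?_⟩
  · have h1 : DifferentiableOn ℂ (fun v => (e:ℂ) ^ 2 * q v / 2) (ball 0 2) :=
      (hq.1.const_mul _).div_const _
    have h2 : DifferentiableOn ℂ (fun v => (e:ℂ) ^ 2 * Hh (NN e H q) v) (ball 0 2) :=
      g2.const_mul _
    exact ((differentiableOn_const _).add h1).add h2
  · intro v hv
    have hvm := circle_mem hv
    have hvb : v ∈ ball (0:ℂ) 2 := by rw [mem_ball_zero_iff, hv]; norm_num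
    have hr := circle_eq hv
    have e1 := g5 v hvm
    have e2 := hfix v hvb
    have hec : (e : ℂ) ≠ 0 := by exact_mod_cast he.ne'
    have e3 : G (NN e H q) v = - q v / 2 := by
      have : -2 * G (NN e H q) v = q v := e2
      linear_combination (-1 / 2 : ℂ) * this
    have e4 : rfc (Hh (NN e H q)) v = conj (Hh (NN e H q) v) := by
      unfold rfc; rw [hr]
    have e5 : NN e H q v = EE e (q v + conj (q v)) -
        (H (v * Complex.exp (e * q v)) - conj (H (v * Complex.exp (e * q v)))) / e ^ 2 +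
        (conj (H (v * Complex.exp (e * q v))) - 1 / 4) / e := by
      unfold NN rfc AA
      rw [hr]
    rw [e5, e3, e4] at e1
    set A := H (v * Complex.exp (e * q v)) with hAdef
    set h := Hh (NN e H q) v with hh
    have e6 : conj (EE e (q v + conj (q v))) = EE e (q v + conj (q v)) := by
      have h1 : conj (q v + conj (q v)) = q v + conj (q v) := by
        rw [map_add, Complex.conj_conj, add_comm]
      unfold EE
      rw [map_div₀, map_sub, map_sub, ← Complex.exp_conj, map_mul, map_mul, map_pow, map_one,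
        Complex.conj_ofReal, h1, map_ofNat]
    have e7 := congrArg conj e1
    have c4 : conj (1 / 4 : ℂ) = 1 / 4 := by rw [map_div₀, map_one, map_ofNat]
    have c2 : conj (-q v / 2) = - conj (q v) / 2 := by rw [map_div₀, map_neg, map_ofNat]
    rw [map_add, map_sub, e6, map_div₀, map_div₀, map_sub, map_sub, map_pow, Complex.conj_conj,
      Complex.conj_ofReal, c4, map_add, c2, Complex.conj_conj] at e7
    have e8 : (Real.exp (2 * e ^ 2 * (q v).re) : ℂ) =
        Complex.exp ((e:ℂ) ^ 2 * (q v + conj (q v))) := by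
      rw [Complex.add_conj]
      push_cast
      congr 1
      ring
    have e9 : EE e (q v + conj (q v)) = (Complex.exp ((e:ℂ) ^ 2 * (q v + conj (q v))) - 1 -
      (e:ℂ) ^ 2 * (q v + conj (q v))) / (2 * (e:ℂ) ^ 2) := rfl
    rw [e8]
    rw [e9] at e7
    have e10 : (e:ℂ) ^ 2 * ((Complex.exp ((e:ℂ) ^ 2 * (q v + conj (q v))) - 1 -
      (e:ℂ) ^ 2 * (q v + conj (q v))) / (2 * (e:ℂ) ^ 2) - (conj A - A) / (e:ℂ) ^ 2 +
      (A - 1 / 4) / (e:ℂ)) = (Complex.exp ((e:ℂ) ^ 2 * (q v + conj (q v))) - 1 -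
      (e:ℂ) ^ 2 * (q v + conj (q v))) / 2 - (conj A - A) + e * (A - 1 / 4) := by
      field_simp
    have e11 := congrArg (fun z => (e:ℂ) ^ 2 * z) e7
    rw [e10] at e11
    linear_combination e11

end Pool.Agent.T6.H52.TP
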