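import Pool.Agent.T6.H52.TP.Defs

/-! Module GD: the core is a domain of the form `Dom`. -/

set_option autoImplicit false

open MeasureTheory Set Metric Topology Filter
open scoped ContDiff ComplexConjugate

namespace Pool.Agent.T6.H52.TP

namespace ModGD

/-- the radial derivative from the derivative along the ray -/
theorem radial {ρ : ℂ → ℝ} {z : ℂ} {d : ℝ} (h : DifferentiableAt ℝ ρ z)
    (hd : HasDerivAt (fun s : ℝ => ρ (s • z)) d 1) : fderiv ℝ ρ z z = d := by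
  have h1 : HasFDerivAt ρ (fderiv ℝ ρ z) ((1 : ℝ) • z) := by
    rw [one_smul]; exact h.hasFDerivAt
  have h2 : HasDerivAt (fun s : ℝ => s • z) z 1 := by
    simpa using (hasDerivAt_id (1 : ℝ)).smul_const z
  exact (h1.comp_hasDerivAt 1 h2).unique hd

theorem ee_pos {k : ℕ} (hk : 100 ≤ k) : 0 < ee k := by
  unfold ee
  have : (0 : ℝ) < k := by exact_mod_cast (show 0 < k by omega)
  positivity

theorem ee_le {k : ℕ} (hk : 100 ≤ k) : ee k ≤ 1 / 100 := by
  unfold ee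
  have h : (100 : ℝ) ≤ k := by exact_mod_cast hk
  exact one_div_le_one_div_of_le (by norm_num) h

theorem k_ee {k : ℕ} (hk : 100 ≤ k) : (k : ℝ) * ee k ^ 2 = ee k := by
  unfold ee
  have : (k : ℝ) ≠ 0 := by exact_mod_cast (show k ≠ 0 by omega)
  field_simp

theorem exp_small {e : ℝ} (he : e ≤ 1 / 100) : Real.exp (2 * e) ≤ 11 / 10 := by
  have h1 : Real.exp (2 * e) ≤ Real.exp (1 / 50) := Real.exp_le_exp.mpr (by linarith)
  have h2 := Real.add_one_le_exp (-(1 / 50 : ℝ))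
  have h3 : Real.exp (1 / 50) * Real.exp (-(1 / 50 : ℝ)) = 1 := by
    rw [← Real.exp_add]; simp
  have h4 : 0 < Real.exp (1 / 50) := Real.exp_pos _
  nlinarith

/-- the powers of the points are small -/
theorem pow_small {k : ℕ} (hk : 100 ≤ k) {z : ℂ} (hz : ‖z‖ < Real.exp (2 * ee k ^ 2)) :
    ‖z ^ k‖ < 11 / 10 := by
  rw [norm_pow]
  have h1 : ‖z‖ ^ k < Real.exp (2 * ee k ^ 2) ^ k :=
    pow_lt_pow_left₀ hz (norm_nonneg z) (by omega)
  have h2 : Real.exp (2 * ee k ^ 2) ^ k = Real.exp (2 * ee k) := by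
    rw [← Real.exp_nat_mul]
    congr 1
    have := k_ee hk
    linear_combination 2 * this
  rw [h2] at h1
  exact h1.trans_le (exp_small (ee_le hk))

theorem r_cont {r : ℂ → ℂ} (hr : RSmall r) {x : ℂ} (hx : ‖x‖ < 3 / 2) : ContDiffAt ℝ ∞ r x := by
  have h1 : ContDiffOn ℂ ∞ r (ball 0 (3 / 2)) := hr.1.contDiffOn isOpen_ball
  exact (h1.contDiffAt (isOpen_ball.mem_nhds (mem_ball_zero_iff.mpr hx))).restrict_scalars ℝ

theorem smooth {k : ℕ} {r : ℂ → ℂ} (hk : 100 ≤ k) (hr : RSmall r) {z : ℂ} (hz0 : z ≠ 0)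
    (hz : ‖z‖ < Real.exp (2 * ee k ^ 2)) : ContDiffAt ℝ ∞ (rhoD k r) z := by
  have h1 : ContDiffAt ℝ ∞ (fun z : ℂ => Real.log ‖z‖) z :=
    (contDiffAt_norm ℝ hz0).log (norm_ne_zero_iff.mpr hz0)
  have h2 : ContDiffAt ℝ ∞ (fun z : ℂ => r (z ^ k)) z := by
    have h3 : ContDiffAt ℝ ∞ (fun z : ℂ => z ^ k) z := contDiffAt_id.pow k
    exact (r_cont hr (x := z ^ k) (by linarith [pow_small hk hz])).comp z h3
  have h4 : ContDiffAt ℝ ∞ (fun z : ℂ => (r (z ^ k)).re) z :=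
    Complex.reCLM.contDiff.contDiffAt.comp z h2
  exact h1.sub (contDiffAt_const.mul h4)

theorem deriv_small {r : ℂ → ℂ} (hr : RSmall r) {x : ℂ} (hx : ‖x‖ < 11 / 10) :
    ‖deriv r x‖ ≤ 1 / 25 := by
  have hsub : closedBall x (1 / 4) ⊆ ball (0 : ℂ) (3 / 2) := by
    intro y hy
    rw [mem_closedBall, dist_eq_norm] at hy
    rw [mem_ball_zero_iff]
    have : ‖y‖ ≤ ‖y - x‖ + ‖x‖ := by
      have := norm_add_le (y - x) x
      simpa using this
    linarith
  have h1 : DiffContOnCl ℂ r (ball x (1 / 4)) := by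
    refine DifferentiableOn.diffContOnCl ?_
    rw [closure_ball x (by norm_num)]
    exact hr.1.mono hsub
  have h2 := Complex.norm_deriv_le_of_forall_mem_sphere_norm_le (c := x) (R := 1 / 4)
    (C := 1 / 100) (by norm_num) h1 (fun y hy => hr.2 y (hsub (sphere_subset_closedBall hy)))
  linarith

theorem rad {k : ℕ} {r : ℂ → ℂ} (hk : 100 ≤ k) (hr : RSmall r) {z : ℂ} (hz0 : z ≠ 0)
    (hz : ‖z‖ < Real.exp (2 * ee k ^ 2)) : 0 < fderiv ℝ (rhoD k r) z z := by
  have hx := pow_small hk hz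
  have hd : DifferentiableAt ℝ (rhoD k r) z :=
    (smooth hk hr hz0 hz).differentiableAt (by simp)
  -- the derivative along the ray
  have h1 : HasDerivAt (fun w : ℂ => r ((w * z) ^ k)) (deriv r (z ^ k) * (k * z ^ k))
      ((1 : ℝ) : ℂ) := by
    have a1 : HasDerivAt (fun w : ℂ => (w * z) ^ k) (k * (((1 : ℝ) : ℂ) * z) ^ (k - 1) * (1 * z))
        ((1 : ℝ) : ℂ) := ((hasDerivAt_id (((1 : ℝ) : ℂ))).mul_const z).pow k
    have a2 : (k : ℂ) * (((1 : ℝ) : ℂ) * z) ^ (k - 1) * (1 * z) = k * z ^ k := by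
      rw [Complex.ofReal_one, one_mul, mul_assoc, ← pow_succ, Nat.sub_add_cancel (by omega)]
    rw [a2] at a1
    have a3 : HasDerivAt r (deriv r (z ^ k)) ((((1 : ℝ) : ℂ) * z) ^ k) := by
      rw [Complex.ofReal_one, one_mul]
      have a4 : DifferentiableAt ℂ r (z ^ k) :=
        hr.1.differentiableAt (isOpen_ball.mem_nhds (mem_ball_zero_iff.mpr (by linarith)))
      exact a4.hasDerivAt
    exact a3.comp ((1 : ℝ) : ℂ) a1
  have h2 : HasDerivAt (fun s : ℝ => (r (((s : ℂ) * z) ^ k)).re)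
      (deriv r (z ^ k) * (k * z ^ k)).re 1 := h1.real_of_complex
  have h3 : HasDerivAt (fun s : ℝ => Real.log s + Real.log ‖z‖ -
      ee k ^ 2 * (r (((s : ℂ) * z) ^ k)).re)
      (1⁻¹ - ee k ^ 2 * (deriv r (z ^ k) * (k * z ^ k)).re) 1 :=
    ((Real.hasDerivAt_log one_ne_zero).add_const _).sub (h2.const_mul _)
  have h4 : HasDerivAt (fun s : ℝ => rhoD k r (s • z))
      (1⁻¹ - ee k ^ 2 * (deriv r (z ^ k) * (k * z ^ k)).re) 1 := by
    refine h3.congr_of_eventuallyEq ?_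
    filter_upwards [lt_mem_nhds (show (0 : ℝ) < 1 by norm_num)] with s hs
    unfold rhoD
    rw [norm_smul, Real.norm_of_nonneg hs.le, Real.log_mul hs.ne' (norm_ne_zero_iff.mpr hz0),
      Complex.real_smul]
  rw [radial hd h4]
  have h5 : |(deriv r (z ^ k) * (k * z ^ k)).re| ≤ k * (1 / 25 * (11 / 10)) := by
    refine (Complex.abs_re_le_norm _).trans ?_
    rw [norm_mul, norm_mul, Complex.norm_natCast]
    have b1 := deriv_small hr hx
    have b2 : ‖deriv r (z ^ k)‖ * ‖z ^ k‖ ≤ 1 / 25 * (11 / 10) :=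
      mul_le_mul b1 hx.le (norm_nonneg _) (by norm_num)
    have b3 : (0 : ℝ) ≤ k := Nat.cast_nonneg k
    calc ‖deriv r (z ^ k)‖ * (k * ‖z ^ k‖) = k * (‖deriv r (z ^ k)‖ * ‖z ^ k‖) := by ring
      _ ≤ k * (1 / 25 * (11 / 10)) := mul_le_mul_of_nonneg_left b2 b3
  have h6 := (abs_le.mp h5).2
  have h7 : ee k ^ 2 * (deriv r (z ^ k) * (k * z ^ k)).re ≤
      ee k ^ 2 * (k * (1 / 25 * (11 / 10))) := mul_le_mul_of_nonneg_left h6 (sq_nonneg _)
  have h8 : ee k ^ 2 * (k * (1 / 25 * (11 / 10))) = ee k * (1 / 25 * (11 / 10)) := by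
    have := k_ee hk
    linear_combination (1 / 25 * (11 / 10) : ℝ) * this
  rw [h8] at h7
  have h9 := ee_le hk
  rw [inv_one]
  nlinarith

theorem re_small {r : ℂ → ℂ} (hr : RSmall r) {x : ℂ} (hx : ‖x‖ < 11 / 10) :
    |(r x).re| ≤ 1 / 100 :=
  (Complex.abs_re_le_norm _).trans (hr.2 x (mem_ball_zero_iff.mpr (by linarith)))

end ModGD

open ModGD in
theorem gd : StmtGD := by
  intro k r hk hr
  have he := ee_pos hk
  have he2 : 0 < ee k ^ 2 := by positivity
  refine ⟨Real.exp_pos _, Real.exp_lt_exp.mpr (by linarith), Real.exp_lt_exp.mpr (by linarith),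
    Real.exp_lt_exp.mpr (by linarith), ?_, ?_, ?_, ?_⟩
  · intro z hz
    have hz0 : z ≠ 0 := norm_pos_iff.mp ((Real.exp_pos _).trans hz.1)
    exact (smooth hk hr hz0 hz.2).contDiffWithinAt
  · intro z hz1 hz2
    exact rad hk hr (norm_pos_iff.mp ((Real.exp_pos _).trans hz1)) hz2
  · intro z hz1 hz2
    have hz0 : 0 < ‖z‖ := (Real.exp_pos _).trans hz1
    have hz3 : ‖z‖ < Real.exp (2 * ee k ^ 2) := hz2.trans_lt (Real.exp_lt_exp.mpr (by linarith))
    have h1 := Real.log_le_log hz0 hz2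
    rw [Real.log_exp] at h1
    have h2 := (abs_le.mp (re_small hr (pow_small hk hz3))).1
    unfold rhoD
    nlinarith
  · intro z hz1 hz2
    have h1 := Real.log_le_log (Real.exp_pos _) hz1
    rw [Real.log_exp] at h1
    have h2 := (abs_le.mp (re_small hr (pow_small hk hz2))).2
    unfold rhoD
    nlinarith

end Pool.Agent.T6.H52.TP
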