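import Pool.Agent.T6.H52.TP.Defs

/-! Module GEO: topology and smoothness of star-shaped domains described by a function. -/

set_option autoImplicit false

open MeasureTheory Set Metric Topology Filter
open scoped ContDiff ComplexConjugate

namespace Pool.Agent.T6.H52.TP

namespace ModGEO

variable {r₁ s₁ s₂ r₂ : ℝ} {ρ : ℂ → ℝ}

/-- the annulus -/
def An (r₁ r₂ : ℝ) : Set ℂ := {z | r₁ < ‖z‖ ∧ ‖z‖ < r₂}

theorem An_open (r₁ r₂ : ℝ) : IsOpen (An r₁ r₂) :=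
  (isOpen_lt continuous_const continuous_norm).inter (isOpen_lt continuous_norm continuous_const)

theorem cont (h : GeoHyp r₁ s₁ s₂ r₂ ρ) : ContinuousOn ρ (An r₁ r₂) := h.smooth.continuousOn

theorem diffAt (h : GeoHyp r₁ s₁ s₂ r₂ ρ) {z : ℂ} (hz : z ∈ An r₁ r₂) :
    DifferentiableAt ℝ ρ z :=
  (h.smooth.contDiffAt ((An_open r₁ r₂).mem_nhds hz)).differentiableAt (by simp)

/-- the function is strictly increasing along rays -/
theorem ray (h : GeoHyp r₁ s₁ s₂ r₂ ρ) {z : ℂ} (hz : z ∈ An r₁ r₂) {t : ℝ} (ht0 : 0 < t)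
    (ht1 : t < 1) (htz : r₁ < ‖(t : ℝ) • z‖) : ρ (t • z) < ρ z := by
  have hmem : ∀ s ∈ Icc t 1, s • z ∈ An r₁ r₂ := by
    intro s hs
    rw [norm_smul, Real.norm_of_nonneg ht0.le] at htz
    refine ⟨?_, ?_⟩
    · rw [norm_smul, Real.norm_of_nonneg (ht0.le.trans hs.1)]
      exact htz.trans_le (mul_le_mul_of_nonneg_right hs.1 (norm_nonneg z))
    · rw [norm_smul, Real.norm_of_nonneg (ht0.le.trans hs.1)]
      exact (mul_le_of_le_one_left (norm_nonneg z) hs.2).trans_lt hz.2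
  have hder : ∀ s ∈ Icc t 1, HasDerivAt (fun s : ℝ => ρ (s • z)) (fderiv ℝ ρ (s • z) z) s := by
    intro s hs
    have h1 := (diffAt h (hmem s hs)).hasFDerivAt
    have h2 : HasDerivAt (fun s : ℝ => s • z) z s := by
      simpa using (hasDerivAt_id s).smul_const z
    exact h1.comp_hasDerivAt s h2
  have hmono : StrictMonoOn (fun s : ℝ => ρ (s • z)) (Icc t 1) := by
    apply strictMonoOn_of_deriv_pos (convex_Icc t 1)
    · intro s hs
      exact (hder s hs).continuousAt.continuousWithinAt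
    · intro s hs
      rw [interior_Icc] at hs
      have hs' : s ∈ Icc t 1 := ⟨hs.1.le, hs.2.le⟩
      rw [(hder s hs').deriv]
      have hs0 : 0 < s := ht0.trans hs.1
      have h3 := h.rad (s • z) (hmem s hs').1 (hmem s hs').2
      rw [map_smul, smul_eq_mul] at h3
      exact (pos_iff_pos_of_mul_pos h3).mp hs0
  have := hmono (left_mem_Icc.mpr ht1.le) (right_mem_Icc.mpr ht1.le) ht1
  simpa using this

theorem Dom_eq (h : GeoHyp r₁ s₁ s₂ r₂ ρ) :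
    Dom r₁ s₁ r₂ ρ = {z | ‖z‖ < s₁} ∪ (An r₁ r₂ ∩ ρ ⁻¹' Iio 0) := by
  ext z
  constructor
  · rintro (hz | ⟨h1, h2, h3⟩)
    · rcases lt_or_eq_of_le hz with h1 | h1
      · exact Or.inl h1
      · have h2 : r₁ < ‖z‖ := by rw [h1]; exact h.h1
        exact Or.inr ⟨⟨h2, by rw [h1]; exact h.h2.trans h.h3⟩, h.neg z h2 hz⟩
    · exact Or.inr ⟨⟨h1, h2⟩, h3⟩
  · rintro (hz | ⟨⟨h1, h2⟩, h3⟩)
    · exact Or.inl (le_of_lt hz)
    · exact Or.inr ⟨h1, h2, h3⟩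

theorem Dom_open (h : GeoHyp r₁ s₁ s₂ r₂ ρ) : IsOpen (Dom r₁ s₁ r₂ ρ) := by
  rw [Dom_eq h]
  exact (isOpen_lt continuous_norm continuous_const).union
    ((cont h).isOpen_inter_preimage (An_open r₁ r₂) isOpen_Iio)

theorem Dom_norm (h : GeoHyp r₁ s₁ s₂ r₂ ρ) {z : ℂ} (hz : z ∈ An r₁ r₂) (h0 : ρ z ≤ 0) :
    ‖z‖ < s₂ := by
  by_contra hcon
  push Not at hcon
  exact absurd (h.pos z hcon hz.2) (not_lt.mpr h0)

theorem Dom_conn (h : GeoHyp r₁ s₁ s₂ r₂ ρ) : IsConnected (Dom r₁ s₁ r₂ ρ) := by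
  have hs1 : 0 < s₁ := h.h0.trans h.h1
  have h0 : (0 : ℂ) ∈ Dom r₁ s₁ r₂ ρ := Or.inl (by simpa using hs1.le)
  have hstar : StarConvex ℝ (0 : ℂ) (Dom r₁ s₁ r₂ ρ) := by
    intro y hy a b ha hb hab
    rw [smul_zero, zero_add]
    have hb1 : b ≤ 1 := by linarith
    rcases eq_or_lt_of_le hb with rfl | hb0
    · rw [zero_smul]; exact h0
    rcases eq_or_lt_of_le hb1 with rfl | hb1'
    · rw [one_smul]; exact hy
    have hnorm : ‖b • y‖ = b * ‖y‖ := by rw [norm_smul, Real.norm_of_nonneg hb]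
    by_cases hsm : ‖b • y‖ ≤ s₁
    · exact Or.inl hsm
    · push Not at hsm
      rcases hy with hy | ⟨h1, h2, h3⟩
      · exfalso
        rw [hnorm] at hsm
        have : b * ‖y‖ ≤ ‖y‖ := mul_le_of_le_one_left (norm_nonneg y) hb1
        linarith
      · refine Or.inr ⟨h.h1.trans hsm, ?_, ?_⟩
        · rw [hnorm]
          exact (mul_le_of_le_one_left (norm_nonneg y) hb1).trans_lt h2
        · exact (ray h ⟨h1, h2⟩ hb0 hb1' (h.h1.trans hsm)).trans h3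
  exact (hstar.isPathConnected h0).isConnected

theorem Dom_bdd (h : GeoHyp r₁ s₁ s₂ r₂ ρ) : Bornology.IsBounded (Dom r₁ s₁ r₂ ρ) := by
  refine (isBounded_closedBall (x := (0 : ℂ)) (r := s₂)).subset ?_
  rintro z (hz | ⟨h1, h2, h3⟩)
  · rw [mem_closedBall_zero_iff]
    exact hz.trans h.h2.le
  · rw [mem_closedBall_zero_iff]
    exact (Dom_norm h ⟨h1, h2⟩ h3.le).le

theorem Dom_closure (h : GeoHyp r₁ s₁ s₂ r₂ ρ) : closure (Dom r₁ s₁ r₂ ρ) =
    {z | ‖z‖ ≤ s₁ ∨ (r₁ < ‖z‖ ∧ ‖z‖ < r₂ ∧ ρ z ≤ 0)} := by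
  apply Subset.antisymm
  · apply closure_minimal
    · rintro z (hz | ⟨h1, h2, h3⟩)
      · exact Or.inl hz
      · exact Or.inr ⟨h1, h2, h3.le⟩
    · have e : {z : ℂ | ‖z‖ ≤ s₁ ∨ (r₁ < ‖z‖ ∧ ‖z‖ < r₂ ∧ ρ z ≤ 0)} =
          {z | ‖z‖ ≤ s₁} ∪ ({z : ℂ | s₁ ≤ ‖z‖ ∧ ‖z‖ ≤ s₂} ∩ ρ ⁻¹' Iic 0) := by
        ext z
        constructor
        · rintro (hz | ⟨h1, h2, h3⟩)
          · exact Or.inl hz
          · by_cases hs : ‖z‖ ≤ s₁
            · exact Or.inl hs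
            · push Not at hs
              exact Or.inr ⟨⟨hs.le, (Dom_norm h ⟨h1, h2⟩ h3).le⟩, h3⟩
        · rintro (hz | ⟨⟨h1, h2⟩, h3⟩)
          · exact Or.inl hz
          · exact Or.inr ⟨h.h1.trans_le h1, h2.trans_lt h.h3, h3⟩
      rw [e]
      refine (isClosed_le continuous_norm continuous_const).union ?_
      have hK : IsClosed {z : ℂ | s₁ ≤ ‖z‖ ∧ ‖z‖ ≤ s₂} :=
        (isClosed_le continuous_const continuous_norm).inter
          (isClosed_le continuous_norm continuous_const)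
      refine ContinuousOn.preimage_isClosed_of_isClosed ((cont h).mono ?_) hK isClosed_Iic
      rintro z ⟨h1, h2⟩
      exact ⟨h.h1.trans_le h1, h2.trans_lt h.h3⟩
  · rintro z (hz | ⟨h1, h2, h3⟩)
    · exact subset_closure (Or.inl hz)
    · rcases lt_or_eq_of_le h3 with h4 | h4
      · exact subset_closure (Or.inr ⟨h1, h2, h4⟩)
      · have hz0 : 0 < ‖z‖ := h.h0.trans h1
        have ht0 : r₁ / ‖z‖ < 1 := by rwa [div_lt_one hz0]
        have htp : 0 < r₁ / ‖z‖ := div_pos h.h0 hz0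
        have hcl : (1 : ℝ) ∈ closure (Ioo (r₁ / ‖z‖) 1) := by
          rw [closure_Ioo ht0.ne]
          exact right_mem_Icc.mpr ht0.le
        have hmaps : MapsTo (fun t : ℝ => t • z) (Ioo (r₁ / ‖z‖) 1) (Dom r₁ s₁ r₂ ρ) := by
          intro t ht
          have ht' : 0 < t := htp.trans ht.1
          have hn : ‖t • z‖ = t * ‖z‖ := by rw [norm_smul, Real.norm_of_nonneg ht'.le]
          have h5 : r₁ < ‖t • z‖ := by
            rw [hn]
            exact (div_lt_iff₀ hz0).mp ht.1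
          refine Or.inr ⟨h5, ?_, ?_⟩
          · rw [hn]
            exact (mul_le_of_le_one_left (norm_nonneg z) ht.2.le).trans_lt h2
          · exact (ray h ⟨h1, h2⟩ ht' ht.2 h5).trans_eq h4
        have hc : Continuous (fun t : ℝ => t • z) := continuous_id.smul continuous_const
        have := map_mem_closure hc hcl hmaps
        simpa using this

theorem Dom_frontier (h : GeoHyp r₁ s₁ s₂ r₂ ρ) : frontier (Dom r₁ s₁ r₂ ρ) =
    {z | r₁ < ‖z‖ ∧ ‖z‖ < r₂ ∧ ρ z = 0} := by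
  rw [(Dom_open h).frontier_eq, Dom_closure h]
  ext z
  constructor
  · rintro ⟨hz | ⟨h1, h2, h3⟩, hn⟩
    · exact absurd (Or.inl hz) hn
    · refine ⟨h1, h2, ?_⟩
      rcases lt_or_eq_of_le h3 with h4 | h4
      · exact absurd (Or.inr ⟨h1, h2, h4⟩) hn
      · exact h4
  · rintro ⟨h1, h2, h3⟩
    refine ⟨Or.inr ⟨h1, h2, h3.le⟩, ?_⟩
    rintro (hz | ⟨_, _, h4⟩)
    · exact absurd (h.neg z h1 hz) (by rw [h3]; exact lt_irrefl 0)
    · rw [h3] at h4
      exact lt_irrefl 0 h4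

theorem Dom_def (h : GeoHyp r₁ s₁ s₂ r₂ ρ) {z : ℂ} (h1 : r₁ < ‖z‖) (h2 : ‖z‖ < r₂)
    (h3 : ρ z = 0) : IsLocalDefining (Dom r₁ s₁ r₂ ρ) z ρ := by
  refine ⟨h3, ?_, An r₁ r₂, An_open r₁ r₂, ⟨h1, h2⟩, h.smooth, ?_⟩
  · intro h0
    have := h.rad z h1 h2
    rw [h0] at this
    exact lt_irrefl 0 this
  · rintro y ⟨hy1, hy2⟩
    constructor
    · rintro (hy | ⟨_, _, h4⟩)
      · exact h.neg y hy1 hy
      · exact h4
    · intro h4
      exact Or.inr ⟨hy1, hy2, h4⟩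

end ModGEO

open ModGEO in
theorem geo : StmtGEO := by
  intro r₁ s₁ s₂ r₂ ρ h
  refine ⟨⟨Dom_open h, Dom_conn h, Dom_bdd h, ?_⟩, Dom_frontier h, Dom_closure h,
    fun z h1 h2 h3 => Dom_def h h1 h2 h3⟩
  intro x hx
  rw [Dom_frontier h] at hx
  exact ⟨ρ, Dom_def h hx.1 hx.2.1 hx.2.2⟩

end Pool.Agent.T6.H52.TP
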