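import Pool.Agent.T6.H52.TP.Defs

/-!
# MP_8dfb46_an, module GLUE
-/

set_option autoImplicit false

open MeasureTheory Set Metric Topology Filter
open scoped ContDiff ComplexConjugate

namespace Pool.Agent.T6.H52.TP

theorem glue : StmtGLUE := by
  intro S f C hS hC hloc x hx y hy
  have key : ∀ C' : ℝ, C < C' → |f y - f x| ≤ C' * ‖y - x‖ := by
    intro C' hC'
    set γ : ℝ → ℂ := fun t => x + t • (y - x) with hγ
    have hγS : ∀ t ∈ Icc (0 : ℝ) 1, γ t ∈ S := fun t ht => hS.add_smul_sub_mem hx hy ht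
    have hγc : Continuous γ := by rw [hγ]; fun_prop
    have hγd : ∀ s t, ‖γ s - γ t‖ = |s - t| * ‖y - x‖ := by
      intro s t
      have : γ s - γ t = (s - t) • (y - x) := by
        rw [hγ]; simp only [add_sub_add_left_eq_sub, ← sub_smul]
      rw [this, norm_smul, Real.norm_eq_abs]
    have hfc : ContinuousOn f S := by
      intro z hz
      have h1 := hloc z hz (C + 1) (by linarith)
      have h2 : Tendsto (fun w : ℂ => (C + 1) * ‖w - z‖) (𝓝 z) (𝓝 ((C + 1) * ‖z - z‖)) :=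
        (Continuous.tendsto (by fun_prop) z)
      rw [sub_self, norm_zero, mul_zero] at h2
      have h3 : Tendsto (fun w : ℂ => |f w - f z|) (𝓝[S] z) (𝓝 0) :=
        squeeze_zero' (Eventually.of_forall fun _ => abs_nonneg _) h1
          (h2.mono_left nhdsWithin_le_nhds)
      rw [ContinuousWithinAt, tendsto_iff_dist_tendsto_zero]
      exact h3
    have hhc : ContinuousOn (fun t => f (γ t)) (Icc (0 : ℝ) 1) :=
      hfc.comp hγc.continuousOn hγS
    set s : Set ℝ := {t | |f (γ t) - f (γ 0)| ≤ C' * ‖y - x‖ * t} with hs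
    have hcl : IsClosed (s ∩ Icc 0 1) := by
      have h1 : IsClosed {t ∈ Icc (0 : ℝ) 1 | |f (γ t) - f (γ 0)| ≤ C' * ‖y - x‖ * t} := by
        refine isClosed_Icc.isClosed_le ?_ (by fun_prop)
        exact (hhc.sub continuousOn_const).abs
      have h2 : s ∩ Icc 0 1 = {t ∈ Icc (0 : ℝ) 1 | |f (γ t) - f (γ 0)| ≤ C' * ‖y - x‖ * t} := by
        ext t
        simp only [hs, mem_inter_iff, mem_ofPred_eq, and_comm]
      rw [h2]
      exact h1
    have hsub := hcl.Icc_subset_of_forall_exists_gt (by simp [hs]) (by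
      rintro t ⟨hts, ht0, ht1⟩ b hb
      have hb' : t < b := hb
      have h1 := hloc (γ t) (hγS t ⟨ht0, ht1.le⟩) C' hC'
      have h2 : Tendsto γ (𝓝[>] t) (𝓝[S] (γ t)) := by
        rw [tendsto_nhdsWithin_iff]
        refine ⟨(hγc.tendsto t).mono_left nhdsWithin_le_nhds, ?_⟩
        filter_upwards [Ioo_mem_nhdsGT ht1] with u hu
        exact hγS u ⟨ht0.trans hu.1.le, hu.2.le⟩
      obtain ⟨u, hu1, hu2⟩ := ((h2.eventually h1).and
        (Ioo_mem_nhdsGT (lt_min hb' ht1))).exists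
      refine ⟨u, ?_, hu2.1, (hu2.2.trans_le (min_le_left _ _)).le⟩
      rw [hγd, abs_of_pos (sub_pos.2 hu2.1)] at hu1
      have hts' : |f (γ t) - f (γ 0)| ≤ C' * ‖y - x‖ * t := hts
      show |f (γ u) - f (γ 0)| ≤ C' * ‖y - x‖ * u
      calc |f (γ u) - f (γ 0)| ≤ |f (γ u) - f (γ t)| + |f (γ t) - f (γ 0)| :=
            abs_sub_le _ _ _
        _ ≤ C' * ((u - t) * ‖y - x‖) + C' * ‖y - x‖ * t := add_le_add hu1 hts'
        _ = C' * ‖y - x‖ * u := by ring)
    have h1 : (1 : ℝ) ∈ s := hsub ⟨zero_le_one, le_rfl⟩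
    have h2 : |f (γ 1) - f (γ 0)| ≤ C' * ‖y - x‖ * 1 := h1
    have e1 : γ 1 = y := by simp [hγ]
    have e0 : γ 0 = x := by simp [hγ]
    rw [e1, e0, mul_one] at h2
    exact h2
  by_contra hcon
  push Not at hcon
  have hne : 0 < ‖y - x‖ := by
    rw [norm_pos_iff]
    intro h0
    have : y = x := sub_eq_zero.mp h0
    rw [this] at hcon
    simp at hcon
  have h1 : C < |f y - f x| / ‖y - x‖ := by rw [lt_div_iff₀ hne]; exact hcon
  have h2 := key ((C + |f y - f x| / ‖y - x‖) / 2) (by linarith)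
  have h3 : (C + |f y - f x| / ‖y - x‖) / 2 * ‖y - x‖ < |f y - f x| / ‖y - x‖ * ‖y - x‖ :=
    mul_lt_mul_of_pos_right (by linarith) hne
  rw [div_mul_cancel₀ _ hne.ne'] at h3
  linarith

end Pool.Agent.T6.H52.TP
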