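import Pool.Agent.T6.H52.TP.Gd

/-! Module GO: the outer domain is a domain of the form `Dom`. -/

set_option autoImplicit false

open MeasureTheory Set Metric Topology Filter
open scoped ContDiff ComplexConjugate

namespace Pool.Agent.T6.H52.TP

namespace ModGO

open ModGD

theorem smooth (k : ℕ) {z : ℂ} (hz0 : z ≠ 0) : ContDiffAt ℝ ∞ (rhoO k) z := by
  have h0 : ContDiffAt ℝ ∞ (fun z : ℂ => ‖z‖) z := contDiffAt_norm ℝ hz0
  have h1 : ContDiffAt ℝ ∞ (fun z : ℂ => Real.log ‖z‖) z :=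
    h0.log (norm_ne_zero_iff.mpr hz0)
  have h3 : ContDiffAt ℝ ∞ (fun z : ℂ => z ^ k) z := contDiffAt_id.pow k
  have h4 : ContDiffAt ℝ ∞ (fun z : ℂ => (z ^ k).re) z :=
    Complex.reCLM.contDiff.contDiffAt.comp z h3
  have h5 : ContDiffAt ℝ ∞ (fun z : ℂ => (z ^ k).re / ‖z‖ ^ k) z :=
    h4.div (h0.pow k) (pow_ne_zero _ (norm_ne_zero_iff.mpr hz0))
  exact h1.sub (contDiffAt_const.mul (contDiffAt_const.add (contDiffAt_const.mul h5)))

theorem rad (k : ℕ) {z : ℂ} (hz0 : z ≠ 0) : fderiv ℝ (rhoO k) z z = 1 := by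
  have hd : DifferentiableAt ℝ (rhoO k) z := (smooth k hz0).differentiableAt (by simp)
  have h3 : HasDerivAt (fun s : ℝ => Real.log s + (Real.log ‖z‖ -
      ee k ^ 2 * (3 + 2 * ((z ^ k).re / ‖z‖ ^ k)))) 1⁻¹ 1 :=
    (Real.hasDerivAt_log one_ne_zero).add_const _
  rw [inv_one] at h3
  refine radial hd (h3.congr_of_eventuallyEq ?_)
  filter_upwards [lt_mem_nhds (show (0 : ℝ) < 1 by norm_num)] with s hs
  unfold rhoO
  have hz : ‖z‖ ≠ 0 := norm_ne_zero_iff.mpr hz0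
  have e1 : ((s • z) ^ k).re = s ^ k * (z ^ k).re := by
    rw [smul_pow, Complex.smul_re, smul_eq_mul]
  rw [e1, norm_smul, Real.norm_of_nonneg hs.le, Real.log_mul hs.ne' hz, mul_pow,
    mul_div_mul_left _ _ (pow_ne_zero k hs.ne')]
  ring

theorem quot (k : ℕ) {z : ℂ} (hz0 : z ≠ 0) : |(z ^ k).re / ‖z‖ ^ k| ≤ 1 := by
  have hz : 0 < ‖z‖ ^ k := pow_pos (norm_pos_iff.mpr hz0) k
  rw [abs_div, abs_of_pos hz, div_le_one hz, ← norm_pow]
  exact Complex.abs_re_le_norm _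

end ModGO

open ModGO ModGD in
theorem go : StmtGO := by
  intro k hk
  have he := ee_pos hk
  have he2 : 0 < ee k ^ 2 := by positivity
  have hne : ∀ z : ℂ, 1 < ‖z‖ → z ≠ 0 := fun z hz => norm_pos_iff.mp (one_pos.trans hz)
  refine ⟨one_pos, Real.one_lt_exp_iff.mpr (by linarith), Real.exp_lt_exp.mpr (by linarith),
    Real.exp_lt_exp.mpr (by linarith), ?_, ?_, ?_, ?_⟩
  · intro z hz
    exact (smooth k (hne z hz.1)).contDiffWithinAt
  · intro z hz1 hz2
    rw [rad k (hne z hz1)]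
    exact one_pos
  · intro z hz1 hz2
    have h1 := Real.log_le_log (one_pos.trans hz1) hz2
    rw [Real.log_exp] at h1
    have h2 := (abs_le.mp (quot k (hne z hz1))).1
    unfold rhoO
    nlinarith
  · intro z hz1 hz2
    have h1 := Real.log_le_log (Real.exp_pos _) hz1
    rw [Real.log_exp] at h1
    have hz0 : z ≠ 0 := norm_pos_iff.mp ((Real.exp_pos _).trans_le hz1)
    have h2 := (abs_le.mp (quot k hz0)).2
    unfold rhoO
    nlinarith

end Pool.Agent.T6.H52.TP
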