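import Pool.Agent.T6.H52.TP.Defs

/-!
# Module INV: inversion by iteration
-/

open MeasureTheory Set Metric Topology Filter
open scoped ContDiff ComplexConjugate

namespace Pool.Agent.T6.H52.TP

namespace ModINV

/-- Cauchy estimate: a bounded holomorphic function on the disc of radius `1/4` is Lipschitz on the
disc of radius `1/16`. -/
theorem lip {g : ℂ → ℂ} {C : ℝ} (hg : DifferentiableOn ℂ g (ball 0 (1 / 4)))
    (hb : ∀ y ∈ ball (0 : ℂ) (1 / 4), ‖g y‖ ≤ C) {y y' : ℂ} (hy : ‖y‖ ≤ 1 / 16)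
    (hy' : ‖y'‖ ≤ 1 / 16) : ‖g y - g y'‖ ≤ 8 * C * ‖y - y'‖ := by
  have hsub : ∀ z : ℂ, ‖z‖ ≤ 1 / 16 → closedBall z (1 / 8) ⊆ ball 0 (1 / 4) := by
    intro z hz w hw
    rw [mem_closedBall, dist_eq_norm] at hw
    rw [mem_ball_zero_iff]
    calc ‖w‖ = ‖(w - z) + z‖ := by rw [sub_add_cancel]
      _ ≤ ‖w - z‖ + ‖z‖ := norm_add_le _ _
      _ ≤ 1 / 8 + 1 / 16 := add_le_add hw hz
      _ < 1 / 4 := by norm_num
  refine Convex.norm_image_sub_le_of_norm_deriv_le (s := closedBall (0 : ℂ) (1 / 16)) (𝕜 := ℂ)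
    (fun z hz => ?_) (fun z hz => ?_) (convex_closedBall _ _)
    (by rwa [mem_closedBall_zero_iff]) (by rwa [mem_closedBall_zero_iff])
  · rw [mem_closedBall_zero_iff] at hz
    exact (hg z (hsub z hz (mem_closedBall_self (by norm_num)))).differentiableAt
      (isOpen_ball.mem_nhds (hsub z hz (mem_closedBall_self (by norm_num))))
  · rw [mem_closedBall_zero_iff] at hz
    have h := Complex.norm_deriv_le_of_forall_mem_sphere_norm_le (c := z) (R := 1 / 8) (C := C)
      (f := g) (by norm_num) ((hg.mono ?_).diffContOnCl)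
      (fun w hw => hb w (hsub z hz (sphere_subset_closedBall hw)))
    · calc ‖deriv g z‖ ≤ C / (1 / 8) := h
        _ = 8 * C := by ring
    · rw [closure_ball z (by norm_num)]
      exact hsub z hz

/-- the iteration -/
noncomputable def S (f : ℂ → ℂ) (e : ℝ) : ℕ → ℂ → ℂ
  | 0, _ => 0
  | n + 1, x => f (x * Complex.exp (-(e * S f e n x)))

section
variable {U U' : Set ℂ} {f : ℂ → ℂ} {C e : ℝ}

/-- contraction -/
theorem contr (hU : IsOpen U) (hf : DifferentiableOn ℂ f U) (hb : ∀ x ∈ U, ‖f x‖ ≤ C)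
    (hUU : ∀ x ∈ U', ∀ y : ℂ, ‖y‖ < 1 / 4 → x * Complex.exp y ∈ U) (hC : 0 < C) (he : 0 < e)
    (heC : e * C ≤ 1 / 64) {x : ℂ} (hx : x ∈ U') {y y' : ℂ} (hy : ‖y‖ ≤ C) (hy' : ‖y'‖ ≤ C) :
    ‖f (x * Complex.exp (-(e * y))) - f (x * Complex.exp (-(e * y')))‖ ≤ 1 / 8 * ‖y - y'‖ := by
  have hn : ∀ y : ℂ, ‖y‖ ≤ C → ‖-((e : ℂ) * y)‖ ≤ 1 / 16 := by
    intro y hy
    rw [norm_neg, norm_mul, Complex.norm_real, Real.norm_of_nonneg he.le]
    calc e * ‖y‖ ≤ e * C := mul_le_mul_of_nonneg_left hy he.le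
      _ ≤ 1 / 16 := by linarith
  have hg : DifferentiableOn ℂ (fun w => f (x * Complex.exp w)) (ball 0 (1 / 4)) := by
    intro w hw
    rw [mem_ball_zero_iff] at hw
    have h1 : DifferentiableAt ℂ f (x * Complex.exp w) :=
      (hf _ (hUU x hx w hw)).differentiableAt (hU.mem_nhds (hUU x hx w hw))
    have h2 : DifferentiableAt ℂ (fun w => x * Complex.exp w) w := by fun_prop
    exact (h1.comp w h2).differentiableWithinAt
  have := lip hg (C := C) (fun w hw => hb _ (hUU x hx w (mem_ball_zero_iff.1 hw)))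
    (hn y hy) (hn y' hy')
  calc _ ≤ 8 * C * ‖-((e : ℂ) * y) - -((e : ℂ) * y')‖ := this
    _ = 8 * (e * C) * ‖y - y'‖ := by
        rw [show -((e : ℂ) * y) - -((e : ℂ) * y') = -((e : ℂ) * (y - y')) by ring, norm_neg,
          norm_mul, Complex.norm_real, Real.norm_of_nonneg he.le]
        ring
    _ ≤ 1 / 8 * ‖y - y'‖ := by
        refine mul_le_mul_of_nonneg_right ?_ (norm_nonneg _)
        linarith

theorem mem_U (hUU : ∀ x ∈ U', ∀ y : ℂ, ‖y‖ < 1 / 4 → x * Complex.exp y ∈ U) (he : 0 < e)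
    (heC : e * C ≤ 1 / 64) {x : ℂ} (hx : x ∈ U') {y : ℂ} (hy : ‖y‖ ≤ C) :
    x * Complex.exp (-(e * y)) ∈ U := by
  refine hUU x hx _ ?_
  rw [norm_neg, norm_mul, Complex.norm_real, Real.norm_of_nonneg he.le]
  calc e * ‖y‖ ≤ e * C := mul_le_mul_of_nonneg_left hy he.le
    _ < 1 / 4 := by linarith

theorem S_le (hb : ∀ x ∈ U, ‖f x‖ ≤ C)
    (hUU : ∀ x ∈ U', ∀ y : ℂ, ‖y‖ < 1 / 4 → x * Complex.exp y ∈ U) (hC : 0 < C) (he : 0 < e)
    (heC : e * C ≤ 1 / 64) {x : ℂ} (hx : x ∈ U') (n : ℕ) : ‖S f e n x‖ ≤ C := by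
  induction n with
  | zero => simpa [S] using hC.le
  | succ n ih => exact hb _ (mem_U hUU he heC hx ih)

theorem S_sub (hU : IsOpen U) (hf : DifferentiableOn ℂ f U) (hb : ∀ x ∈ U, ‖f x‖ ≤ C)
    (hUU : ∀ x ∈ U', ∀ y : ℂ, ‖y‖ < 1 / 4 → x * Complex.exp y ∈ U) (hC : 0 < C) (he : 0 < e)
    (heC : e * C ≤ 1 / 64) {x : ℂ} (hx : x ∈ U') (n : ℕ) :
    ‖S f e n x - S f e (n + 1) x‖ ≤ C * (1 / 8) ^ n := by
  induction n with
  | zero =>
    rw [pow_zero, mul_one, show S f e 0 x = 0 from rfl, zero_sub, norm_neg]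
    exact S_le hb hUU hC he heC hx 1
  | succ n ih =>
    have h := contr hU hf hb hUU hC he heC hx (S_le hb hUU hC he heC hx n)
      (S_le hb hUU hC he heC hx (n + 1))
    calc ‖S f e (n + 1) x - S f e (n + 1 + 1) x‖ ≤ 1 / 8 * ‖S f e n x - S f e (n + 1) x‖ := h
      _ ≤ 1 / 8 * (C * (1 / 8) ^ n) := mul_le_mul_of_nonneg_left ih (by norm_num)
      _ = C * (1 / 8) ^ (n + 1) := by ring

theorem S_diff (hU : IsOpen U) (hf : DifferentiableOn ℂ f U) (hb : ∀ x ∈ U, ‖f x‖ ≤ C)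
    (hUU : ∀ x ∈ U', ∀ y : ℂ, ‖y‖ < 1 / 4 → x * Complex.exp y ∈ U) (hC : 0 < C) (he : 0 < e)
    (heC : e * C ≤ 1 / 64) (n : ℕ) : DifferentiableOn ℂ (S f e n) U' := by
  induction n with
  | zero => exact (differentiable_const (0 : ℂ)).differentiableOn
  | succ n ih =>
    have h1 : DifferentiableOn ℂ (fun x => x * Complex.exp (-(e * S f e n x))) U' :=
      differentiableOn_id.mul ((ih.const_mul _).neg.cexp)
    exact hf.comp h1 fun x hx => mem_U hUU he heC hx (S_le hb hUU hC he heC hx n)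

end

end ModINV

open ModINV in
theorem inv : StmtINV := by
  intro U U' f C e hU hU' hf hb hUU hC he heC
  have hlim : ∀ x ∈ U', ∃ a, Tendsto (fun n => S f e n x) atTop (𝓝 a) := by
    intro x hx
    refine cauchySeq_tendsto_of_complete (cauchySeq_of_le_geometric (1 / 8) C (by norm_num) ?_)
    intro n
    rw [dist_eq_norm]
    exact S_sub hU hf hb hUU hC he heC hx n
  choose! s hs using hlim
  have hsb : ∀ x ∈ U', ‖s x‖ ≤ C := fun x hx =>
    le_of_tendsto (hs x hx).norm (Eventually.of_forall fun n => S_le hb hUU hC he heC hx n)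
  have hunif : TendstoUniformlyOn (S f e) s atTop U' := by
    rw [Metric.tendstoUniformlyOn_iff]
    intro ε hε
    have h1 : Tendsto (fun n : ℕ => C * (1 / 8 : ℝ) ^ n / (1 - 1 / 8)) atTop (𝓝 0) := by
      have := (tendsto_pow_atTop_nhds_zero_of_lt_one (r := (1 / 8 : ℝ)) (by norm_num)
        (by norm_num)).const_mul C
      simpa using this.div_const (1 - 1 / 8)
    filter_upwards [h1.eventually (gt_mem_nhds hε)] with n hn x hx
    rw [dist_comm]
    refine lt_of_le_of_lt (dist_le_of_le_geometric_of_tendsto (1 / 8) C (by norm_num) ?_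
      (hs x hx) n) hn
    intro m
    rw [dist_eq_norm]
    exact S_sub hU hf hb hUU hC he heC hx m
  refine ⟨s, ?_, ?_, ?_⟩
  · exact hunif.tendstoLocallyUniformlyOn.differentiableOn
      (Eventually.of_forall fun n => S_diff hU hf hb hUU hC he heC n) hU'
  · intro x hx
    refine ⟨hsb x hx, ?_⟩
    have h1 : Tendsto (fun n => S f e (n + 1) x) atTop (𝓝 (s x)) :=
      (tendsto_add_atTop_iff_nat 1).2 (hs x hx)
    refine tendsto_nhds_unique h1 ?_
    have hm := mem_U hUU he heC hx (hsb x hx)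
    have h2 : ContinuousAt f (x * Complex.exp (-(e * s x))) :=
      ((hf _ hm).differentiableAt (hU.mem_nhds hm)).continuousAt
    have h3 : Tendsto (fun n => x * Complex.exp (-(e * S f e n x))) atTop
        (𝓝 (x * Complex.exp (-(e * s x)))) :=
      (((hs x hx).const_mul _).neg.cexp).const_mul x
    exact h2.tendsto.comp h3
  · intro x hx y hy hyx
    have hm := mem_U hUU he heC hx (hsb x hx)
    have hsx : s x = f (x * Complex.exp (-(e * s x))) := by
      have h1 : Tendsto (fun n => S f e (n + 1) x) atTop (𝓝 (s x)) :=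
        (tendsto_add_atTop_iff_nat 1).2 (hs x hx)
      refine tendsto_nhds_unique h1 ?_
      have h2 : ContinuousAt f (x * Complex.exp (-(e * s x))) :=
        ((hf _ hm).differentiableAt (hU.mem_nhds hm)).continuousAt
      have h3 : Tendsto (fun n => x * Complex.exp (-(e * S f e n x))) atTop
          (𝓝 (x * Complex.exp (-(e * s x)))) :=
        (((hs x hx).const_mul _).neg.cexp).const_mul x
      exact h2.tendsto.comp h3
    have h := contr hU hf hb hUU hC he heC hx (hsb x hx) hy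
    rw [← hsx, ← hyx] at h
    have h0 : ‖s x - y‖ = 0 := by
      have := norm_nonneg (s x - y)
      linarith
    exact sub_eq_zero.1 (norm_eq_zero.1 h0)

end Pool.Agent.T6.H52.TP
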