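import Pool.Agent.T6.H52.TP.Ff
import Pool.Agent.T6.H52.TP.Inv

/-!
# Module HH: the outer potential as a function of `x = z ^ k`
-/

open MeasureTheory Set Metric Topology Filter
open scoped ContDiff ComplexConjugate

namespace Pool.Agent.T6.H52.TP

namespace ModHH

theorem exp_quarter : Real.exp (1 / 4) < 4 / 3 := by
  have h1 : Real.exp (1 / 4) ^ 4 < (4 / 3) ^ 4 := by
    rw [← Real.exp_nat_mul]
    have : ((4 : ℕ) : ℝ) * (1 / 4) = 1 := by norm_num
    rw [this]
    have := Real.exp_one_lt_d9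
    norm_num at this ⊢
    linarith
  exact lt_of_pow_lt_pow_left₀ 4 (by norm_num) h1

theorem isOpen_Ann (R : ℝ) : IsOpen (Ann R) :=
  (isOpen_lt continuous_const continuous_norm).inter (isOpen_lt continuous_norm continuous_const)

theorem mul_exp_mem {x y : ℂ} (hx : x ∈ Ann 3) (hy : ‖y‖ < 1 / 4) : x * Complex.exp y ∈ Ann 4 := by
  have hre := abs_le.1 ((Complex.abs_re_le_norm y).trans hy.le)
  have h1 := exp_quarter
  have h2 : Real.exp y.re ≤ Real.exp (1 / 4) := Real.exp_le_exp.2 hre.2
  have h3 : Real.exp (-(1 / 4)) ≤ Real.exp y.re := Real.exp_le_exp.2 hre.1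
  have h4 : 3 / 4 < Real.exp (-(1 / 4)) := by
    rw [Real.exp_neg, lt_inv_comm₀ (by norm_num) (Real.exp_pos _)]
    norm_num at h1 ⊢
    linarith
  obtain ⟨hx1, hx2⟩ := hx
  have hx0 : 0 < ‖x‖ := lt_trans (by norm_num) hx1
  constructor
  · rw [norm_mul, Complex.norm_exp]
    have : 1 / 3 * (3 / 4) < ‖x‖ * Real.exp y.re :=
      mul_lt_mul'' hx1 (h4.trans_le h3) (by norm_num) (by norm_num)
    linarith
  · rw [norm_mul, Complex.norm_exp]
    have : ‖x‖ * Real.exp y.re < 3 * (4 / 3) :=
      mul_lt_mul'' hx2 (h2.trans_lt h1) hx0.le (Real.exp_pos _).le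
    linarith

theorem inv_mem3 {V : ℂ} (hv : V ∈ Ann 3) : 1 / conj V ∈ Ann 3 := by
  obtain ⟨h1, h2⟩ := hv
  have hv0 : 0 < ‖V‖ := lt_trans (by norm_num) h1
  constructor
  · rw [norm_div, norm_one, RCLike.norm_conj]
    exact one_div_lt_one_div_of_lt hv0 h2
  · rw [norm_div, norm_one, RCLike.norm_conj, div_lt_iff₀ hv0]
    linarith

end ModHH

open ModFF ModINV ModHH in
theorem hh (hF : StmtFF) (hI : StmtINV) : StmtHH := by
  obtain ⟨C1, e1, hC1, he1, hF⟩ := hF
  refine ⟨193 * C1, min e1 (1 / 1000), by positivity, lt_min he1 (by norm_num),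
    fun e he he' => ?_⟩
  have hee1 : e < e1 := he'.trans_le (min_le_left _ _)
  have he3 : e < 1 / 1000 := he'.trans_le (min_le_right _ _)
  obtain ⟨c, hc, F, hF⟩ := hF e he hee1
  obtain ⟨s, hsd, hs, huniq⟩ := hI (Ann 4) (Ann 3) PP 12 e (ModHH.isOpen_Ann 4)
    (ModHH.isOpen_Ann 3)
    (fun V hV => ((PP_diff (ne_zero hV)).differentiableAt).differentiableWithinAt)
    (fun V hV => (PP_le hV).trans (by norm_num))
    (fun x hx y hy => mul_exp_mem hx hy) (by norm_num) he (by linarith)
  set V : ℂ → ℂ := fun x => x * Complex.exp (-(e * s x)) with hV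
  have hsn : ∀ x ∈ Ann 3, ‖-((e : ℂ) * s x)‖ ≤ 12 * e := by
    intro x hx
    rw [norm_neg, norm_mul, Complex.norm_real, Real.norm_of_nonneg he.le]
    have := mul_le_mul_of_nonneg_left (hs x hx).1 he.le
    linarith
  have hVmem : ∀ x ∈ Ann 3, V x ∈ Ann 4 := fun x hx =>
    mul_exp_mem hx ((hsn x hx).trans_lt (by linarith))
  have hVd : DifferentiableOn ℂ V (Ann 3) :=
    differentiableOn_id.mul ((hsd.const_mul _).neg.cexp)
  -- comparison of `H` and `F`
  have hcmp : ∀ x ∈ Ann 3, ‖F (V x) - F x‖ ≤ 96 * C1 * e ^ 3 := by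
    intro x hx
    have hg : DifferentiableOn ℂ (fun w => F (x * Complex.exp w) - 1 / 4) (ball 0 (1 / 4)) := by
      intro w hw
      rw [mem_ball_zero_iff] at hw
      have hm := mul_exp_mem hx hw
      have h1 : DifferentiableAt ℂ F (x * Complex.exp w) :=
        (hF.diff _ hm).differentiableAt ((ModHH.isOpen_Ann 4).mem_nhds hm)
      have h2 : DifferentiableAt ℂ (fun w => x * Complex.exp w) w := by fun_prop
      exact ((h1.comp w h2).sub_const _).differentiableWithinAt
    have h := lip hg (C := C1 * e ^ 2)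
      (fun w hw => hF.small _ (mul_exp_mem hx (mem_ball_zero_iff.1 hw)))
      (y := -((e : ℂ) * s x)) (y' := 0) ((hsn x hx).trans (by linarith)) (by norm_num)
    simp only [Complex.exp_zero, mul_one, sub_zero, sub_sub_sub_cancel_right] at h
    calc ‖F (V x) - F x‖ ≤ 8 * (C1 * e ^ 2) * ‖-((e : ℂ) * s x)‖ := h
      _ ≤ 8 * (C1 * e ^ 2) * (12 * e) :=
          mul_le_mul_of_nonneg_left (hsn x hx) (by positivity)
      _ = 96 * C1 * e ^ 3 := by ring
  -- the circle
  have hcirc : ∀ t : ℝ, ‖Complex.exp (t * Complex.I)‖ = 1 := Complex.norm_exp_ofReal_mul_I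
  have hre : ∀ t : ℝ, (Complex.exp (t * Complex.I)).re = Real.cos t :=
    Complex.exp_ofReal_mul_I_re
  have him : ∀ t : ℝ, (Complex.exp (t * Complex.I)).im = Real.sin t :=
    Complex.exp_ofReal_mul_I_im
  have hxx : ∀ t : ℝ, xx e t ∈ Ann 3 := by
    intro t
    have h1 : ‖xx e t‖ = Real.exp (e * (3 + 2 * Real.cos t)) := by
      unfold xx
      rw [Complex.norm_exp, Complex.add_re, Complex.ofReal_re, Complex.re_ofReal_mul, Complex.I_re,
        mul_zero, add_zero]
    have hc1 := Real.neg_one_le_cos t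
    have hc2 := Real.cos_le_one t
    have h2 : 0 ≤ e * (3 + 2 * Real.cos t) := mul_nonneg he.le (by linarith)
    have h3 : e * (3 + 2 * Real.cos t) ≤ 1 := by nlinarith
    have h4 := Real.exp_one_lt_d9
    have h5 : Real.exp (e * (3 + 2 * Real.cos t)) ≤ Real.exp 1 := Real.exp_le_exp.2 h3
    have h6 : 1 ≤ Real.exp (e * (3 + 2 * Real.cos t)) := Real.one_le_exp h2
    constructor
    · rw [h1]; linarith
    · rw [h1]
      norm_num at h4
      linarith
  have hxe : ∀ t : ℝ, xx e t * Complex.exp (-(e * ((3 + 2 * Real.cos t : ℝ) : ℂ))) =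
      Complex.exp (t * Complex.I) := by
    intro t
    unfold xx
    rw [← Complex.exp_add]
    congr 1
    push_cast
    ring
  have hsx : ∀ t : ℝ, s (xx e t) = ((3 + 2 * Real.cos t : ℝ) : ℂ) := by
    intro t
    refine huniq _ (hxx t) _ ?_ ?_
    · rw [Complex.norm_real, Real.norm_eq_abs, abs_le]
      have hc1 := Real.neg_one_le_cos t
      have hc2 := Real.cos_le_one t
      constructor <;> linarith
    · rw [hxe t, PP_circle (hcirc t), hre]
  have hVx : ∀ t : ℝ, V (xx e t) = Complex.exp (t * Complex.I) := by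
    intro t
    rw [hV]
    simp only
    rw [hsx t, hxe t]
  refine ⟨c, hc, fun x => F (V x), ?_⟩
  constructor
  · exact hF.diff.comp hVd fun x hx => hVmem x hx
  · intro x hx
    refine (hF.small _ (hVmem x hx)).trans ?_
    exact mul_le_mul_of_nonneg_right (by linarith) (by positivity)
  · intro x hx
    have h1 := hcmp x hx
    have h2 := hcmp _ (inv_mem3 hx)
    have hx4 : x ∈ Ann 4 := ⟨lt_trans (by norm_num) hx.1, hx.2.trans (by norm_num)⟩
    have h3 := hF.asym x hx4
    have e1 : F (V x) - rfc (fun x => F (V x)) x = (F (V x) - F x) + (F x - rfc F x) -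
        conj (F (V (1 / conj x)) - F (1 / conj x)) := by
      simp only [rfc, map_sub]
      ring
    rw [e1]
    calc _ ≤ ‖(F (V x) - F x) + (F x - rfc F x)‖ +
          ‖conj (F (V (1 / conj x)) - F (1 / conj x))‖ := norm_sub_le _ _
      _ ≤ (‖F (V x) - F x‖ + ‖F x - rfc F x‖) +
          ‖conj (F (V (1 / conj x)) - F (1 / conj x))‖ := add_le_add (norm_add_le _ _) le_rfl
      _ ≤ (96 * C1 * e ^ 3 + C1 * e ^ 3) + 96 * C1 * e ^ 3 := by
          refine add_le_add (add_le_add h1 h3) ?_
          rw [RCLike.norm_conj]; exact h2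
      _ = 193 * C1 * e ^ 3 := by ring
  · intro t
    rw [hVx t, hF.re _ (hcirc t), hre]
  · intro t
    have hx := hxx t
    set x := xx e t with hxdef
    have hx0 : x ≠ 0 := by
      intro h
      have := hx.1
      rw [h, norm_zero] at this
      norm_num at this
    have hnx : Ann 3 ∈ 𝓝 x := (ModHH.isOpen_Ann 3).mem_nhds hx
    have hs' : HasDerivAt s (deriv s x) x := ((hsd x hx).differentiableAt hnx).hasDerivAt
    have hV' : HasDerivAt V (1 * Complex.exp (-(e * s x)) +
        x * (Complex.exp (-(e * s x)) * (-(e * deriv s x)))) x :=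
      (hasDerivAt_id x).mul ((hs'.const_mul (e : ℂ)).neg.cexp)
    set V' := 1 * Complex.exp (-(e * s x)) +
        x * (Complex.exp (-(e * s x)) * (-(e * deriv s x))) with hV'def
    have hVm := hVmem x hx
    have hV0 := ne_zero hVm
    have hs2 : HasDerivAt s ((1 + -((V x) ^ 2)⁻¹) * V') x := by
      have h1 := (PP_diff hV0).comp x hV'
      refine h1.congr_of_eventuallyEq ?_
      filter_upwards [hnx] with y hy
      exact (hs y hy).2
    have hds : deriv s x = (1 + -((V x) ^ 2)⁻¹) * V' := hs2.deriv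
    have hxV' : x * V' = V x * (1 - e * (x * deriv s x)) := by
      rw [hV'def, hV]
      ring
    have hxs : x * deriv s x = QQ (V x) * (1 - e * (x * deriv s x)) := by
      calc x * deriv s x = (1 + -((V x) ^ 2)⁻¹) * (x * V') := by rw [hds]; ring
        _ = V x * (1 + -((V x) ^ 2)⁻¹) * (1 - e * (x * deriv s x)) := by rw [hxV']; ring
        _ = _ := by rw [mul_PP' hV0]
    have hVt : V x = Complex.exp (t * Complex.I) := hVx t
    have hQ : QQ (V x) = 2 * (Real.sin t : ℂ) * Complex.I := by
      rw [hVt, QQ_circle (hcirc t), him]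
    set w := 1 - e * (x * deriv s x) with hw
    set D : ℂ := 1 + 2 * e * Real.sin t * Complex.I with hD
    have hwD : w * D = 1 := by
      have h1 : w = 1 - e * (QQ (V x) * w) := by
        conv_lhs => rw [hw, hxs]
      rw [hQ] at h1
      rw [hD]
      linear_combination h1
    have hD0 : D ≠ 0 := by
      intro h; rw [h, mul_zero] at hwD; exact zero_ne_one hwD
    have hw1 : w = 1 / D := by
      rw [eq_div_iff hD0, hwD]
    have hH' : HasDerivAt (fun x => F (V x)) (deriv F (V x) * V') x := by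
      have h1 : HasDerivAt F (deriv F (V x)) (V x) :=
        ((hF.diff _ hVm).differentiableAt ((ModHH.isOpen_Ann 4).mem_nhds hVm)).hasDerivAt
      exact h1.comp x hV'
    rw [hH'.deriv]
    have h5 : x * (deriv F (V x) * V') = (V x * deriv F (V x)) * w := by
      calc x * (deriv F (V x) * V') = deriv F (V x) * (x * V') := by ring
        _ = _ := by rw [hxV']; ring
    have h6 := hF.der (V x) (by rw [hVt]; exact hcirc t)
    have hre' : (V x).re = Real.cos t := by rw [hVt, hre]
    have him' : (V x).im = Real.sin t := by rw [hVt, him]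
    rw [hre', him'] at h6
    rw [h5, h6, hw1]
    field_simp
    rw [hD]
    ring

end Pool.Agent.T6.H52.TP
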