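import Pool.Agent.T6.H52.TP.Ff

/-!
# Module KB: properties of the function `K`
-/

open MeasureTheory Set Metric Topology Filter
open scoped ContDiff ComplexConjugate

namespace Pool.Agent.T6.H52.TP

namespace ModKB

open ModFF

theorem QQ_le {V : ℂ} (hV : V ∈ Ann 4) : ‖QQ V‖ ≤ 8 := by
  have h1 : ‖V‖ ≤ 4 := hV.2.le
  have h2 : ‖V⁻¹‖ ≤ 4 := by
    rw [norm_inv]
    have h0 : (0 : ℝ) < ‖V‖ := lt_trans (by norm_num) hV.1
    rw [inv_le_comm₀ h0 (by norm_num)]
    have := hV.1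
    norm_num at this ⊢
    linarith
  calc ‖QQ V‖ ≤ ‖V‖ + ‖V⁻¹‖ := norm_sub_le _ _
    _ ≤ 8 := by linarith

theorem z_le {e : ℝ} (he : 0 < e) {V : ℂ} (hV : V ∈ Ann 4) :
    ‖-((e * QQ V) ^ 2)‖ ≤ 64 * e ^ 2 := by
  rw [norm_neg, norm_pow, norm_mul, Complex.norm_real, Real.norm_of_nonneg he.le]
  have h := QQ_le hV
  have h0 := norm_nonneg (QQ V)
  calc (e * ‖QQ V‖) ^ 2 ≤ (e * 8) ^ 2 :=
        pow_le_pow_left₀ (by positivity) (mul_le_mul_of_nonneg_left h he.le) 2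
    _ = 64 * e ^ 2 := by ring

theorem JJ_le {e : ℝ} (he : 0 < e) (he' : e ≤ 1 / 100) {V : ℂ} (hV : V ∈ Ann 4) :
    ‖JJ e V - 1‖ ≤ 96 * e ^ 2 := by
  have h1 := z_le he hV
  have he2 : e ^ 2 ≤ 1 / 10000 := by nlinarith
  have h2 : ‖-((e * QQ V) ^ 2)‖ ≤ 1 / 2 := h1.trans (by linarith)
  have h3 := Complex.norm_log_one_add_half_le_self h2
  have h4 : ‖Complex.log (1 - (e * QQ V) ^ 2) / 2‖ ≤ 48 * e ^ 2 := by
    rw [norm_div, sub_eq_add_neg]
    simp only [Complex.norm_ofNat]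
    linarith
  calc ‖JJ e V - 1‖ ≤ 2 * ‖Complex.log (1 - (e * QQ V) ^ 2) / 2‖ :=
        Complex.norm_exp_sub_one_le (h4.trans (by linarith))
    _ ≤ 96 * e ^ 2 := by linarith

/-- `exp(e²P)` -/
noncomputable def Y (e : ℝ) (V : ℂ) : ℂ := Complex.exp (e ^ 2 * PP V)

theorem Y_le {e : ℝ} (he : 0 < e) (he' : e ≤ 1 / 100) {V : ℂ} (hV : V ∈ Ann 4) :
    ‖Y e V - 1‖ ≤ 22 * e ^ 2 := by
  have he2 : e ^ 2 ≤ 1 / 10000 := by nlinarith
  have h1 : ‖(e : ℂ) ^ 2 * PP V‖ ≤ 11 * e ^ 2 := by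
    rw [norm_mul, norm_pow, Complex.norm_real, Real.norm_of_nonneg he.le]
    have := PP_le hV
    nlinarith [sq_nonneg e]
  calc ‖Y e V - 1‖ ≤ 2 * ‖(e : ℂ) ^ 2 * PP V‖ := Complex.norm_exp_sub_one_le (h1.trans (by linarith))
    _ ≤ 22 * e ^ 2 := by linarith

theorem YJ_le {e : ℝ} (he : 0 < e) (he' : e ≤ 1 / 100) {V : ℂ} (hV : V ∈ Ann 4) :
    ‖Y e V * JJ e V - 1‖ ≤ 214 * e ^ 2 := by
  have he2 : e ^ 2 ≤ 1 / 10000 := by nlinarith
  have h1 := JJ_le he he' hV
  have h2 := Y_le he he' hV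
  have h3 : ‖Y e V‖ ≤ 2 := by
    calc ‖Y e V‖ = ‖(Y e V - 1) + 1‖ := by rw [sub_add_cancel]
      _ ≤ ‖Y e V - 1‖ + ‖(1 : ℂ)‖ := norm_add_le _ _
      _ ≤ 22 * e ^ 2 + 1 := by rw [norm_one]; linarith
      _ ≤ 2 := by linarith
  calc ‖Y e V * JJ e V - 1‖ = ‖Y e V * (JJ e V - 1) + (Y e V - 1)‖ := by ring_nf
    _ ≤ ‖Y e V * (JJ e V - 1)‖ + ‖Y e V - 1‖ := norm_add_le _ _
    _ ≤ 2 * (96 * e ^ 2) + 22 * e ^ 2 := by
        refine add_le_add ?_ h2
        rw [norm_mul]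
        exact mul_le_mul h3 h1 (norm_nonneg _) (by norm_num)
    _ = 214 * e ^ 2 := by ring

theorem slit {e : ℝ} (he : 0 < e) (he' : e ≤ 1 / 100) {V : ℂ} (hV : V ∈ Ann 4) :
    1 - (e * QQ V) ^ 2 ∈ Complex.slitPlane := by
  have he2 : e ^ 2 ≤ 1 / 10000 := by nlinarith
  rw [sub_eq_add_neg]
  exact Complex.mem_slitPlane_of_norm_lt_one ((z_le he hV).trans_lt (by linarith))

theorem conj_QQ (V : ℂ) : conj (QQ (1 / conj V)) = -QQ V := by
  unfold QQ
  simp only [map_sub, map_inv₀, Complex.conj_conj, one_div, inv_inv]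
  ring

theorem rfc_JJ {e : ℝ} (he : 0 < e) (he' : e ≤ 1 / 100) {V : ℂ} (hV : V ∈ Ann 4) :
    conj (JJ e (1 / conj V)) = JJ e V := by
  unfold JJ
  rw [← Complex.exp_conj]
  congr 1
  rw [map_div₀, show (starRingEnd ℂ) (2 : ℂ) = 2 from Complex.conj_ofNat 2]
  congr 1
  have h1 := slit he he' (inv_mem hV)
  rw [← Complex.log_conj _ (Complex.slitPlane_arg_ne_pi h1)]
  congr 1
  simp only [map_sub, map_one, map_pow, map_mul, Complex.conj_ofReal]
  rw [conj_QQ]
  ring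

theorem rfc_Y (e : ℝ) (V : ℂ) : conj (Y e (1 / conj V)) = Y e V := by
  unfold Y
  rw [← Complex.exp_conj]
  congr 1
  rw [map_mul, conj_PP]
  congr 1
  simp only [map_pow, Complex.conj_ofReal]

theorem Y_circle {e : ℝ} {V : ℂ} (hV : ‖V‖ = 1) :
    Y e V = ((Real.exp (e ^ 2 * (3 + 2 * V.re)) : ℝ) : ℂ) := by
  unfold Y
  rw [PP_circle hV]
  push_cast
  ring_nf

theorem JJ_circle {e : ℝ} {V : ℂ} (hV : ‖V‖ = 1) :
    JJ e V = ((Real.sqrt (1 + 4 * e ^ 2 * V.im ^ 2) : ℝ) : ℂ) := by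
  have hpos : 0 < 1 + 4 * e ^ 2 * V.im ^ 2 := by positivity
  have e1 : 1 - ((e : ℂ) * QQ V) ^ 2 = ((1 + 4 * e ^ 2 * V.im ^ 2 : ℝ) : ℂ) := by
    rw [QQ_circle hV]
    push_cast
    ring_nf
    rw [Complex.I_sq]
    ring
  unfold JJ
  rw [e1, ← Complex.ofReal_log hpos.le, Real.sqrt_eq_rpow, Real.rpow_def_of_pos hpos]
  push_cast
  congr 1
  ring

theorem KK_circle {e c : ℝ} {V : ℂ} (hV : ‖V‖ = 1) :
    KK e c V = ((rA e V.re - c * rB e V.re V.im : ℝ) : ℂ) := by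
  have h1 : Complex.exp (2 * e ^ 2 * PP V) = ((2 * rA e V.re : ℝ) : ℂ) := X_circle hV
  have h2 : Complex.exp (e ^ 2 * PP V) = _ := Y_circle (e := e) hV
  unfold KK
  rw [h1, h2, JJ_circle hV]
  unfold rB
  push_cast
  ring

end ModKB

open ModFF ModKB in
theorem kb : StmtKB := by
  refine ⟨300, 1 / 100, by norm_num, by norm_num, fun e he he1 => ?_⟩
  have he' : e ≤ 1 / 100 := he1.le
  have he2 : e ^ 2 ≤ 1 / 10000 := by nlinarith
  have hcirc : ∀ t : ℝ, ‖Complex.exp (t * Complex.I)‖ = 1 := Complex.norm_exp_ofReal_mul_I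
  have hre : ∀ t : ℝ, (Complex.exp (t * Complex.I)).re = Real.cos t :=
    Complex.exp_ofReal_mul_I_re
  have him : ∀ t : ℝ, (Complex.exp (t * Complex.I)).im = Real.sin t :=
    Complex.exp_ofReal_mul_I_im
  -- the two real functions
  have hA : ∀ t : ℝ, |rA e (Real.cos t) - 1 / 2| ≤ 22 * e ^ 2 := by
    intro t
    have h1 := X_le he he' (circle_mem (hcirc t))
    rw [X_circle (hcirc t), hre, ← Complex.ofReal_one, ← Complex.ofReal_sub, Complex.norm_real,
      Real.norm_eq_abs] at h1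
    have h2 : rA e (Real.cos t) - 1 / 2 = (2 * rA e (Real.cos t) - 1) / 2 := by ring
    rw [h2, abs_div, abs_two]
    linarith
  have hB : ∀ t : ℝ, |rB e (Real.cos t) (Real.sin t) - 1| ≤ 214 * e ^ 2 := by
    intro t
    have h1 := YJ_le he he' (circle_mem (hcirc t))
    rw [Y_circle (hcirc t), JJ_circle (hcirc t), hre, him, ← Complex.ofReal_one,
      ← Complex.ofReal_mul, ← Complex.ofReal_sub, Complex.norm_real, Real.norm_eq_abs] at h1
    exact h1
  have hAc : Continuous fun t : ℝ => rA e (Real.cos t) := by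
    unfold rA; fun_prop
  have hBc : Continuous fun t : ℝ => rB e (Real.cos t) (Real.sin t) := by
    unfold rB; fun_prop
  set IA := ∫ t in (0:ℝ)..2 * Real.pi, rA e (Real.cos t) with hIA
  set IB := ∫ t in (0:ℝ)..2 * Real.pi, rB e (Real.cos t) (Real.sin t) with hIB
  have hpi := Real.pi_pos
  have hIA' : |IA - Real.pi| ≤ 22 * e ^ 2 * (2 * Real.pi) := by
    have h1 : IA - Real.pi = ∫ t in (0:ℝ)..2 * Real.pi, (rA e (Real.cos t) - 1 / 2) := by
      rw [intervalIntegral.integral_sub (hAc.intervalIntegrable _ _)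
        (by simp), intervalIntegral.integral_const, ← hIA]
      simp only [smul_eq_mul]
      ring
    rw [h1]
    have h2 := intervalIntegral.norm_integral_le_of_norm_le_const (a := 0) (b := 2 * Real.pi)
      (C := 22 * e ^ 2) (f := fun t => rA e (Real.cos t) - 1 / 2) (fun t _ => hA t)
    rw [sub_zero, abs_of_pos (by positivity : (0 : ℝ) < 2 * Real.pi)] at h2
    exact h2
  have hIB' : |IB - 2 * Real.pi| ≤ 214 * e ^ 2 * (2 * Real.pi) := by
    have h1 : IB - 2 * Real.pi =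
        ∫ t in (0:ℝ)..2 * Real.pi, (rB e (Real.cos t) (Real.sin t) - 1) := by
      rw [intervalIntegral.integral_sub (hBc.intervalIntegrable _ _)
        (by simp), intervalIntegral.integral_const, ← hIB]
      simp only [smul_eq_mul]
      ring
    rw [h1]
    have h2 := intervalIntegral.norm_integral_le_of_norm_le_const (a := 0) (b := 2 * Real.pi)
      (C := 214 * e ^ 2) (f := fun t => rB e (Real.cos t) (Real.sin t) - 1) (fun t _ => hB t)
    rw [sub_zero, abs_of_pos (by positivity : (0 : ℝ) < 2 * Real.pi)] at h2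
    exact h2
  rw [abs_le] at hIA' hIB'
  have hIApos : 0 < IA := by nlinarith
  have hIBpos : 0 < IB := by nlinarith
  have hIB2 : Real.pi * (978 / 500) ≤ IB := by nlinarith
  have hc : 0 < IA / IB := by positivity
  have hc2 : |IA / IB - 1 / 2| ≤ 140 * e ^ 2 := by
    have h1 : IA / IB - 1 / 2 = ((IA - Real.pi) - (IB - 2 * Real.pi) / 2) / IB := by
      field_simp
      ring
    rw [h1, abs_div, abs_of_pos hIBpos, div_le_iff₀ hIBpos, abs_le]
    constructor <;> nlinarith [mul_nonneg (sq_nonneg e) hpi.le]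
  refine ⟨IA / IB, hc, ?_, ?_, ?_, ?_, fun V hV => KK_circle hV⟩
  · intro V hV
    have hV0 := ne_zero hV
    have hPd : DifferentiableAt ℂ PP V := (PP_diff hV0).differentiableAt
    have hQd : DifferentiableAt ℂ QQ V := differentiableAt_id.sub (differentiableAt_inv hV0)
    have hJ : DifferentiableAt ℂ (JJ e) V := by
      unfold JJ
      have h1 : DifferentiableAt ℂ (fun V => 1 - (e * QQ V) ^ 2) V :=
        ((hQd.const_mul _).pow 2).const_sub 1
      exact ((h1.clog (slit he he' hV)).div_const 2).cexp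
    have h2 : DifferentiableAt ℂ (KK e (IA / IB)) V := by
      unfold KK
      exact (((hPd.const_mul _).cexp).div_const 2).sub
        ((((hPd.const_mul _).cexp).mul hJ).const_mul _)
    exact h2.differentiableWithinAt
  · intro V hV
    have h1 := X_le he he' hV
    have h2 := YJ_le he he' hV
    have h3 : ‖Y e V * JJ e V‖ ≤ 2 := by
      calc ‖Y e V * JJ e V‖ = ‖(Y e V * JJ e V - 1) + 1‖ := by rw [sub_add_cancel]
        _ ≤ ‖Y e V * JJ e V - 1‖ + ‖(1 : ℂ)‖ := norm_add_le _ _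
        _ ≤ 214 * e ^ 2 + 1 := by rw [norm_one]; linarith
        _ ≤ 2 := by linarith
    have h4 : ‖((IA / IB - 1 / 2 : ℝ) : ℂ)‖ ≤ 140 * e ^ 2 := by
      rw [Complex.norm_real, Real.norm_eq_abs]; exact hc2
    have h5 : KK e (IA / IB) V = (X e V - 1) / 2 - ((IA / IB - 1 / 2 : ℝ) : ℂ) * (Y e V * JJ e V)
        - (Y e V * JJ e V - 1) / 2 := by
      unfold KK X Y
      push_cast
      ring
    rw [h5]
    calc _ ≤ ‖(X e V - 1) / 2 - ((IA / IB - 1 / 2 : ℝ) : ℂ) * (Y e V * JJ e V)‖ +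
          ‖(Y e V * JJ e V - 1) / 2‖ := norm_sub_le _ _
      _ ≤ (‖(X e V - 1) / 2‖ + ‖((IA / IB - 1 / 2 : ℝ) : ℂ) * (Y e V * JJ e V)‖) +
          ‖(Y e V * JJ e V - 1) / 2‖ := add_le_add (norm_sub_le _ _) le_rfl
      _ ≤ (22 * e ^ 2 + 140 * e ^ 2 * ‖Y e V * JJ e V‖) + 107 * e ^ 2 := by
          refine add_le_add (add_le_add ?_ ?_) ?_
          · rw [norm_div]
            simp only [Complex.norm_ofNat]
            linarith
          · rw [norm_mul]
            exact mul_le_mul_of_nonneg_right h4 (norm_nonneg _)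
          · rw [norm_div]
            simp only [Complex.norm_ofNat]
            linarith
      _ ≤ 300 * e ^ 2 := by
          have h6 : ‖Y e V * JJ e V‖ ≤ 1 + 214 * e ^ 2 := by
            calc ‖Y e V * JJ e V‖ = ‖(Y e V * JJ e V - 1) + 1‖ := by rw [sub_add_cancel]
              _ ≤ ‖Y e V * JJ e V - 1‖ + ‖(1 : ℂ)‖ := norm_add_le _ _
              _ ≤ 1 + 214 * e ^ 2 := by rw [norm_one]; linarith
          have h7 : ‖Y e V * JJ e V‖ ≤ 11 / 10 := by linarith
          have h8 : 140 * e ^ 2 * ‖Y e V * JJ e V‖ ≤ 140 * e ^ 2 * (11 / 10) :=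
            mul_le_mul_of_nonneg_left h7 (by positivity)
          nlinarith [sq_nonneg e]
  · intro V hV
    have h1 := rfc_X e V
    have h2 := rfc_Y e V
    have h3 := rfc_JJ he he' hV
    unfold X at h1
    unfold Y at h2
    simp only [rfc, KK, map_sub, map_div₀, map_mul, Complex.conj_ofReal] at h1 h2 h3 ⊢
    rw [show (starRingEnd ℂ) (2 : ℂ) = 2 from Complex.conj_ofNat 2]
    rw [h1, h2, h3]
  · have h1 : ∀ t : ℝ, KK e (IA / IB) (Complex.exp (t * Complex.I)) =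
        ((rA e (Real.cos t) - IA / IB * rB e (Real.cos t) (Real.sin t) : ℝ) : ℂ) := by
      intro t
      rw [KK_circle (hcirc t), hre, him]
    simp only [h1]
    rw [intervalIntegral.integral_ofReal, intervalIntegral.integral_sub
      (hAc.intervalIntegrable _ _) ((hBc.const_mul _).intervalIntegrable _ _),
      intervalIntegral.integral_const_mul, ← hIA, ← hIB, div_mul_cancel₀ _ hIBpos.ne', sub_self]
    simp

end Pool.Agent.T6.H52.TP
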