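import Pool.Agent.T6.H52.TP.Defs

/-! LAU: Laurent splitting of a bounded holomorphic function on `Ann R`. -/

open MeasureTheory Set Metric Topology Filter
open scoped ContDiff ComplexConjugate Real

namespace Pool.Agent.T6.H52.TP

namespace ModLAU

/-- Cauchy integral over `|t| = a`. -/
noncomputable def P (a : ℝ) (f : ℂ → ℂ) (v : ℂ) : ℂ :=
  (2 * π * Complex.I : ℂ)⁻¹ • ∮ z in C(0, a), (z - v)⁻¹ • f z

noncomputable def A (a : ℝ) (f : ℂ → ℂ) (v : ℂ) : ℂ := P a f v - P a f 0

lemma P_diff {a : ℝ} (ha : 0 < a) {f : ℂ → ℂ} (hf : ContinuousOn f (sphere 0 a)) :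
    DifferentiableOn ℂ (P a f) (ball 0 a) := by
  lift a to NNReal using ha.le
  have h := hasFPowerSeriesOn_cauchy_integral (R := a) (c := 0) (f := f)
    (hf.circleIntegrable ha.le) (by exact_mod_cast ha)
  have h2 := h.differentiableOn
  rw [Metric.eball_coe] at h2
  exact h2

lemma A_diff {a : ℝ} (ha : 0 < a) {f : ℂ → ℂ} (hf : ContinuousOn f (sphere 0 a)) :
    DifferentiableOn ℂ (A a f) (ball 0 a) := (P_diff ha hf).sub_const _

lemma sub_ne {a : ℝ} {v z : ℂ} (hv : ‖v‖ ≠ a) (hz : z ∈ sphere (0 : ℂ) a) : z - v ≠ 0 := by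
  intro h
  rw [sub_eq_zero] at h
  subst h
  exact hv (by simpa using hz)

lemma cont_ker {a : ℝ} {f : ℂ → ℂ} (hf : ContinuousOn f (sphere 0 a)) {v : ℂ} (hv : ‖v‖ ≠ a) :
    ContinuousOn (fun z => (z - v)⁻¹ • f z) (sphere 0 a) := by
  refine ContinuousOn.smul (ContinuousOn.inv₀ (by fun_prop) fun z hz => sub_ne hv hz) hf

lemma P_bound {a M : ℝ} (ha : 1 < a) {f : ℂ → ℂ} (hf : ∀ t : ℂ, ‖t‖ = a → ‖f t‖ ≤ M) {v : ℂ}
    (hv : ‖v‖ ≤ 1) : ‖P a f v‖ ≤ a / (a - 1) * M := by
  have hM : 0 ≤ M := by
    have := hf (a : ℂ) (by simp [abs_of_pos (zero_lt_one.trans ha)])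
    exact (norm_nonneg _).trans this
  have h := circleIntegral.norm_two_pi_i_inv_smul_integral_le_of_norm_le_const (c := 0) (R := a)
    (f := fun z => (z - v)⁻¹ • f z) (C := M / (a - 1)) (by linarith) (fun z hz => by
      have hz' : ‖z‖ = a := by simpa using hz
      rw [norm_smul, norm_inv]
      have h1 : a - 1 ≤ ‖z - v‖ := by
        have := norm_sub_norm_le z v
        linarith
      have h2 : ‖z - v‖⁻¹ ≤ (a - 1)⁻¹ := inv_anti₀ (by linarith) h1
      calc ‖z - v‖⁻¹ * ‖f z‖ ≤ (a - 1)⁻¹ * M :=
            mul_le_mul h2 (hf z hz') (norm_nonneg _) (by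
              have : 0 < a - 1 := by linarith
              positivity)
        _ = M / (a - 1) := by ring)
  unfold P
  refine h.trans (le_of_eq ?_)
  ring

lemma P_sub {a : ℝ} (ha : 0 < a) {f g : ℂ → ℂ} (hf : ContinuousOn f (sphere 0 a))
    (hg : ContinuousOn g (sphere 0 a)) {v : ℂ} (hv : ‖v‖ ≠ a) :
    P a (fun z => f z - g z) v = P a f v - P a g v := by
  unfold P
  rw [← smul_sub, ← circleIntegral.integral_sub ((cont_ker hf hv).circleIntegrable ha.le)
    ((cont_ker hg hv).circleIntegrable ha.le)]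
  congr 2
  funext z
  rw [smul_sub]

/-! ### reflection -/

lemma norm_inv_conj (v : ℂ) : ‖1 / conj v‖ = 1 / ‖v‖ := by simp

lemma rfc_rfc (f : ℂ → ℂ) : rfc (rfc f) = f := by
  funext v
  simp [rfc]

lemma rfc_diff {f : ℂ → ℂ} {v : ℂ} (hv : v ≠ 0) (hf : DifferentiableAt ℂ f (1 / conj v)) :
    DifferentiableAt ℂ (rfc f) v := by
  have h : rfc f = fun v => (conj ∘ f ∘ conj) (v⁻¹) := by
    funext w
    simp [rfc]
  rw [h]
  have h1 : DifferentiableAt ℂ (conj ∘ f ∘ conj) v⁻¹ := by
    rw [differentiableAt_conj_conj_iff]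
    simpa using hf
  exact h1.comp v (differentiableAt_inv hv)

lemma ann_ne {R : ℝ} (hR : 1 < R) {v : ℂ} (hv : v ∈ Ann R) : v ≠ 0 := by
  rintro rfl
  have h := hv.1
  rw [norm_zero] at h
  have : 0 < 1 / R := by positivity
  linarith

lemma ann_inv {R : ℝ} (hR : 1 < R) {v : ℂ} (hv : v ∈ Ann R) : 1 / conj v ∈ Ann R := by
  have h0 : 0 < ‖v‖ := norm_pos_iff.2 (ann_ne hR hv)
  have hR0 : 0 < R := by linarith
  refine ⟨?_, ?_⟩
  · rw [norm_inv_conj]
    exact one_div_lt_one_div_of_lt h0 hv.2
  · rw [norm_inv_conj]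
    have h := one_div_lt_one_div_of_lt (by positivity) hv.1
    simpa using h

lemma ann_open (R : ℝ) : IsOpen (Ann R) :=
  (isOpen_lt continuous_const continuous_norm).inter (isOpen_lt continuous_norm continuous_const)

lemma rfc_diffOn {R : ℝ} (hR : 1 < R) {f : ℂ → ℂ} (hf : DifferentiableOn ℂ f (Ann R)) :
    DifferentiableOn ℂ (rfc f) (Ann R) := fun _ hv =>
  (rfc_diff (ann_ne hR hv)
    (hf.differentiableAt ((ann_open R).mem_nhds (ann_inv hR hv)))).differentiableWithinAt

lemma sphere_sub {R a : ℝ} (h0 : 1 / R < a) (h1 : a < R) : sphere (0 : ℂ) a ⊆ Ann R := by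
  intro z hz
  have hz' : ‖z‖ = a := by simpa using hz
  exact ⟨by rw [hz']; exact h0, by rw [hz']; exact h1⟩

/-! ### the reflected Cauchy integral -/

lemma conj_interval (F : ℝ → ℂ) :
    conj (∫ θ in (0:ℝ)..2 * π, F θ) = ∫ θ in (0:ℝ)..2 * π, conj (F θ) := by
  rw [intervalIntegral.integral_of_le Real.two_pi_pos.le,
    intervalIntegral.integral_of_le Real.two_pi_pos.le]
  exact integral_conj.symm

lemma refl {a : ℝ} (ha : 1 < a) {f : ℂ → ℂ} (hf : ContinuousOn (rfc f) (sphere 0 a)) {v : ℂ}
    (hv : 1 / a < ‖v‖) :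
    rfc (A a (rfc f)) v =
      -((2 * π * Complex.I : ℂ)⁻¹ • ∮ z in C(0, 1 / a), (z - v)⁻¹ • f z) := by
  have ha0 : 0 < a := by linarith
  have hv0 : 0 < ‖v‖ := lt_trans (by positivity) hv
  have hvne : v ≠ 0 := norm_pos_iff.1 hv0
  have hw : ‖1 / conj v‖ ≠ a := by
    rw [norm_inv_conj]
    have h := one_div_lt_one_div_of_lt (by positivity) hv
    rw [one_div_one_div] at h
    exact h.ne
  have hA : A a (rfc f) (1 / conj v) = (2 * π * Complex.I : ℂ)⁻¹ •
      ∮ z in C(0, a), ((z - 1 / conj v)⁻¹ • rfc f z - (z - 0)⁻¹ • rfc f z) := by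
    unfold A P
    rw [← smul_sub, ← circleIntegral.integral_sub ((cont_ker hf hw).circleIntegrable ha0.le)
      ((cont_ker hf (by rw [norm_zero]; exact ha0.ne)).circleIntegrable ha0.le)]
  change conj (A a (rfc f) (1 / conj v)) = _
  rw [hA]
  unfold circleIntegral
  rw [smul_eq_mul, smul_eq_mul, map_mul, conj_interval]
  have hc : conj ((2 * π * Complex.I : ℂ)⁻¹) = -(2 * π * Complex.I : ℂ)⁻¹ := by
    rw [map_inv₀, map_mul, map_mul, Complex.conj_I, Complex.conj_ofReal]
    have : conj (2 : ℂ) = 2 := Complex.conj_ofNat 2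
    rw [this, mul_neg, inv_neg]
  rw [hc, neg_mul]
  congr 2
  apply intervalIntegral.integral_congr
  intro θ _
  simp only [deriv_circleMap, smul_eq_mul]
  -- `t = a e^{iθ}`, `s = a⁻¹ e^{iθ}`
  have hE : Complex.exp (θ * Complex.I) ≠ 0 := Complex.exp_ne_zero _
  have haC : (a : ℂ) ≠ 0 := by exact_mod_cast ha0.ne'
  have hs : circleMap 0 (1 / a) θ = (a : ℂ)⁻¹ * Complex.exp (θ * Complex.I) := by
    simp [circleMap]
  have ht : conj (circleMap 0 a θ) = (circleMap 0 (1 / a) θ)⁻¹ := by
    rw [hs]
    simp only [circleMap, zero_add, map_mul, Complex.conj_ofReal, mul_inv, inv_inv]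
    rw [← Complex.exp_conj, map_mul, Complex.conj_I, Complex.conj_ofReal, mul_neg, Complex.exp_neg]
  have hs0 : circleMap 0 (1 / a) θ ≠ 0 := by
    rw [hs]; exact mul_ne_zero (inv_ne_zero haC) hE
  have hsn : ‖circleMap 0 (1 / a) θ‖ = 1 / a := by
    rw [norm_circleMap_zero, abs_of_pos (by positivity)]
  have hsv : circleMap 0 (1 / a) θ - v ≠ 0 := by
    intro h
    rw [sub_eq_zero] at h
    rw [h] at hsn
    linarith
  have hts : 1 / conj (circleMap 0 a θ) = circleMap 0 (1 / a) θ := by rw [ht]; simp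
  have hr : rfc f (circleMap 0 a θ) = conj (f (circleMap 0 (1 / a) θ)) := by
    unfold rfc
    rw [hts]
  rw [hr]
  generalize circleMap 0 (1 / a) θ = s at *
  simp only [map_mul, map_sub, map_inv₀, Complex.conj_conj, ht, Complex.conj_I, map_div₀, map_one,
    sub_zero]
  have h1 : s⁻¹ - 1 / v ≠ 0 := by
    rw [← one_div, div_sub_div _ _ hs0 hvne]
    refine div_ne_zero ?_ (mul_ne_zero hs0 hvne)
    intro h
    apply hsv
    linear_combination -h
  have h2 : (s⁻¹ - 1 / v)⁻¹ = s * v / (v - s) := by
    have h3 : v - s ≠ 0 := by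
      intro h; apply hsv; linear_combination -h
    rw [inv_eq_iff_eq_inv, inv_div]
    field_simp
  rw [h2]
  have h3 : v - s ≠ 0 := by
    intro h; apply hsv; linear_combination -h
  field_simp
  ring

/-- Cauchy's formula on the annulus. -/
lemma cauchy {R a : ℝ} (ha : 1 < a) (haR : a < R) {f : ℂ → ℂ}
    (hf : DifferentiableOn ℂ f (Ann R)) {v : ℂ} (hv1 : 1 / a < ‖v‖) (hv2 : ‖v‖ < a) :
    f v = P a f v + rfc (A a (rfc f)) v := by
  have hR : 1 < R := ha.trans haR
  have ha0 : 0 < a := by linarith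
  have hR0 : 0 < R := by linarith
  have h1a : 1 / a < 1 := by rw [div_lt_one ha0]; exact ha
  have hRa : 1 / R < 1 / a := one_div_lt_one_div_of_lt ha0 haR
  have hsa : sphere (0 : ℂ) a ⊆ Ann R := sphere_sub (by linarith) haR
  have hsr : sphere (0 : ℂ) (1 / a) ⊆ Ann R := sphere_sub hRa (by linarith)
  rw [refl ha ((rfc_diffOn hR hf).continuousOn.mono hsa) hv1]
  -- the closed annulus
  have hK : closedBall (0 : ℂ) a \ ball 0 (1 / a) ⊆ Ann R := by
    intro z hz
    have h1 : ‖z‖ ≤ a := by simpa using hz.1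
    have h2 : 1 / a ≤ ‖z‖ := by simpa using hz.2
    exact ⟨by linarith, by linarith⟩
  have hvR : v ∈ Ann R := ⟨by linarith, by linarith⟩
  have hfv : DifferentiableAt ℂ f v := hf.differentiableAt ((ann_open R).mem_nhds hvR)
  have hKn : closedBall (0 : ℂ) a \ ball 0 (1 / a) ∈ 𝓝 v := by
    have ho : IsOpen {z : ℂ | 1 / a < ‖z‖ ∧ ‖z‖ < a} :=
      (isOpen_lt continuous_const continuous_norm).inter
        (isOpen_lt continuous_norm continuous_const)
    refine mem_of_superset (ho.mem_nhds ⟨hv1, hv2⟩) ?_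
    intro z hz
    refine ⟨by simpa using hz.2.le, by simpa using hz.1.le⟩
  have hcont : ContinuousOn (dslope f v) (closedBall (0 : ℂ) a \ ball 0 (1 / a)) :=
    (continuousOn_dslope hKn).2 ⟨hf.continuousOn.mono hK, hfv⟩
  have hmain := Complex.circleIntegral_eq_of_differentiable_on_annulus_off_countable
    (c := (0 : ℂ)) (r := 1 / a) (R := a) (by positivity) (by linarith) (f := dslope f v)
    (s := {v}) (countable_singleton v) hcont (fun z hz => by
      have hzv : z ≠ v := by simpa using hz.2
      rw [differentiableAt_dslope_of_ne hzv]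
      refine hf.differentiableAt ((ann_open R).mem_nhds (hK ⟨?_, ?_⟩))
      · exact ball_subset_closedBall hz.1.1
      · intro h
        exact hz.1.2 (ball_subset_closedBall h))
  have key : ∀ b : ℝ, 0 ≤ b → ‖v‖ ≠ b → sphere (0 : ℂ) b ⊆ Ann R →
      (∮ z in C(0, b), dslope f v z) =
        (∮ z in C(0, b), (z - v)⁻¹ • f z) - (∮ z in C(0, b), (z - v)⁻¹) * f v := by
    intro b hb hvb hsb
    have c1 : CircleIntegrable (fun z => (z - v)⁻¹ • f z) 0 b :=
      (cont_ker (hf.continuousOn.mono hsb) hvb).circleIntegrable hb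
    have c2 : CircleIntegrable (fun z => (z - v)⁻¹ • f v) 0 b :=
      (cont_ker (f := fun _ => f v) continuousOn_const hvb).circleIntegrable hb
    have : (∮ z in C(0, b), dslope f v z) =
        ∮ z in C(0, b), ((z - v)⁻¹ • f z - (z - v)⁻¹ • f v) := by
      apply circleIntegral.integral_congr hb
      intro z hz
      have hzv : z ≠ v := fun h => sub_ne hvb hz (sub_eq_zero.2 h)
      simp only
      rw [dslope_of_ne _ hzv, slope_def_module, smul_sub]
    rw [this, circleIntegral.integral_sub c1 c2, circleIntegral.integral_smul_const, smul_eq_mul]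
  rw [key a ha0.le hv2.ne hsa, key (1 / a) (by positivity) hv1.ne' hsr,
    circleIntegral.integral_sub_inv_of_mem_ball (by simpa using hv2)] at hmain
  have hz : (∮ z in C(0, 1 / a), (z - v)⁻¹) = 0 := by
    apply Complex.circleIntegral_eq_zero_of_differentiable_on_off_countable (by positivity)
      countable_empty
    · refine ContinuousOn.inv₀ (by fun_prop) fun z hz h => ?_
      rw [sub_eq_zero] at h
      subst h
      have : ‖z‖ ≤ 1 / a := by simpa using hz
      linarith
    · intro z hz
      have hz' : ‖z‖ < 1 / a := by simpa using hz.1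
      refine DifferentiableAt.inv (by fun_prop) fun h => ?_
      rw [sub_eq_zero] at h
      subst h
      linarith
  rw [hz, zero_mul, sub_zero] at hmain
  unfold P
  rw [← sub_eq_add_neg, ← smul_sub]
  have hpi : (2 * π * Complex.I : ℂ) ≠ 0 := Complex.two_pi_I_ne_zero
  rw [← hmain, sub_sub_cancel, smul_eq_mul, inv_mul_cancel_left₀ hpi]

open Classical in
/-- the part holomorphic inside, vanishing at `0` -/
noncomputable def G (a : ℝ) (f : ℂ → ℂ) (v : ℂ) : ℂ :=
  if ‖v‖ ≤ 1 then A a f v else f v - P a f 0 - rfc (A a (rfc f)) v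

open Classical in
/-- the part holomorphic outside, reflected -/
noncomputable def Hh (a : ℝ) (f : ℂ → ℂ) (w : ℂ) : ℂ :=
  if ‖w‖ ≤ 1 then conj (P a f 0) + A a (rfc f) w else rfc (fun v => f v - A a f v) w

end ModLAU

open ModLAU in
theorem lau : StmtLAU := by
  intro R hR
  set a : ℝ := (1 + R) / 2 with ha_def
  have ha : 1 < a := by rw [ha_def]; linarith
  have haR : a < R := by rw [ha_def]; linarith
  have ha0 : 0 < a := by linarith
  have hR0 : 0 < R := by linarith
  have h1a : 1 / a < 1 := by rw [div_lt_one ha0]; exact ha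
  have hRa : 1 / R < 1 / a := one_div_lt_one_div_of_lt ha0 haR
  have hsa : sphere (0 : ℂ) a ⊆ Ann R := sphere_sub (by linarith) haR
  have hq : 0 < a / (a - 1) := div_pos ha0 (by linarith)
  have main : ∀ (f : ℂ → ℂ) (M : ℝ), DifferentiableOn ℂ f (Ann R) → (∀ v ∈ Ann R, ‖f v‖ ≤ M) →
     DifferentiableOn ℂ (G a f) (ball 0 R) ∧ DifferentiableOn ℂ (Hh a f) (ball 0 R) ∧
     G a f 0 = 0 ∧
     (∀ v ∈ ball (0:ℂ) R, ‖G a f v‖ ≤ (1 + 3 * (a / (a - 1))) * M ∧
        ‖Hh a f v‖ ≤ (1 + 3 * (a / (a - 1))) * M) ∧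
     ∀ v ∈ Ann R, f v = G a f v + rfc (Hh a f) v := by
    intro f M hf hM
    have hf' := rfc_diffOn hR hf
    have hfc : ContinuousOn f (sphere 0 a) := hf.continuousOn.mono hsa
    have hfc' : ContinuousOn (rfc f) (sphere 0 a) := hf'.continuousOn.mono hsa
    have hM' : ∀ v ∈ Ann R, ‖rfc f v‖ ≤ M := by
      intro v hv
      have : ‖rfc f v‖ = ‖f (1 / conj v)‖ := by
        unfold rfc
        exact RCLike.norm_conj _
      rw [this]
      exact hM _ (ann_inv hR hv)
    have hM0 : 0 ≤ M := (norm_nonneg _).trans (hM (1 : ℂ) ⟨by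
      rw [norm_one, div_lt_one hR0]; exact hR, by rw [norm_one]; exact hR⟩)
    have hA := A_diff ha0 hfc
    have hA' := A_diff ha0 hfc'
    have bP : ∀ v : ℂ, ‖v‖ ≤ 1 → ‖P a f v‖ ≤ a / (a - 1) * M := fun v hv =>
      P_bound ha (fun t ht => hM t (hsa (by simpa using ht))) hv
    have bP' : ∀ v : ℂ, ‖v‖ ≤ 1 → ‖P a (rfc f) v‖ ≤ a / (a - 1) * M := fun v hv =>
      P_bound ha (fun t ht => hM' t (hsa (by simpa using ht))) hv
    have bA : ∀ v : ℂ, ‖v‖ ≤ 1 → ‖A a f v‖ ≤ 2 * (a / (a - 1)) * M := fun v hv => by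
      unfold A
      have h1 := norm_sub_le (P a f v) (P a f 0)
      have h2 := bP v hv
      have h3 := bP 0 (by simp)
      linarith
    have bA' : ∀ v : ℂ, ‖v‖ ≤ 1 → ‖A a (rfc f) v‖ ≤ 2 * (a / (a - 1)) * M := fun v hv => by
      unfold A
      have h1 := norm_sub_le (P a (rfc f) v) (P a (rfc f) 0)
      have h2 := bP' v hv
      have h3 := bP' 0 (by simp)
      linarith
    -- the two descriptions agree
    have gA : ∀ v ∈ ball (0 : ℂ) a, G a f v = A a f v := by
      intro v hv
      unfold G
      split_ifs with h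
      · rfl
      · push Not at h
        have hc := cauchy ha haR hf (v := v) (by linarith) (by simpa using hv)
        unfold A at hc ⊢
        rw [hc]
        ring
    have hAA : ∀ w ∈ ball (0 : ℂ) a, Hh a f w = conj (P a f 0) + A a (rfc f) w := by
      intro w hw
      unfold Hh
      split_ifs with h
      · rfl
      · push Not at h
        have hw' : ‖w‖ < a := by simpa using hw
        have hw0 : 0 < ‖w‖ := by linarith
        have hc := cauchy ha haR hf (v := 1 / conj w)
          (by rw [norm_inv_conj]; exact one_div_lt_one_div_of_lt hw0 hw')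
          (by rw [norm_inv_conj]
              exact ((one_div_lt_one_div_of_lt zero_lt_one h).trans_eq (by norm_num)).trans ha)
        have e1 : rfc (A a (rfc f)) (1 / conj w) = conj (A a (rfc f) w) := by
          unfold rfc
          simp
        rw [e1] at hc
        change conj (f (1 / conj w) - A a f (1 / conj w)) = _
        have e2 : f (1 / conj w) - A a f (1 / conj w) = P a f 0 + conj (A a (rfc f) w) := by
          rw [hc]
          unfold A
          ring
        rw [e2, map_add, Complex.conj_conj]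
    have hout : IsOpen {z : ℂ | 1 < ‖z‖ ∧ ‖z‖ < R} :=
      (isOpen_lt continuous_const continuous_norm).inter
        (isOpen_lt continuous_norm continuous_const)
    have houtR : {z : ℂ | 1 < ‖z‖ ∧ ‖z‖ < R} ⊆ Ann R := fun z hz =>
      ⟨lt_trans (by rw [div_lt_one hR0]; exact hR) hz.1, hz.2⟩
    refine ⟨?_, ?_, ?_, ?_, ?_⟩
    · intro v hv
      have hv' : ‖v‖ < R := by simpa using hv
      apply DifferentiableAt.differentiableWithinAt
      by_cases h : ‖v‖ < a
      · have : DifferentiableAt ℂ (A a f) v := hA.differentiableAt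
          (isOpen_ball.mem_nhds (by simpa using h))
        refine this.congr_of_eventuallyEq ?_
        filter_upwards [isOpen_ball.mem_nhds (show v ∈ ball (0 : ℂ) a by simpa using h)] with z hz
        exact gA z hz
      · push Not at h
        have hvo : v ∈ {z : ℂ | 1 < ‖z‖ ∧ ‖z‖ < R} := ⟨by linarith, hv'⟩
        have d1 : DifferentiableAt ℂ f v := hf.differentiableAt
          ((ann_open R).mem_nhds (houtR hvo))
        have d2 : DifferentiableAt ℂ (rfc (A a (rfc f))) v := by
          refine rfc_diff (ann_ne hR (houtR hvo)) (hA'.differentiableAt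
            (isOpen_ball.mem_nhds ?_))
          have : ‖1 / conj v‖ < a := by
            rw [norm_inv_conj]
            exact ((one_div_lt_one_div_of_lt zero_lt_one hvo.1).trans_eq (by norm_num)).trans ha
          simpa using this
        refine ((d1.sub_const (P a f 0)).sub d2).congr_of_eventuallyEq ?_
        filter_upwards [hout.mem_nhds hvo] with z hz
        unfold G
        rw [if_neg (not_le.2 hz.1)]
        rfl
    · intro v hv
      have hv' : ‖v‖ < R := by simpa using hv
      apply DifferentiableAt.differentiableWithinAt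
      by_cases h : ‖v‖ < a
      · have : DifferentiableAt ℂ (fun w => conj (P a f 0) + A a (rfc f) w) v :=
          (hA'.differentiableAt (isOpen_ball.mem_nhds (by simpa using h))).const_add _
        refine this.congr_of_eventuallyEq ?_
        filter_upwards [isOpen_ball.mem_nhds (show v ∈ ball (0 : ℂ) a by simpa using h)] with z hz
        exact hAA z hz
      · push Not at h
        have hvo : v ∈ {z : ℂ | 1 < ‖z‖ ∧ ‖z‖ < R} := ⟨by linarith, hv'⟩
        have hi : ‖1 / conj v‖ < 1 := by
          rw [norm_inv_conj]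
          exact (one_div_lt_one_div_of_lt zero_lt_one hvo.1).trans_eq (by norm_num)
        have d1 : DifferentiableAt ℂ f (1 / conj v) := hf.differentiableAt
          ((ann_open R).mem_nhds (ann_inv hR (houtR hvo)))
        have d2 : DifferentiableAt ℂ (A a f) (1 / conj v) := hA.differentiableAt
          (isOpen_ball.mem_nhds (by simpa using hi.trans ha))
        refine (rfc_diff (ann_ne hR (houtR hvo)) (d1.sub d2)).congr_of_eventuallyEq ?_
        filter_upwards [hout.mem_nhds hvo] with z hz
        unfold Hh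
        rw [if_neg (not_le.2 hz.1)]
        rfl
    · unfold G A
      rw [if_pos (by simp)]
      ring
    · intro v hv
      have hv' : ‖v‖ < R := by simpa using hv
      have hq1 : 0 ≤ a / (a - 1) * M := mul_nonneg hq.le hM0
      constructor
      · unfold G
        split_ifs with h
        · have := bA v h
          linarith
        · push Not at h
          have hvR : v ∈ Ann R := houtR ⟨h, hv'⟩
          have hi : ‖1 / conj v‖ ≤ 1 := by
            rw [norm_inv_conj]
            exact ((one_div_lt_one_div_of_lt zero_lt_one h).trans_eq (by norm_num)).le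
          have h1 := hM v hvR
          have h2 := bP 0 (by simp)
          have h3 : ‖rfc (A a (rfc f)) v‖ ≤ 2 * (a / (a - 1)) * M := by
            have : ‖rfc (A a (rfc f)) v‖ = ‖A a (rfc f) (1 / conj v)‖ := RCLike.norm_conj _
            rw [this]
            exact bA' _ hi
          have h4 := norm_sub_le (f v - P a f 0) (rfc (A a (rfc f)) v)
          have h5 := norm_sub_le (f v) (P a f 0)
          linarith
      · unfold Hh
        split_ifs with h
        · have h1 := norm_add_le (conj (P a f 0)) (A a (rfc f) v)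
          have h2 : ‖conj (P a f 0)‖ = ‖P a f 0‖ := RCLike.norm_conj _
          have h3 := bP 0 (by simp)
          have h4 := bA' v h
          linarith
        · push Not at h
          have hvR : v ∈ Ann R := houtR ⟨h, hv'⟩
          have hi : ‖1 / conj v‖ ≤ 1 := by
            rw [norm_inv_conj]
            exact ((one_div_lt_one_div_of_lt zero_lt_one h).trans_eq (by norm_num)).le
          have e : ‖rfc (fun v => f v - A a f v) v‖ =
              ‖f (1 / conj v) - A a f (1 / conj v)‖ := RCLike.norm_conj _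
          rw [e]
          have h1 := norm_sub_le (f (1 / conj v)) (A a f (1 / conj v))
          have h2 := hM _ (ann_inv hR hvR)
          have h3 := bA _ hi
          linarith
    · intro v hv
      have hv0 : v ≠ 0 := ann_ne hR hv
      have hvp : 0 < ‖v‖ := norm_pos_iff.2 hv0
      change f v = G a f v + conj (Hh a f (1 / conj v))
      have hn : ‖1 / conj v‖ = 1 / ‖v‖ := norm_inv_conj v
      by_cases h1 : ‖v‖ < 1
      · have hw : ¬ ‖1 / conj v‖ ≤ 1 := by
          rw [hn, not_le]
          rw [lt_div_iff₀ hvp]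
          linarith
        unfold G Hh
        rw [if_pos h1.le, if_neg hw]
        have e : conj (rfc (fun v => f v - A a f v) (1 / conj v)) = f v - A a f v := by
          unfold rfc
          simp
        rw [e]
        ring
      · push Not at h1
        have hw : ‖1 / conj v‖ ≤ 1 := by
          rw [hn, div_le_one hvp]
          exact h1
        have e : conj (A a (rfc f) (1 / conj v)) = rfc (A a (rfc f)) v := rfl
        unfold Hh
        rw [if_pos hw, map_add, Complex.conj_conj, e]
        unfold G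
        split_ifs with h2
        · have hc := cauchy ha haR hf (v := v) (by linarith) (by linarith)
          unfold A at hc ⊢
          rw [hc]
          ring
        · ring
  refine ⟨1 + 3 * (a / (a - 1)), by linarith, G a, Hh a, main, ?_⟩
  intro f₁ f₂ M hf₁ hf₂ hM v hv
  have hd : G a f₁ v - G a f₂ v = G a (fun z => f₁ z - f₂ z) v := by
    have c1 : ContinuousOn f₁ (sphere 0 a) := hf₁.continuousOn.mono hsa
    have c2 : ContinuousOn f₂ (sphere 0 a) := hf₂.continuousOn.mono hsa
    have c1' : ContinuousOn (rfc f₁) (sphere 0 a) := (rfc_diffOn hR hf₁).continuousOn.mono hsa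
    have c2' : ContinuousOn (rfc f₂) (sphere 0 a) := (rfc_diffOn hR hf₂).continuousOn.mono hsa
    have h0 : ‖(0 : ℂ)‖ ≠ a := by rw [norm_zero]; exact ha0.ne
    have hAs : ∀ w : ℂ, ‖w‖ ≤ 1 → A a (fun z => f₁ z - f₂ z) w = A a f₁ w - A a f₂ w := by
      intro w hw
      unfold A
      rw [P_sub ha0 c1 c2 (by linarith [hw] : ‖w‖ < a).ne, P_sub ha0 c1 c2 h0]
      ring
    have hrf : rfc (fun z => f₁ z - f₂ z) = fun z => rfc f₁ z - rfc f₂ z := by
      funext z
      simp [rfc]
    have hAs' : ∀ w : ℂ, ‖w‖ ≤ 1 → A a (rfc (fun z => f₁ z - f₂ z)) w =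
        A a (rfc f₁) w - A a (rfc f₂) w := by
      intro w hw
      rw [hrf]
      unfold A
      rw [P_sub ha0 c1' c2' (by linarith [hw] : ‖w‖ < a).ne, P_sub ha0 c1' c2' h0]
      ring
    unfold G
    split_ifs with h
    · rw [hAs v h]
    · push Not at h
      have hi : ‖1 / conj v‖ ≤ 1 := by
        rw [norm_inv_conj]
        exact ((one_div_lt_one_div_of_lt zero_lt_one h).trans_eq (by norm_num)).le
      have e : rfc (A a (rfc (fun z => f₁ z - f₂ z))) v =
          rfc (A a (rfc f₁)) v - rfc (A a (rfc f₂)) v := by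
        change conj _ = conj _ - conj _
        rw [hAs' _ hi, map_sub]
      rw [e, P_sub ha0 c1 c2 h0]
      ring
  rw [hd]
  exact ((main (fun z => f₁ z - f₂ z) M (hf₁.sub hf₂) hM).2.2.2.1 v hv).1

end Pool.Agent.T6.H52.TP
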