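import Pool.Agent.T6.H52.TP.Lu

/-!
# LS: the stream function agrees on the outer domain with a Lipschitz function
-/

set_option autoImplicit false

open MeasureTheory Set Metric Topology Filter
open scoped ContDiff ComplexConjugate

namespace Pool.Agent.T6.H52.TP

open ModLU in
theorem ls (hGeo : StmtGEO) (hGD : StmtGD) (hGO : StmtGO) (hReg : StmtREG)
    (hTR : StmtTR) (hGlue : StmtGLUE) : StmtLS := by
  intro k C₀ c H r G hk hc hH hR
  have F := fct hk hR hGeo hGD hGO
  have he := ee_pos hk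
  have he2 : 0 < ee k ^ 2 := by positivity
  obtain ⟨r1, r2⟩ := hReg k H G hk hH.diff hR.gdiff
  obtain ⟨C₁, hC₁⟩ := bound (f := sI k G)
    (isCompact_closedBall (0 : ℂ) (Real.exp (2 * ee k ^ 2))) (by
      intro z hz
      rw [mem_closedBall_zero_iff] at hz
      exact (r2 z (hz.trans_lt (Real.exp_lt_exp.2 (by linarith)))).2.1)
  obtain ⟨C₂, hC₂⟩ := bound (f := sO k H)
    (cpt (Real.exp (-ee k ^ 2)) (Real.exp (6 * ee k ^ 2))) (by
      rintro z ⟨hz1, hz2⟩
      exact (r1 z ((Real.exp_lt_exp.2 (by linarith)).trans_le hz1)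
        (hz2.trans_lt (Real.exp_lt_exp.2 (by linarith)))).2.1)
  set C := max (max C₁ C₂) 0 with hC
  have hC0 : 0 ≤ C := le_max_right _ _
  have dI : ∀ z ∈ closure (DD k r), DifferentiableAt ℝ (sI k G) z ∧ ‖fderiv ℝ (sI k G) z‖ ≤ C := by
    intro z hz
    have h1 := F.cD z hz
    refine ⟨(r2 z (h1.trans_lt (Real.exp_lt_exp.2 (by linarith)))).2.1.differentiableAt
      (by norm_num), ?_⟩
    exact (hC₁ z (by rw [mem_closedBall_zero_iff]; exact h1)).trans
      ((le_max_left _ _).trans (le_max_left _ _))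
  have dO : ∀ z : ℂ, ‖z‖ ≤ Real.exp (6 * ee k ^ 2) → z ∉ DD k r →
      DifferentiableAt ℝ (sO k H) z ∧ ‖fderiv ℝ (sO k H) z‖ ≤ C := by
    intro z h1 hzD
    have h2 := F.nD z hzD
    refine ⟨(r1 z ((Real.exp_lt_exp.2 (by linarith)).trans_le h2)
        (h1.trans_lt (Real.exp_lt_exp.2 (by linarith)))).2.1.differentiableAt (by norm_num), ?_⟩
    exact (hC₂ z ⟨h2, h1⟩).trans ((le_max_right _ _).trans (le_max_left _ _))
  set S : Set ℂ := closedBall 0 (Real.exp (6 * ee k ^ 2)) with hS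
  have key : ∀ x ∈ S, ∀ C' : ℝ, C < C' →
      ∀ᶠ y in 𝓝[S] x, |ss k H r G y - ss k H r G x| ≤ C' * ‖y - x‖ := by
    intro z hzS C' hC'
    rw [hS, mem_closedBall_zero_iff] at hzS
    have hl : 𝓝[S] z ≤ 𝓝 z := nhdsWithin_le_nhds
    by_cases hD : z ∈ DD k r
    · obtain ⟨a1, a2⟩ := dI z (subset_closure hD)
      have e1 : sI k G z = ss k H r G z := by unfold ss; rw [if_pos hD]
      refine two_fun a1 a1 e1 e1 a2 a2 hl ?_ C' hC'
      have h1 : ∀ᶠ y in 𝓝 z, y ∈ DD k r := F.D_open.mem_nhds hD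
      filter_upwards [hl h1] with y hy
      left
      unfold ss
      rw [if_pos hy]
    obtain ⟨b1, b2⟩ := dO z hzS hD
    have e2 : sO k H z = ss k H r G z := by unfold ss; rw [if_neg hD]
    by_cases hcD : z ∈ closure (DD k r)
    · obtain ⟨a1, a2⟩ := dI z hcD
      have hfr : z ∈ frontier (DD k r) := by
        rw [frontier, F.D_open.interior_eq]
        exact ⟨hcD, hD⟩
      rw [F.fD] at hfr
      obtain ⟨f1, f2, f3⟩ := hfr
      obtain ⟨-, t1⟩ := hTR k H r G hk hR z f1 f2 f3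
      refine two_fun a1 b1 (t1.trans e2) e2 a2 b2 hl ?_ C' hC'
      refine Filter.Eventually.of_forall fun y => ?_
      by_cases hyD : y ∈ DD k r
      · left; unfold ss; rw [if_pos hyD]
      · right; unfold ss; rw [if_neg hyD]
    · refine two_fun b1 b1 e2 e2 b2 b2 hl ?_ C' hC'
      have h1 : ∀ᶠ y in 𝓝 z, y ∈ (closure (DD k r))ᶜ := isClosed_closure.isOpen_compl.mem_nhds hcD
      filter_upwards [hl h1] with y hy
      left
      unfold ss
      rw [if_neg (fun h => hy (subset_closure h))]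
  have hfin := hGlue S (ss k H r G) C (convex_closedBall _ _) hC0 key
  have hLip : LipschitzOnWith ⟨C, hC0⟩ (ss k H r G) S := by
    refine LipschitzOnWith.of_dist_le_mul fun x hx y hy => ?_
    rw [Real.dist_eq, dist_eq_norm]
    exact hfin y hy x hx
  obtain ⟨g, hg1, hg2⟩ := hLip.extend_real
  refine ⟨⟨C, hC0⟩, g, hg1, fun z hz => ?_⟩
  exact (hg2 (by
    rw [hS, mem_closedBall_zero_iff]
    exact F.cO z (subset_closure hz))).symm

end Pool.Agent.T6.H52.TP
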