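import Pool.Agent.T6.H52.TP.Defs

/-!
# LU: the solution is Lipschitz
-/

set_option autoImplicit false

open MeasureTheory Set Metric Topology Filter
open scoped ContDiff ComplexConjugate

namespace Pool.Agent.T6.H52.TP

namespace ModLU

theorem ee_pos {k : ℕ} (hk : 100 ≤ k) : 0 < ee k := by
  unfold ee
  have : (0 : ℝ) < k := by exact_mod_cast (by omega : 0 < k)
  positivity

theorem ee_le {k : ℕ} (hk : 100 ≤ k) : ee k ≤ 1 / 100 := by
  unfold ee
  have : (100 : ℝ) ≤ k := by exact_mod_cast hk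
  exact one_div_le_one_div_of_le (by norm_num) this

theorem kee {k : ℕ} (hk : 100 ≤ k) : (k : ℝ) * ee k = 1 := by
  unfold ee
  have : (k : ℝ) ≠ 0 := by exact_mod_cast (by omega : k ≠ 0)
  field_simp

/-- pointwise Lipschitz bound for a function which is locally one of two differentiable functions -/
theorem two_fun {f f₁ f₂ : ℂ → ℝ} {z : ℂ} {C : ℝ} (h₁ : DifferentiableAt ℝ f₁ z)
    (h₂ : DifferentiableAt ℝ f₂ z) (e₁ : f₁ z = f z) (e₂ : f₂ z = f z) (b₁ : ‖fderiv ℝ f₁ z‖ ≤ C)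
    (b₂ : ‖fderiv ℝ f₂ z‖ ≤ C) {l : Filter ℂ} (hl : l ≤ 𝓝 z) (h : ∀ᶠ y in l, f y = f₁ y ∨ f y = f₂ y)
    (C' : ℝ) (hC : C < C') : ∀ᶠ y in l, |f y - f z| ≤ C' * ‖y - z‖ := by
  have key : ∀ g : ℂ → ℝ, DifferentiableAt ℝ g z → ‖fderiv ℝ g z‖ ≤ C →
      ∀ᶠ y in 𝓝 z, |g y - g z| ≤ C' * ‖y - z‖ := by
    intro g hg hb
    have h1 := hg.hasFDerivAt.isLittleO
    have h2 := h1.def (sub_pos.2 hC)
    filter_upwards [h2] with y hy
    rw [Real.norm_eq_abs] at hy
    have h3 : |(fderiv ℝ g z) (y - z)| ≤ C * ‖y - z‖ := by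
      rw [← Real.norm_eq_abs]
      exact ((fderiv ℝ g z).le_opNorm _).trans (mul_le_mul_of_nonneg_right hb (norm_nonneg _))
    calc |g y - g z| = |(g y - g z - (fderiv ℝ g z) (y - z)) + (fderiv ℝ g z) (y - z)| := by ring_nf
      _ ≤ |g y - g z - (fderiv ℝ g z) (y - z)| + |(fderiv ℝ g z) (y - z)| := abs_add_le _ _
      _ ≤ (C' - C) * ‖y - z‖ + C * ‖y - z‖ := add_le_add hy h3
      _ = C' * ‖y - z‖ := by ring
  filter_upwards [h, hl (key f₁ h₁ b₁), hl (key f₂ h₂ b₂)] with y hy k1 k2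
  rcases hy with hy | hy
  · rw [hy, ← e₁]; exact k1
  · rw [hy, ← e₂]; exact k2

/-- bound for the derivative on a compact set -/
theorem bound {f : ℂ → ℝ} {K : Set ℂ} (hK : IsCompact K) (h : ∀ z ∈ K, ContDiffAt ℝ ∞ f z) :
    ∃ C, ∀ z ∈ K, ‖fderiv ℝ f z‖ ≤ C := by
  refine hK.exists_bound_of_continuousOn fun z hz => ?_
  have h1 : ContDiffAt ℝ 0 (fderiv ℝ f) z := (h z hz).fderiv_right (m := 0) (by norm_num)
  exact h1.continuousAt.continuousWithinAt

/-- the facts on the two domains -/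
structure Fct (k : ℕ) (H r G : ℂ → ℂ) : Prop where
  D_open : IsOpen (DD k r)
  O_open : IsOpen (OO k)
  fD : frontier (DD k r) = {z | Real.exp (-2 * ee k ^ 2) < ‖z‖ ∧ ‖z‖ < Real.exp (2 * ee k ^ 2) ∧
    rhoD k r z = 0}
  fO : frontier (OO k) = {z | 1 < ‖z‖ ∧ ‖z‖ < Real.exp (6 * ee k ^ 2) ∧ rhoO k z = 0}
  sub : closure (DD k r) ⊆ OO k
  cD : ∀ z ∈ closure (DD k r), ‖z‖ ≤ Real.exp (2 * ee k ^ 2)
  cO : ∀ z ∈ closure (OO k), ‖z‖ ≤ Real.exp (6 * ee k ^ 2)
  nD : ∀ z, z ∉ DD k r → Real.exp (-ee k ^ 2) ≤ ‖z‖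

theorem norm_pow_lt {k : ℕ} (hk : 100 ≤ k) {z : ℂ} (hz : ‖z‖ < Real.exp (2 * ee k ^ 2)) :
    z ^ k ∈ ball (0 : ℂ) (3 / 2) := by
  rw [mem_ball_zero_iff, norm_pow]
  have h1 : ‖z‖ ^ k < Real.exp (2 * ee k ^ 2) ^ k := pow_lt_pow_left₀ hz (norm_nonneg _) (by omega)
  have h2 : Real.exp (2 * ee k ^ 2) ^ k = Real.exp (2 * ee k) := by
    rw [← Real.exp_nat_mul]
    congr 1
    have := kee hk
    calc (k : ℝ) * (2 * ee k ^ 2) = 2 * ee k * (k * ee k) := by ring
      _ = 2 * ee k := by rw [this, mul_one]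
  rw [h2] at h1
  have h3 : Real.exp (2 * ee k) ≤ Real.exp (1 / 50) := by
    apply Real.exp_le_exp.2
    have := ee_le hk
    linarith
  have h4 : Real.exp (1 / 50) < 3 / 2 := by
    have h5 := Real.exp_bound_div_one_sub_of_interval (x := 1 / 50) (by norm_num) (by norm_num)
    linarith [h5, (by norm_num : (1 : ℝ) / (1 - 1 / 50) < 3 / 2)]
  linarith

theorem fct {k : ℕ} (hk : 100 ≤ k) {H r G : ℂ → ℂ} (hR : RProp (ee k) H r G) (hGeo : StmtGEO)
    (hGD : StmtGD) (hGO : StmtGO) : Fct k H r G := by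
  have he := ee_pos hk
  have he2 : 0 < ee k ^ 2 := by positivity
  have hgD := hGD k r hk ⟨hR.rdiff, hR.rsmall⟩
  have hgO := hGO k hk
  obtain ⟨d1, d2, d3, -⟩ := hGeo _ _ _ _ _ hgD
  obtain ⟨o1, o2, o3, -⟩ := hGeo _ _ _ _ _ hgO
  refine ⟨d1.isOpen, o1.isOpen, d2, o2, ?_, ?_, ?_, ?_⟩
  · intro z hz
    unfold DD at hz
    rw [d3] at hz
    left
    rcases hz with hz | ⟨h1, h2, h3⟩
    · exact hz.trans (Real.exp_le_exp.2 (by linarith))
    · have hz0 : 0 < ‖z‖ := (Real.exp_pos _).trans h1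
      unfold rhoD at h3
      have h4 := hR.rsmall _ (norm_pow_lt hk h2)
      have h5 : (r (z ^ k)).re ≤ 1 / 100 := (Complex.re_le_norm _).trans h4
      have h6 : Real.log ‖z‖ ≤ ee k ^ 2 / 2 := by nlinarith
      exact (Real.log_le_iff_le_exp hz0).1 h6
  · intro z hz
    unfold DD at hz
    rw [d3] at hz
    rcases hz with hz | ⟨h1, h2, h3⟩
    · exact hz.trans (Real.exp_le_exp.2 (by linarith))
    · exact h2.le
  · intro z hz
    unfold OO at hz
    rw [o3] at hz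
    rcases hz with hz | ⟨h1, h2, h3⟩
    · exact hz.trans (Real.exp_le_exp.2 (by linarith))
    · exact h2.le
  · intro z hz
    by_contra h
    exact hz (Or.inl (not_le.1 h).le)

/-- the compact annulus -/
theorem cpt (a b : ℝ) : IsCompact {z : ℂ | a ≤ ‖z‖ ∧ ‖z‖ ≤ b} := by
  refine Metric.isCompact_of_isClosed_isBounded ?_ ?_
  · exact (isClosed_le continuous_const continuous_norm).inter
      (isClosed_le continuous_norm continuous_const)
  · refine (Metric.isBounded_closedBall (x := (0 : ℂ)) (r := b)).subset fun z hz => ?_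
    rw [mem_closedBall_zero_iff]
    exact hz.2

end ModLU

open ModLU in
theorem lu (hGeo : StmtGEO) (hGD : StmtGD) (hGO : StmtGO) (hReg : StmtREG) (hBC : StmtBC)
    (hTR : StmtTR) (hGlue : StmtGLUE) : StmtLU := by
  intro k C₀ c H r G hk hc hH hR
  have F := fct hk hR hGeo hGD hGO
  have he := ee_pos hk
  have he2 : 0 < ee k ^ 2 := by positivity
  obtain ⟨r1, r2⟩ := hReg k H G hk hH.diff hR.gdiff
  obtain ⟨C₁, hC₁⟩ := bound (f := uI k G)
    (isCompact_closedBall (0 : ℂ) (Real.exp (2 * ee k ^ 2))) (by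
      intro z hz
      rw [mem_closedBall_zero_iff] at hz
      exact (r2 z (hz.trans_lt (Real.exp_lt_exp.2 (by linarith)))).1)
  obtain ⟨C₂, hC₂⟩ := bound (f := uO k H)
    (cpt (Real.exp (-ee k ^ 2)) (Real.exp (6 * ee k ^ 2))) (by
      rintro z ⟨hz1, hz2⟩
      exact (r1 z ((Real.exp_lt_exp.2 (by linarith)).trans_le hz1)
        (hz2.trans_lt (Real.exp_lt_exp.2 (by linarith)))).1)
  set C := max (max C₁ C₂) 0 with hC
  have hC0 : 0 ≤ C := le_max_right _ _
  have dI : ∀ z ∈ closure (DD k r), DifferentiableAt ℝ (uI k G) z ∧ ‖fderiv ℝ (uI k G) z‖ ≤ C := by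
    intro z hz
    have h1 := F.cD z hz
    refine ⟨(r2 z (h1.trans_lt (Real.exp_lt_exp.2 (by linarith)))).1.differentiableAt (by norm_num),
      ?_⟩
    exact (hC₁ z (by rw [mem_closedBall_zero_iff]; exact h1)).trans
      ((le_max_left _ _).trans (le_max_left _ _))
  have dO : ∀ z ∈ closure (OO k), z ∉ DD k r →
      DifferentiableAt ℝ (uO k H) z ∧ ‖fderiv ℝ (uO k H) z‖ ≤ C := by
    intro z hz hzD
    have h1 := F.cO z hz
    have h2 := F.nD z hzD
    refine ⟨(r1 z ((Real.exp_lt_exp.2 (by linarith)).trans_le h2)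
        (h1.trans_lt (Real.exp_lt_exp.2 (by linarith)))).1.differentiableAt (by norm_num), ?_⟩
    exact (hC₂ z ⟨h2, h1⟩).trans ((le_max_right _ _).trans (le_max_left _ _))
  have d0 : ∀ z, DifferentiableAt ℝ (fun _ : ℂ => (0 : ℝ)) z ∧
      ‖fderiv ℝ (fun _ : ℂ => (0 : ℝ)) z‖ ≤ C := by
    intro z
    refine ⟨differentiableAt_const _, ?_⟩
    rw [fderiv_fun_const]
    simpa using hC0
  have key : ∀ x ∈ (univ : Set ℂ), ∀ C' : ℝ, C < C' →
      ∀ᶠ y in 𝓝[univ] x, |uu k H r G y - uu k H r G x| ≤ C' * ‖y - x‖ := by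
    intro z _ C' hC'
    have hl : 𝓝[univ] z ≤ 𝓝 z := nhdsWithin_le_nhds
    by_cases hD : z ∈ DD k r
    · obtain ⟨a1, a2⟩ := dI z (subset_closure hD)
      have e1 : uI k G z = uu k H r G z := by unfold uu; rw [if_pos hD]
      refine two_fun a1 a1 e1 e1 a2 a2 hl ?_ C' hC'
      have h1 : ∀ᶠ y in 𝓝 z, y ∈ DD k r := F.D_open.mem_nhds hD
      filter_upwards [hl h1] with y hy
      left
      unfold uu
      rw [if_pos hy]
    by_cases hcD : z ∈ closure (DD k r)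
    · have hO : z ∈ OO k := F.sub hcD
      obtain ⟨a1, a2⟩ := dI z hcD
      obtain ⟨b1, b2⟩ := dO z (subset_closure hO) hD
      have hfr : z ∈ frontier (DD k r) := by
        rw [frontier, F.D_open.interior_eq]
        exact ⟨hcD, hD⟩
      rw [F.fD] at hfr
      obtain ⟨f1, f2, f3⟩ := hfr
      obtain ⟨t1, -⟩ := hTR k H r G hk hR z f1 f2 f3
      have e2 : uO k H z = uu k H r G z := by unfold uu; rw [if_neg hD, if_pos hO]
      refine two_fun a1 b1 (t1.trans e2) e2 a2 b2 hl ?_ C' hC'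
      have h1 : ∀ᶠ y in 𝓝 z, y ∈ OO k := F.O_open.mem_nhds hO
      filter_upwards [hl h1] with y hy
      by_cases hyD : y ∈ DD k r
      · left; unfold uu; rw [if_pos hyD]
      · right; unfold uu; rw [if_neg hyD, if_pos hy]
    have h0 : ∀ᶠ y in 𝓝 z, y ∉ DD k r := by
      have h1 : ∀ᶠ y in 𝓝 z, y ∈ (closure (DD k r))ᶜ := isClosed_closure.isOpen_compl.mem_nhds hcD
      filter_upwards [h1] with y hy hy'
      exact hy (subset_closure hy')
    by_cases hO : z ∈ OO k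
    · obtain ⟨b1, b2⟩ := dO z (subset_closure hO) hD
      have e2 : uO k H z = uu k H r G z := by unfold uu; rw [if_neg hD, if_pos hO]
      refine two_fun b1 b1 e2 e2 b2 b2 hl ?_ C' hC'
      have h1 : ∀ᶠ y in 𝓝 z, y ∈ OO k := F.O_open.mem_nhds hO
      filter_upwards [hl h1, hl h0] with y hy hyD
      left
      unfold uu
      rw [if_neg hyD, if_pos hy]
    have e0 : (0 : ℝ) = uu k H r G z := by unfold uu; rw [if_neg hD, if_neg hO]
    obtain ⟨c1, c2⟩ := d0 z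
    by_cases hcO : z ∈ closure (OO k)
    · obtain ⟨b1, b2⟩ := dO z hcO hD
      have hfr : z ∈ frontier (OO k) := by
        rw [frontier, F.O_open.interior_eq]
        exact ⟨hcO, hO⟩
      rw [F.fO] at hfr
      obtain ⟨f1, f2, f3⟩ := hfr
      obtain ⟨t1, -⟩ := hBC k C₀ c H hk hc hH z f1 f2 f3
      refine two_fun b1 c1 (t1.trans e0) e0 b2 c2 hl ?_ C' hC'
      filter_upwards [hl h0] with y hyD
      by_cases hyO : y ∈ OO k
      · left; unfold uu; rw [if_neg hyD, if_pos hyO]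
      · right; unfold uu; rw [if_neg hyD, if_neg hyO]
    · refine two_fun c1 c1 e0 e0 c2 c2 hl ?_ C' hC'
      have h1 : ∀ᶠ y in 𝓝 z, y ∈ (closure (OO k))ᶜ := isClosed_closure.isOpen_compl.mem_nhds hcO
      filter_upwards [hl h0, hl h1] with y hyD hyO
      left
      unfold uu
      rw [if_neg hyD, if_neg (fun h => hyO (subset_closure h))]
  have hfin := hGlue univ (uu k H r G) C convex_univ hC0 key
  refine ⟨⟨C, hC0⟩, LipschitzWith.of_dist_le_mul fun x y => ?_⟩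
  rw [Real.dist_eq, dist_eq_norm]
  exact hfin y (mem_univ _) x (mem_univ _)

end Pool.Agent.T6.H52.TP
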