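import Pool.Agent.T6.H52.TP.Defs

open MeasureTheory Set Metric Topology Filter
open scoped ContDiff ComplexConjugate

namespace Pool.Agent.T6.H52.TP

namespace ModNCX

lemma pow_polar (ρ a : ℝ) (k : ℕ) :
    ((ρ : ℂ) * Complex.exp (a * Complex.I)) ^ k =
      ((ρ ^ k : ℝ) : ℂ) * Complex.exp (((k * a : ℝ) : ℂ) * Complex.I) := by
  rw [mul_pow, ← Complex.exp_nat_mul]
  push_cast
  congr 2
  ring

lemma norm_polar {ρ : ℝ} (hρ : 0 < ρ) (a : ℝ) : ‖(ρ : ℂ) * Complex.exp (a * Complex.I)‖ = ρ := by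
  rw [norm_mul, Complex.norm_exp_ofReal_mul_I, mul_one, Complex.norm_real,
    Real.norm_of_nonneg hρ.le]

lemma rho_polar {ρ : ℝ} (hρ : 0 < ρ) (a : ℝ) (k : ℕ) :
    rhoO k ((ρ : ℂ) * Complex.exp (a * Complex.I)) =
      Real.log ρ - ee k ^ 2 * (3 + 2 * Real.cos (k * a)) := by
  unfold rhoO
  rw [norm_polar hρ, pow_polar, Complex.re_ofReal_mul, Complex.exp_ofReal_mul_I_re]
  have : ρ ^ k ≠ 0 := (pow_pos hρ k).ne'
  field_simp

end ModNCX

open ModNCX

theorem ncx : StmtNCX := by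
  intro k hk hconv
  have hk0 : (0:ℝ) < k := by exact_mod_cast (by omega : 0 < k)
  have hkR : (100:ℝ) ≤ k := by exact_mod_cast hk
  have he : 0 < ee k := by unfold ee; positivity
  have hke : (k:ℝ) * ee k = 1 := by unfold ee; field_simp
  have hle : ee k ≤ 1/100 := by
    unfold ee; exact one_div_le_one_div_of_le (by norm_num) hkR
  set e := ee k with hedef
  have he2 : 0 < e ^ 2 := by positivity
  have hc1 := Real.cos_one_le
  have hc0 : 0 < Real.cos 1 := Real.cos_one_pos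
  set c1 := Real.cos 1 with hc1def
  set L : ℝ := e ^ 2 * (3 - 2 * c1) - e ^ 2 / 10 with hL
  set ρ : ℝ := Real.exp L with hρ
  have hρ0 : 0 < ρ := Real.exp_pos _
  have hLpos : e ^ 2 < L := by rw [hL]; nlinarith
  have hL6 : L < 6 * e ^ 2 := by rw [hL]; nlinarith
  have hmem : ∀ s : ℝ, Real.cos (Real.pi + s) = -c1 →
      (ρ : ℂ) * Complex.exp (((e * (Real.pi + s) : ℝ) : ℂ) * Complex.I) ∈ OO k := by
    intro s hs
    right
    rw [norm_polar hρ0]
    refine ⟨?_, ?_, ?_⟩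
    · rw [hρ]; exact Real.one_lt_exp_iff.mpr (by linarith)
    · rw [hρ]; exact Real.exp_lt_exp.mpr hL6
    · rw [rho_polar hρ0, hρ, Real.log_exp]
      have : (k:ℝ) * (e * (Real.pi + s)) = Real.pi + s := by
        rw [← mul_assoc, hke, one_mul]
      rw [this, hs, hL]
      nlinarith
  have h1 := hmem 1 (by rw [Real.cos_add, Real.cos_pi, Real.sin_pi]; ring)
  have h2 := hmem (-1) (by rw [Real.cos_add, Real.cos_pi, Real.sin_pi, Real.cos_neg]; ring)
  have hmid := hconv h1 h2 (by norm_num : (0:ℝ) ≤ 1/2) (by norm_num : (0:ℝ) ≤ 1/2) (by norm_num)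
  have hcose : 1 - e ^ 2 / 2 ≤ Real.cos e := Real.one_sub_sq_div_two_le_cos
  have hcosp : 0 < Real.cos e := by nlinarith
  have hmideq : (1/2:ℝ) • ((ρ : ℂ) * Complex.exp (((e * (Real.pi + 1) : ℝ) : ℂ) * Complex.I)) +
      (1/2:ℝ) • ((ρ : ℂ) * Complex.exp (((e * (Real.pi + -1) : ℝ) : ℂ) * Complex.I)) =
      ((ρ * Real.cos e : ℝ) : ℂ) * Complex.exp (((e * Real.pi : ℝ) : ℂ) * Complex.I) := by
    have hx : ((e * (Real.pi + 1) : ℝ) : ℂ) * Complex.I =
        ((e * Real.pi : ℝ) : ℂ) * Complex.I + (e : ℂ) * Complex.I := by push_cast; ring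
    have hy : ((e * (Real.pi + -1) : ℝ) : ℂ) * Complex.I =
        ((e * Real.pi : ℝ) : ℂ) * Complex.I + -((e : ℂ) * Complex.I) := by push_cast; ring
    rw [hx, hy, Complex.exp_add, Complex.exp_add]
    have hcos : ((Real.cos e : ℝ) : ℂ) =
        (Complex.exp ((e:ℂ) * Complex.I) + Complex.exp (-((e:ℂ) * Complex.I))) / 2 := by
      rw [Complex.ofReal_cos, Complex.cos]
      congr 3
      ring
    rw [Complex.ofReal_mul ρ (Real.cos e), hcos, Complex.real_smul, Complex.real_smul]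
    push_cast
    ring
  rw [hmideq] at hmid
  have hρc : 0 < ρ * Real.cos e := mul_pos hρ0 hcosp
  have hlogcos : -(6/10) * e ^ 2 ≤ Real.log (Real.cos e) := by
    rw [Real.le_log_iff_exp_le hcosp]
    have hb : Real.exp (-(6/10) * e ^ 2) ≤ 1 - e ^ 2 / 2 := by
      have hx : 0 < 1 + (6/10) * e ^ 2 := by positivity
      have h3 : Real.exp (-(6/10) * e ^ 2) ≤ 1 / (1 + (6/10) * e ^ 2) := by
        rw [neg_mul, Real.exp_neg, ← one_div]
        apply one_div_le_one_div_of_le hx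
        have := Real.add_one_le_exp ((6/10) * e ^ 2)
        linarith
      refine h3.trans ?_
      rw [div_le_iff₀ hx]
      have he4 : e ^ 2 ≤ 1 / 10000 := by nlinarith
      nlinarith [mul_nonneg he2.le (sub_nonneg.mpr he4)]
    linarith
  have hlogm : e ^ 2 < Real.log (ρ * Real.cos e) := by
    rw [Real.log_mul hρ0.ne' hcosp.ne', hρ, Real.log_exp, hL]
    nlinarith
  rcases hmid with h | ⟨_, _, h⟩
  · rw [norm_polar hρc] at h
    have : Real.log (ρ * Real.cos e) ≤ e ^ 2 / 2 := by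
      rw [Real.log_le_iff_le_exp hρc]; exact h
    linarith
  · rw [rho_polar hρc] at h
    have : (k:ℝ) * (e * Real.pi) = Real.pi := by rw [← mul_assoc, hke, one_mul]
    rw [this, Real.cos_pi] at h
    have : Real.log (ρ * Real.cos e) - e ^ 2 * (3 + 2 * -1) < 0 := h
    linarith

end Pool.Agent.T6.H52.TP
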