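import Pool.Agent.T6.H52.TP.Defs

/-!
# MP_8dfb46_an, module NORM
-/

set_option autoImplicit false

open MeasureTheory Set Metric Topology Filter
open scoped ContDiff ComplexConjugate

namespace Pool.Agent.T6.H52.TP

namespace ModNORM

theorem neg_right {g : ℝ → ℝ} {g' : ℝ} (hg : HasDerivAt g g' 0) (hg' : g' < 0) (h0 : g 0 = 0) :
    ∀ᶠ t in 𝓝[>] (0 : ℝ), g t < 0 := by
  have h1 : Tendsto (slope g 0) (𝓝[>] 0) (𝓝 g') :=
    hg.tendsto_slope.mono_left (nhdsWithin_mono _ fun t ht => ne_of_gt ht)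
  filter_upwards [h1.eventually (Iio_mem_nhds hg'), self_mem_nhdsWithin] with t ht ht0
  have ht0' : (0 : ℝ) < t := ht0
  have ht' : slope g 0 t < 0 := ht
  rw [slope_def_field, h0, sub_zero, sub_zero] at ht'
  by_contra hcon
  push Not at hcon
  have := div_nonneg hcon ht0'.le
  linarith

theorem line {ρ : ℂ → ℝ} {x h : ℂ} {Ω : Set ℂ} (hρ : IsLocalDefining Ω x ρ) :
    HasDerivAt (fun t : ℝ => ρ (x + t • h)) (fderiv ℝ ρ x h) 0 := by
  obtain ⟨-, -, U, hU, hxU, hs, -⟩ := hρ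
  have hd : DifferentiableAt ℝ ρ x :=
    (hs.contDiffAt (hU.mem_nhds hxU)).differentiableAt (by simp)
  have hd' : DifferentiableAt ℝ ρ (x + (0 : ℝ) • h) := by simpa using hd
  have h1 : HasDerivAt (fun t : ℝ => x + t • h) h 0 := by
    simpa using ((hasDerivAt_id (0 : ℝ)).smul_const h).const_add x
  have h2 := hd'.hasFDerivAt.comp_hasDerivAt (0 : ℝ) h1
  rw [zero_smul, add_zero] at h2
  exact h2

theorem mem_ev {ρ : ℂ → ℝ} {x h : ℂ} {Ω : Set ℂ} (hρ : IsLocalDefining Ω x ρ) :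
    ∀ᶠ t in 𝓝[>] (0 : ℝ), (x + t • h ∈ Ω ↔ ρ (x + t • h) < 0) := by
  obtain ⟨-, -, U, hU, hxU, -, hUΩ⟩ := hρ
  have hc : Continuous (fun t : ℝ => x + t • h) := by fun_prop
  have h1 : ∀ᶠ t in 𝓝 (0 : ℝ), x + t • h ∈ U := by
    apply hc.continuousAt.eventually
    apply hU.mem_nhds
    simpa using hxU
  exact (h1.filter_mono nhdsWithin_le_nhds).mono fun t ht => hUΩ _ ht

end ModNORM

open ModNORM

theorem norm_unique : StmtNORM := by
  rintro Ω x n n' ⟨hn, ρ, hρ, l, hl, hd⟩ ⟨hn', ρ', hρ', l', hl', hd'⟩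
  by_contra hne
  have h1 : inner ℝ n n' < 1 := (inner_lt_one_iff_real_of_norm_eq_one hn hn').2 hne
  set h : ℂ := n' - n with hh
  have e1 : inner ℝ n h < 0 := by
    rw [hh, inner_sub_right, real_inner_self_eq_norm_sq, hn]
    linarith
  have e2 : 0 < inner ℝ n' h := by
    rw [hh, inner_sub_right, real_inner_self_eq_norm_sq, hn', real_inner_comm]
    linarith
  have d1 : fderiv ℝ ρ x h < 0 := by
    rw [hd]; exact mul_neg_of_pos_of_neg hl e1
  have d2 : 0 < fderiv ℝ ρ' x h := by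
    rw [hd']; exact mul_pos hl' e2
  have a1 := neg_right (line (h := h) hρ) d1 (by simpa using hρ.1)
  have a2 : ∀ᶠ t in 𝓝[>] (0 : ℝ), -ρ' (x + t • h) < 0 :=
    neg_right (g' := -(fderiv ℝ ρ' x h)) (line (h := h) hρ').neg (by linarith)
      (by simpa using hρ'.1)
  obtain ⟨t, t1, t2, t3, t4⟩ :=
    (a1.and (a2.and ((mem_ev (h := h) hρ).and (mem_ev (h := h) hρ')))).exists
  have := t4.1 (t3.2 t1)
  linarith

end Pool.Agent.T6.H52.TP
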