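import Pool.Agent.T6.H52.TP.Defs

/-!
# Module PRIM: the primitive
-/

open MeasureTheory Set Metric Topology Filter
open scoped ContDiff ComplexConjugate

namespace Pool.Agent.T6.H52.TP

namespace ModPRIM

theorem inv_mem {R : ℝ} (hR : 1 < R) {v : ℂ} (hv : v ∈ Ann R) : 1 / conj v ∈ Ann R := by
  have hR0 : 0 < R := by linarith
  obtain ⟨h1, h2⟩ := hv
  have hv0 : 0 < ‖v‖ := lt_trans (by positivity) h1
  constructor
  · rw [norm_div, norm_one, RCLike.norm_conj]
    exact one_div_lt_one_div_of_lt hv0 h2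
  · rw [norm_div, norm_one, RCLike.norm_conj, div_lt_iff₀ hv0]
    rw [div_lt_iff₀ hR0] at h1
    linarith

theorem sub_ball {R : ℝ} {v : ℂ} (hv : v ∈ Ann R) : v ∈ ball (0 : ℂ) R := by
  rw [mem_ball_zero_iff]; exact hv.2

theorem ne_zero {R : ℝ} (hR : 1 < R) {v : ℂ} (hv : v ∈ Ann R) : v ≠ 0 := by
  intro h
  have h1 : 0 < 1 / R := by positivity
  have := hv.1
  rw [h, norm_zero] at this
  linarith

theorem circle_mem {R : ℝ} (hR : 1 < R) {v : ℂ} (hv : ‖v‖ = 1) : v ∈ Ann R := by
  constructor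
  · rw [hv, div_lt_one (by linarith)]; exact hR
  · rw [hv]; exact hR

theorem inv_conj_circle {v : ℂ} (hv : ‖v‖ = 1) : 1 / conj v = v := by
  have h : v * conj v = 1 := by
    rw [Complex.mul_conj, Complex.normSq_eq_norm_sq, hv]; simp
  have hne : conj v ≠ 0 := by
    intro h0; rw [h0, mul_zero] at h; exact one_ne_zero h.symm
  rw [div_eq_iff hne, h]

end ModPRIM

open ModPRIM in
theorem prim (h : StmtLAU) : StmtPRIM := by
  intro R hR
  obtain ⟨K0, hK0, G, Hh, h1, -⟩ := h R hR
  have hR0 : 0 < R := by linarith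
  refine ⟨4 * K0, by positivity, fun f M hf hM hsym hint => ?_⟩
  obtain ⟨hGd, hHd, -, hb, hsplit⟩ := h1 f M hf hM
  set G1 : ℂ → ℂ := fun v => (G f v + Hh f v) / 2 with hG1
  have hG1d : DifferentiableOn ℂ G1 (ball 0 R) := (hGd.add hHd).div_const 2
  have hG1b : ∀ v ∈ ball (0 : ℂ) R, ‖G1 v‖ ≤ K0 * M := by
    intro v hv
    obtain ⟨b1, b2⟩ := hb v hv
    rw [hG1]
    simp only
    rw [norm_div, Complex.norm_ofNat]
    have := norm_add_le (G f v) (Hh f v)
    linarith
  have hinv : ∀ v : ℂ, 1 / conj (1 / conj v) = v := by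
    intro v
    rw [map_div₀, Complex.conj_conj, map_one, one_div_one_div]
  -- the symmetric splitting
  have hfG : ∀ v ∈ Ann R, f v = G1 v + conj (G1 (1 / conj v)) := by
    intro v hv
    have e1 := hsplit v hv
    have e2 := hsplit _ (inv_mem hR hv)
    have e3 := hsym v hv
    simp only [rfc] at e1 e2 e3
    rw [hinv] at e2
    rw [e2] at e3
    simp only [hG1]
    have e4 : f v = (f v + f v) / 2 := by ring
    rw [e4]
    nth_rewrite 1 [e1]
    rw [← e3]
    simp only [map_add, map_div₀, Complex.conj_conj]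
    have : (starRingEnd ℂ) (2 : ℂ) = 2 := Complex.conj_ofNat 2
    rw [this]
    ring
  -- the mean
  have hmean : G1 0 + conj (G1 0) = 0 := by
    have hd : DiffContOnCl ℂ G1 (ball 0 |1|) := by
      rw [abs_one]
      refine (hG1d.mono ?_).diffContOnCl
      rw [closure_ball _ (by norm_num)]
      exact closedBall_subset_ball hR
    have hav := hd.circleAverage
    rw [Real.circleAverage_def] at hav
    have hcm : ∀ t : ℝ, circleMap 0 1 t = Complex.exp (t * Complex.I) := by
      intro t; simp [circleMap]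
    simp only [hcm] at hav
    have hpi : (2 * Real.pi) ≠ 0 := by positivity
    have hI : (∫ t in (0:ℝ)..2 * Real.pi, G1 (Complex.exp (t * Complex.I))) =
        (2 * Real.pi : ℝ) • G1 0 := by
      rw [← hav, smul_smul, mul_inv_cancel₀ hpi, one_smul]
    have hcirc : ∀ t : ℝ, ‖Complex.exp (t * Complex.I)‖ = 1 := Complex.norm_exp_ofReal_mul_I
    have hcont : Continuous fun t : ℝ => G1 (Complex.exp (t * Complex.I)) := by
      refine (hG1d.continuousOn).comp_continuous (by fun_prop) fun t => ?_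
      exact sub_ball (circle_mem hR (hcirc t))
    have hint2 : (∫ t in (0:ℝ)..2 * Real.pi, f (Complex.exp (t * Complex.I))) =
        (∫ t in (0:ℝ)..2 * Real.pi, G1 (Complex.exp (t * Complex.I))) +
          ∫ t in (0:ℝ)..2 * Real.pi, conj (G1 (Complex.exp (t * Complex.I))) := by
      have hcc : Continuous fun t : ℝ => conj (G1 (Complex.exp (t * Complex.I))) :=
        Complex.continuous_conj.comp hcont
      have hadd := intervalIntegral.integral_add (hcont.intervalIntegrable 0 (2 * Real.pi))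
        (hcc.intervalIntegrable (μ := volume) 0 (2 * Real.pi))
      rw [← hadd]
      refine intervalIntegral.integral_congr fun t _ => ?_
      rw [hfG _ (circle_mem hR (hcirc t)), inv_conj_circle (hcirc t)]
    have hconj : (∫ t in (0:ℝ)..2 * Real.pi, conj (G1 (Complex.exp (t * Complex.I)))) =
        conj (∫ t in (0:ℝ)..2 * Real.pi, G1 (Complex.exp (t * Complex.I))) := by
      rw [intervalIntegral.integral_of_le (by positivity),
        intervalIntegral.integral_of_le (by positivity), integral_conj]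
    rw [hint, hconj, hI] at hint2
    simp only [Complex.real_smul, map_mul, Complex.conj_ofReal] at hint2
    have h3 : ((2 * Real.pi : ℝ) : ℂ) * (G1 0 + conj (G1 0)) = 0 := by
      rw [mul_add]; exact hint2.symm
    have h4 : ((2 * Real.pi : ℝ) : ℂ) ≠ 0 := by exact_mod_cast hpi
    exact (mul_eq_zero.1 h3).resolve_left h4
  -- the quotient
  set D : ℂ → ℂ := dslope G1 0 with hD
  have hball : ball (0 : ℂ) R ∈ 𝓝 (0 : ℂ) := ball_mem_nhds _ hR0
  have hDd : DifferentiableOn ℂ D (ball 0 R) := (Complex.differentiableOn_dslope hball).2 hG1d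
  have hDb : ∀ v ∈ ball (0 : ℂ) R, ‖D v‖ ≤ 2 * (K0 * M) / R := by
    intro v hv
    refine Complex.norm_dslope_le_div_of_mapsTo_ball hG1d (fun w hw => ?_) hv
    rw [mem_closedBall, dist_eq_norm]
    calc ‖G1 w - G1 0‖ ≤ ‖G1 w‖ + ‖G1 0‖ := norm_sub_le _ _
      _ ≤ K0 * M + K0 * M := add_le_add (hG1b w hw) (hG1b 0 (mem_ball_self hR0))
      _ = 2 * (K0 * M) := by ring
  have hDm : ∀ v : ℂ, v * D v = G1 v - G1 0 := by
    intro v
    have := sub_smul_dslope G1 0 v
    rwa [sub_zero, smul_eq_mul] at this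
  obtain ⟨g2, hg20, hg2⟩ := hDd.isExactOn_ball.with_val_at 0 0
  have hM0 : 0 ≤ K0 * M := (norm_nonneg _).trans (hG1b 0 (mem_ball_self hR0))
  have hg2b : ∀ v ∈ ball (0 : ℂ) R, ‖g2 v‖ ≤ 2 * (K0 * M) := by
    intro v hv
    have := Convex.norm_image_sub_le_of_norm_deriv_le (𝕜 := ℂ) (s := ball (0 : ℂ) R)
      (f := g2) (C := 2 * (K0 * M) / R) (x := 0) (y := v)
      (fun w hw => (hg2 w hw).differentiableAt)
      (fun w hw => by rw [(hg2 w hw).deriv]; exact hDb w hw) (convex_ball _ _)
      (mem_ball_self hR0) hv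
    rw [hg20, sub_zero, sub_zero] at this
    rw [mem_ball_zero_iff] at hv
    calc ‖g2 v‖ ≤ 2 * (K0 * M) / R * ‖v‖ := this
      _ ≤ 2 * (K0 * M) / R * R := mul_le_mul_of_nonneg_left hv.le (by positivity)
      _ = 2 * (K0 * M) := by field_simp
  have hder : ∀ v ∈ Ann R, HasDerivAt (fun v => g2 v - rfc g2 v)
      (D v - conj (D (1 / conj v)) * (-(1 / v ^ 2))) v := by
    intro v hv
    have hv0 := ne_zero hR hv
    have hw : 1 / conj v ∈ ball (0 : ℂ) R := sub_ball (inv_mem hR hv)
    have e1 : HasDerivAt g2 (D v) v := hg2 v (sub_ball hv)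
    have e2 : HasDerivAt (conj ∘ g2 ∘ conj) (conj (D (1 / conj v))) (conj (1 / conj v)) :=
      (hg2 _ hw).conj_conj
    have e3 : HasDerivAt (fun v : ℂ => v⁻¹) (-(v ^ 2)⁻¹) v := hasDerivAt_inv hv0
    have e4 : conj (1 / conj v) = v⁻¹ := by
      rw [map_div₀, Complex.conj_conj, map_one, one_div]
    rw [e4] at e2
    have e5 := e2.comp v e3
    have e6 : (conj ∘ g2 ∘ conj) ∘ (fun v : ℂ => v⁻¹) = rfc g2 := by
      ext w
      simp only [Function.comp_apply, rfc, map_inv₀, one_div]
    rw [e6] at e5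
    have e7 := e1.sub e5
    rw [one_div (v ^ 2)]
    exact e7
  refine ⟨fun v => g2 v - rfc g2 v, ?_, ?_, ?_, ?_⟩
  · intro v hv
    exact (hder v hv).differentiableAt.differentiableWithinAt
  · intro v hv
    have b1 := hg2b v (sub_ball hv)
    have b2 := hg2b _ (sub_ball (inv_mem hR hv))
    calc ‖g2 v - rfc g2 v‖ ≤ ‖g2 v‖ + ‖rfc g2 v‖ := norm_sub_le _ _
      _ ≤ 2 * (K0 * M) + 2 * (K0 * M) := by
          refine add_le_add b1 ?_
          rw [rfc, RCLike.norm_conj]; exact b2
      _ = 4 * K0 * M := by ring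
  · intro v hv
    have hv0 := ne_zero hR hv
    rw [(hder v hv).deriv]
    have e1 := hDm v
    have e2 := hDm (1 / conj v)
    have e3 : conj (1 / conj v) * conj (D (1 / conj v)) =
        conj (G1 (1 / conj v)) - conj (G1 0) := by
      rw [← map_mul, e2, map_sub]
    have e4 : conj (1 / conj v) = 1 / v := by
      rw [map_div₀, Complex.conj_conj, map_one]
    rw [e4] at e3
    have e5 : v * (D v - conj (D (1 / conj v)) * (-(1 / v ^ 2))) =
        v * D v + 1 / v * conj (D (1 / conj v)) := by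
      field_simp
      ring
    rw [e5, e1, e3, hfG v hv]
    linear_combination -hmean
  · intro v hv
    simp only [rfc]
    rw [inv_conj_circle hv]
    simp

end Pool.Agent.T6.H52.TP
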