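import Pool.Agent.T6.H52.TP.Defs

/-!
Project TP (helper52), MP_8dfb46_an, module REG (helper51): smoothness of the solutions and of the
stream functions, and the relations between them.
-/

set_option autoImplicit false

open MeasureTheory Set Metric Topology Filter
open scoped ContDiff

namespace Pool.Agent.T6.H52.TP

namespace ModREG

/-- the derivative of `a Re W - b ‖z‖²` -/
theorem hasf_u {W : ℂ → ℂ} {z : ℂ} (hW : AnalyticAt ℂ W z) (a b : ℝ) (h : ℂ) :
    fderiv ℝ (fun w => a * (W w).re - b * ‖w‖ ^ 2) z h =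
      a * (deriv W z * h).re - b * (2 * (z.re * h.re + z.im * h.im)) := by
  have h1 : HasFDerivAt W ((ContinuousLinearMap.toSpanSingleton ℂ (deriv W z)).restrictScalars ℝ)
      z := hW.differentiableAt.hasDerivAt.hasFDerivAt.restrictScalars ℝ
  have h2 : HasFDerivAt (fun w => (W w).re) (Complex.reCLM.comp
      ((ContinuousLinearMap.toSpanSingleton ℂ (deriv W z)).restrictScalars ℝ)) z :=
    Complex.reCLM.hasFDerivAt.comp z h1
  have h3 : HasFDerivAt (fun w : ℂ => ‖w‖ ^ 2) (2 • (innerSL ℝ z)) z :=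
    (hasStrictFDerivAt_norm_sq z).hasFDerivAt
  have h4 := (h2.const_mul a).sub (h3.const_mul b)
  have h5 : fderiv ℝ (fun w => a * (W w).re - b * ‖w‖ ^ 2) z = _ := h4.fderiv
  rw [h5]
  simp only [ContinuousLinearMap.sub_apply, ContinuousLinearMap.smul_apply,
    ContinuousLinearMap.comp_apply, ContinuousLinearMap.coe_restrictScalars', smul_eq_mul,
    ContinuousLinearMap.toSpanSingleton_apply, Complex.reCLM_apply, innerSL_apply_apply,
    Complex.inner, nsmul_eq_mul]
  rw [mul_comm h]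
  congr 1
  simp only [Complex.mul_re, Complex.conj_re, Complex.conj_im, Nat.cast_ofNat]
  ring

theorem hasf_s {W : ℂ → ℂ} {z : ℂ} (hW : AnalyticAt ℂ W z) (a : ℝ) (h : ℂ) :
    fderiv ℝ (fun w => a * (W w).im) z h = a * (deriv W z * h).im := by
  have h1 : HasFDerivAt W ((ContinuousLinearMap.toSpanSingleton ℂ (deriv W z)).restrictScalars ℝ)
      z := hW.differentiableAt.hasDerivAt.hasFDerivAt.restrictScalars ℝ
  have h2 : HasFDerivAt (fun w => (W w).im) (Complex.imCLM.comp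
      ((ContinuousLinearMap.toSpanSingleton ℂ (deriv W z)).restrictScalars ℝ)) z :=
    Complex.imCLM.hasFDerivAt.comp z h1
  have h5 : fderiv ℝ (fun w => a * (W w).im) z = _ := (h2.const_mul a).fderiv
  rw [h5]
  simp only [ContinuousLinearMap.smul_apply,
    ContinuousLinearMap.comp_apply, ContinuousLinearMap.coe_restrictScalars', smul_eq_mul,
    ContinuousLinearMap.toSpanSingleton_apply, Complex.imCLM_apply]
  rw [mul_comm h]

theorem cont_W {W : ℂ → ℂ} {z : ℂ} (hW : AnalyticAt ℂ W z) : ContDiffAt ℝ ∞ W z :=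
  (hW.contDiffAt (n := ∞)).restrict_scalars ℝ

theorem cont_u {W : ℂ → ℂ} {z : ℂ} (hW : AnalyticAt ℂ W z) (a b : ℝ) :
    ContDiffAt ℝ ∞ (fun w => a * (W w).re - b * ‖w‖ ^ 2) z := by
  have h1 : ContDiffAt ℝ ∞ (fun w => (W w).re) z :=
    Complex.reCLM.contDiff.contDiffAt.comp z (cont_W hW)
  exact (contDiffAt_const.mul h1).sub (contDiffAt_const.mul (contDiff_norm_sq ℝ).contDiffAt)

theorem cont_s {W : ℂ → ℂ} {z : ℂ} (hW : AnalyticAt ℂ W z) (a : ℝ) :
    ContDiffAt ℝ ∞ (fun w => a * (W w).im) z := by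
  have h1 : ContDiffAt ℝ ∞ (fun w => (W w).im) z :=
    Complex.imCLM.contDiff.contDiffAt.comp z (cont_W hW)
  exact contDiffAt_const.mul h1

theorem kee {k : ℕ} (hk : 100 ≤ k) : (k : ℝ) * ee k = 1 := by
  have h1 : (k : ℝ) ≠ 0 := by
    have : 0 < k := by omega
    exact_mod_cast this.ne'
  unfold ee
  field_simp

theorem ee_pos {k : ℕ} (hk : 100 ≤ k) : 0 < ee k := by
  have : (0 : ℝ) < k := by
    have : 0 < k := by omega
    exact_mod_cast this
  unfold ee
  positivity

theorem ee_le {k : ℕ} (hk : 100 ≤ k) : ee k ≤ 1 / 100 := by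
  have h1 : (100 : ℝ) ≤ k := by exact_mod_cast hk
  unfold ee
  exact one_div_le_one_div_of_le (by norm_num) h1

theorem exp_pow {k : ℕ} (hk : 100 ≤ k) (c : ℝ) :
    Real.exp (c * ee k ^ 2) ^ k = Real.exp (c * ee k) := by
  rw [← Real.exp_nat_mul]
  congr 1
  have := kee hk
  calc (k : ℝ) * (c * ee k ^ 2) = c * ee k * (k * ee k) := by ring
    _ = c * ee k := by rw [this, mul_one]

theorem pow_lt {k : ℕ} (hk : 100 ≤ k) {z : ℂ} {c : ℝ} (h : ‖z‖ < Real.exp (c * ee k ^ 2)) :
    ‖z ^ k‖ < Real.exp (c * ee k) := by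
  rw [norm_pow, ← exp_pow hk]
  exact pow_lt_pow_left₀ h (norm_nonneg z) (by omega)

theorem lt_pow {k : ℕ} (hk : 100 ≤ k) {z : ℂ} {c : ℝ} (h : Real.exp (c * ee k ^ 2) < ‖z‖) :
    Real.exp (c * ee k) < ‖z ^ k‖ := by
  rw [norm_pow, ← exp_pow hk]
  exact pow_lt_pow_left₀ h (Real.exp_pos _).le (by omega)

theorem ann_open (R : ℝ) : IsOpen (Ann R) := by
  have h1 : Ann R = {v : ℂ | 1 / R < ‖v‖} ∩ {v : ℂ | ‖v‖ < R} := rfl
  rw [h1]
  exact (isOpen_lt continuous_const continuous_norm).inter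
    (isOpen_lt continuous_norm continuous_const)

theorem analytic_O {k : ℕ} (hk : 100 ≤ k) {H : ℂ → ℂ} (hH : DifferentiableOn ℂ H (Ann 3)) {z : ℂ}
    (h1 : Real.exp (-6 * ee k ^ 2) < ‖z‖) (h2 : ‖z‖ < Real.exp (7 * ee k ^ 2)) :
    AnalyticAt ℂ (fun w => H (w ^ k)) z := by
  have he := ee_le hk
  have he0 := ee_pos hk
  have h3 := lt_pow hk h1
  have h4 := pow_lt hk h2
  have h5 : z ^ k ∈ Ann 3 := by
    refine ⟨lt_of_le_of_lt ?_ h3, h4.trans_le ?_⟩
    · have := Real.add_one_le_exp (-6 * ee k)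
      linarith
    · have h6 : Real.exp (7 * ee k) ≤ Real.exp 1 := Real.exp_le_exp.2 (by linarith)
      have h7 := Real.exp_one_lt_d9
      linarith
  have h6 : AnalyticAt ℂ H ((fun w : ℂ => w ^ k) z) := hH.analyticAt ((ann_open 3).mem_nhds h5)
  have h7 : AnalyticAt ℂ (fun w : ℂ => w ^ k) z := analyticAt_id.fun_pow k
  exact AnalyticAt.fun_comp (f := fun w : ℂ => w ^ k) h6 h7

theorem analytic_I {k : ℕ} (hk : 100 ≤ k) {G : ℂ → ℂ} (hG : DifferentiableOn ℂ G (ball 0 (3 / 2)))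
    {z : ℂ} (h2 : ‖z‖ < Real.exp (5 / 2 * ee k ^ 2)) :
    AnalyticAt ℂ (fun w => G (w ^ k)) z := by
  have he := ee_le hk
  have he0 := ee_pos hk
  have h4 := pow_lt hk h2
  have h5 : z ^ k ∈ ball (0 : ℂ) (3 / 2) := by
    rw [mem_ball_zero_iff]
    refine h4.trans_le ?_
    have h6 : 39 / 40 ≤ Real.exp (-(5 / 2 * ee k)) := by
      have := Real.add_one_le_exp (-(5 / 2 * ee k))
      linarith
    have h7 : Real.exp (5 / 2 * ee k) * Real.exp (-(5 / 2 * ee k)) = 1 := by
      rw [← Real.exp_add, add_neg_cancel, Real.exp_zero]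
    have h8 := Real.exp_pos (5 / 2 * ee k)
    nlinarith
  have h6 : AnalyticAt ℂ G ((fun w : ℂ => w ^ k) z) := hG.analyticAt (isOpen_ball.mem_nhds h5)
  have h7 : AnalyticAt ℂ (fun w : ℂ => w ^ k) z := analyticAt_id.fun_pow k
  exact AnalyticAt.fun_comp (f := fun w : ℂ => w ^ k) h6 h7

end ModREG

open ModREG in
theorem reg : StmtREG := by
  intro k H G hk hH hG
  have hk0 : (0 : ℝ) < k := by
    have : 0 < k := by omega
    exact_mod_cast this
  refine ⟨fun z h1 h2 => ?_, fun z h2 => ?_⟩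
  · have hW := analytic_O hk hH h1 h2
    have e1 : uO k H = fun w => 1 * ((fun w => H (w ^ k)) w).re - 1 / 4 * ‖w‖ ^ 2 := by
      funext w
      simp only [uO]
      ring
    have e2 : sO k H = fun w => 1 * ((fun w => H (w ^ k)) w).im := by
      funext w
      simp only [sO]
      ring
    rw [e1, e2]
    refine ⟨cont_u hW 1 (1 / 4), cont_s hW 1, ?_, ?_⟩
    · rw [hasf_u hW, hasf_s hW]
      simp
      ring
    · rw [hasf_u hW, hasf_s hW]
      simp
      ring
  · have hW := analytic_I hk hG h2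
    have e1 : uI k G = fun w => (k : ℝ) * ((fun w => G (w ^ k)) w).re -
        ((2 * k + 1) / 4) * ‖w‖ ^ 2 := by
      funext w
      simp only [uI]
      ring
    have e2 : sI k G = fun w => ((k : ℝ) / (2 * k + 1)) * ((fun w => G (w ^ k)) w).im := rfl
    rw [e1, e2]
    refine ⟨cont_u hW _ _, cont_s hW _, ?_, ?_⟩
    · rw [hasf_u hW, hasf_s hW]
      unfold sc
      simp
      field_simp
      ring
    · rw [hasf_u hW, hasf_s hW]
      unfold sc
      simp
      field_simp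
      ring

end Pool.Agent.T6.H52.TP
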