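import Pool.Agent.T6.H52.TP.Defs

open MeasureTheory Set Metric Topology Filter
open scoped ContDiff ComplexConjugate

namespace Pool.Agent.T6.H52.TP

namespace ModRR

lemma exp_quarter : Real.exp (1/4) < 4 / 3 := by
  have h := Real.exp_bound_div_one_sub_of_interval (x := 1/16) (by norm_num) (by norm_num)
  have h2 : Real.exp (1/4) = Real.exp (1/16) ^ 4 := by
    rw [← Real.exp_nat_mul]; norm_num
  rw [h2]
  calc Real.exp (1/16) ^ 4 ≤ (1 / (1 - 1/16)) ^ 4 := pow_le_pow_left₀ (Real.exp_pos _).le h 4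
    _ < 4 / 3 := by norm_num

end ModRR

open ModRR

theorem rr (hB : StmtFPB) (hI : StmtINV) : StmtRR := by
  intro C hC
  obtain ⟨e₀, he₀, hB⟩ := hB C hC
  refine ⟨min e₀ 1, lt_min he₀ one_pos, ?_⟩
  intro e he he1 H hH
  obtain ⟨q, g, hq, hg, heq⟩ := hB e he (lt_of_lt_of_le he1 (min_le_left _ _)) H hH
  have hle1 : e < 1 := lt_of_lt_of_le he1 (min_le_right _ _)
  have hmap : ∀ x ∈ ball (0:ℂ) (3/2), ∀ y : ℂ, ‖y‖ < 1 / 4 → x * Complex.exp y ∈ ball (0:ℂ) 2 := by
    intro x hx y hy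
    rw [mem_ball_zero_iff] at hx ⊢
    rw [norm_mul, Complex.norm_exp]
    have h1 : Real.exp y.re ≤ Real.exp (1/4) :=
      Real.exp_le_exp.mpr (((Complex.re_le_norm y).trans hy.le))
    have h2 := exp_quarter
    have h3 : Real.exp y.re < 4 / 3 := lt_of_le_of_lt h1 h2
    calc ‖x‖ * Real.exp y.re ≤ (3/2) * Real.exp y.re := by gcongr
      _ < (3/2) * (4/3) := by gcongr
      _ = 2 := by norm_num
  obtain ⟨r, hr1, hr2, hr3⟩ := hI (ball 0 2) (ball 0 (3/2)) q (1/100) e isOpen_ball isOpen_ball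
    hq.1 hq.2.2 hmap (by norm_num) he (by linarith)
  have hsm : ∀ x ∈ ball (0:ℂ) (3/2), ‖-((e:ℂ) * r x)‖ < 1 / 4 := by
    intro x hx
    rw [norm_neg, norm_mul, Complex.norm_real, Real.norm_of_nonneg he.le]
    have := (hr2 x hx).1
    nlinarith [norm_nonneg (r x)]
  have hv2 : ∀ x ∈ ball (0:ℂ) (3/2), x * Complex.exp (-((e:ℂ) * r x)) ∈ ball (0:ℂ) 2 :=
    fun x hx => hmap x hx _ (hsm x hx)
  refine ⟨r, fun x => g (x * Complex.exp (-((e:ℂ) * r x))), hr1, fun x hx => (hr2 x hx).1, ?_, ?_⟩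
  · refine hg.comp ?_ hv2
    exact differentiableOn_id.mul ((hr1.const_mul _).neg.cexp)
  · intro x hx hnx
    set v : ℂ := x * Complex.exp (-((e:ℂ) * r x)) with hv
    have hqv : q v = r x := (hr2 x hx).2.symm
    have hnv : ‖v‖ = 1 := by
      rw [hv, norm_mul, Complex.norm_exp, hnx]
      have : (-((e:ℂ) * r x)).re = -(e * (r x).re) := by simp
      rw [this, ← Real.exp_add]
      simp
    have hvx : v * Complex.exp (e * q v) = x := by
      rw [hqv, hv, mul_assoc, ← Complex.exp_add]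
      simp
    have := heq v hnv
    rw [hvx, hqv] at this
    exact this

end Pool.Agent.T6.H52.TP
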