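import Pool.Agent.T6.H52.TP.Defs

open MeasureTheory Set Metric Topology Filter
open scoped ContDiff ComplexConjugate

namespace Pool.Agent.T6.H52.TP

theorem tr : StmtTR := by
  intro k H r G hk hR z h1 h2 h3
  have hk0 : (0:ℝ) < k := by exact_mod_cast (by omega : 0 < k)
  have hkR : (100:ℝ) ≤ k := by exact_mod_cast hk
  have he : 0 < ee k := by unfold ee; positivity
  have hke : (k:ℝ) * ee k = 1 := by unfold ee; field_simp
  have hle : ee k ≤ 1/100 := by
    unfold ee; exact one_div_le_one_div_of_le (by norm_num) hkR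
  have hz0 : 0 < ‖z‖ := lt_trans (Real.exp_pos _) h1
  unfold rhoD at h3
  set e := ee k with hedef
  set x : ℂ := z ^ k with hx
  have hlog : Real.log ‖z‖ = e ^ 2 * (r x).re := by linarith
  have hnz : ‖z‖ = Real.exp (e ^ 2 * (r x).re) := by rw [← hlog, Real.exp_log hz0]
  have hnx : ‖x‖ = Real.exp (e * (r x).re) := by
    rw [hx, norm_pow, hnz, ← Real.exp_nat_mul]
    congr 1
    calc (k:ℝ) * (e ^ 2 * (r (z ^ k)).re) = (k * e) * (e * (r (z ^ k)).re) := by ring
      _ = _ := by rw [hke, one_mul]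
  have hsq : ‖z‖ ^ 2 = Real.exp (2 * e ^ 2 * (r x).re) := by
    rw [hnz, ← Real.exp_nat_mul]
    congr 1; push_cast; ring
  have hxb : x ∈ ball (0:ℂ) (3/2) := by
    rw [mem_ball_zero_iff, hx, norm_pow]
    calc ‖z‖ ^ k ≤ (Real.exp (2 * e ^ 2)) ^ k := pow_le_pow_left₀ hz0.le h2.le k
      _ = Real.exp (k * (2 * e ^ 2)) := by rw [← Real.exp_nat_mul]
      _ = Real.exp (2 * e) := by
          congr 1
          calc (k:ℝ) * (2 * e ^ 2) = 2 * e * (k * e) := by ring
            _ = 2 * e := by rw [hke]; ring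
      _ ≤ Real.exp (1/50) := Real.exp_le_exp.mpr (by linarith)
      _ < 3 / 2 := by
          have := Real.exp_bound_div_one_sub_of_interval (x := 1/50) (by norm_num) (by norm_num)
          linarith [this]
  have heq := hR.eqn x hxb hnx
  rw [← hsq] at heq
  have hre := congrArg Complex.re heq
  have him := congrArg Complex.im heq
  have c1 : ((‖z‖ ^ 2 : ℝ) : ℂ) / 2 = (((‖z‖ ^ 2) / 2 : ℝ) : ℂ) := by push_cast; ring
  rw [c1] at hre him
  simp only [Complex.add_re, Complex.sub_re, Complex.conj_re, Complex.mul_re, Complex.one_re,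
    Complex.ofReal_re, Complex.add_im, Complex.one_im, Complex.ofReal_im, Complex.sub_im,
    Complex.conj_im, Complex.mul_im] at hre him
  unfold uI uO sI sO
  rw [← hx]
  constructor
  · have : (G x).re = ‖z‖ ^ 2 / 2 + e * (H x).re := by linarith
    rw [this]
    calc (k:ℝ) * (‖z‖ ^ 2 / 2 + e * (H x).re) - (2 * k + 1) * ‖z‖ ^ 2 / 4
        = (k * e) * (H x).re - ‖z‖ ^ 2 / 4 := by ring
      _ = _ := by rw [hke]; ring
  · have : (G x).im = (2 + e) * (H x).im := by linarith
    rw [this]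
    have h21 : (2 * (k:ℝ) + 1) ≠ 0 := by positivity
    calc (k:ℝ) / (2 * k + 1) * ((2 + e) * (H x).im)
        = (2 * k + k * e) / (2 * k + 1) * (H x).im := by ring
      _ = (H x).im := by rw [hke, div_self h21, one_mul]

end Pool.Agent.T6.H52.TP
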