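import Pool.Agent.T6.H52.TP.Defs

/-!
Project TP (helper52), MP_8dfb46_an, module TRANS (helper51): transport of the two-phase
overdetermined problem by a linear isometry.
-/

set_option autoImplicit false

open MeasureTheory Set Metric Topology Filter
open scoped ContDiff

namespace Pool.Agent.T6.H52.TP

namespace ModTRANS

variable {E F : Type*} [NormedAddCommGroup E] [InnerProductSpace ℝ E] [NormedAddCommGroup F]
  [InnerProductSpace ℝ F]

theorem fder (T : E ≃ₗᵢ[ℝ] F) (f : E → ℝ) (y : F) (h : F) :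
    fderiv ℝ (fun x => f (T.symm x)) y h = fderiv ℝ f (T.symm y) (T.symm h) := by
  have h1 := (T.symm.toContinuousLinearEquiv).comp_right_fderiv (𝕜 := ℝ) (f := f) (x := y)
  have h2 : (f ∘ (T.symm.toContinuousLinearEquiv : F → E)) = fun x => f (T.symm x) := rfl
  rw [h2] at h1
  rw [h1]
  rfl

theorem local_def (T : E ≃ₗᵢ[ℝ] F) {Ω : Set E} {x : E} {ρ : E → ℝ}
    (h : IsLocalDefining Ω x ρ) : IsLocalDefining (T '' Ω) (T x) (fun y => ρ (T.symm y)) := by
  obtain ⟨h0, h1, U, hU, hxU, hρ, hd⟩ := h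
  refine ⟨by simpa using h0, ?_, T '' U, T.toHomeomorph.isOpenMap U hU, ⟨x, hxU, rfl⟩, ?_, ?_⟩
  · intro h2
    apply h1
    ext v
    have h3 := fder T ρ (T x) (T v)
    rw [h2] at h3
    simpa using h3.symm
  · refine hρ.comp (T.symm.contDiff.contDiffOn) ?_
    rintro _ ⟨y, hy, rfl⟩
    simpa using hy
  · rintro _ ⟨y, hy, rfl⟩
    show T y ∈ T '' Ω ↔ ρ (T.symm (T y)) < 0
    rw [T.symm_apply_apply, ← hd y hy]
    exact T.injective.mem_set_image

theorem smooth (T : E ≃ₗᵢ[ℝ] F) {Ω : Set E} (h : SmoothDomain Ω) : SmoothDomain (T '' Ω) := by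
  refine ⟨T.toHomeomorph.isOpenMap Ω h.isOpen, h.isConnected.image _ T.continuous.continuousOn,
    ?_, ?_⟩
  · exact T.lipschitz.isBounded_image h.isBounded
  · intro y hy
    have h1 : y ∈ T '' frontier Ω := by
      have h2 := T.toHomeomorph.image_frontier Ω
      rw [show (T '' frontier Ω) = T.toHomeomorph '' frontier Ω from rfl, h2]
      exact hy
    obtain ⟨x, hx, rfl⟩ := h1
    obtain ⟨ρ, hρ⟩ := h.smooth x hx
    exact ⟨_, local_def T hρ⟩

theorem normal (T : E ≃ₗᵢ[ℝ] F) {Ω : Set E} {x n : E} (h : IsOuterNormal Ω x n) :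
    IsOuterNormal (T '' Ω) (T x) (T n) := by
  obtain ⟨h0, ρ, hρ, l, hl, h1⟩ := h
  refine ⟨by rw [T.norm_map, h0], _, local_def T hρ, l, hl, fun v => ?_⟩
  rw [fder, T.symm_apply_apply, h1]
  congr 1
  rw [← T.inner_map_map n (T.symm v), T.apply_symm_apply]

theorem image_symm (T : E ≃ₗᵢ[ℝ] F) (Ω : Set E) : T.symm '' (T '' Ω) = Ω := by
  rw [← image_comp]
  simp

theorem normal_back (T : E ≃ₗᵢ[ℝ] F) {Ω : Set E} {y n : F} (h : IsOuterNormal (T '' Ω) y n) :
    IsOuterNormal Ω (T.symm y) (T.symm n) := by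
  have h1 := normal T.symm h
  rwa [image_symm] at h1

theorem convex_iff (T : E ≃ₗᵢ[ℝ] F) (Ω : Set E) (h : Convex ℝ (T '' Ω)) : Convex ℝ Ω := by
  have h1 := h.linear_image (T.symm.toLinearEquiv : F →ₗ[ℝ] E)
  have h2 : ((T.symm.toLinearEquiv : F →ₗ[ℝ] E) '' (T '' Ω)) = Ω := image_symm T Ω
  rwa [h2] at h1

theorem convex_image (T : E ≃ₗᵢ[ℝ] F) {Ω : Set E} (h : Convex ℝ Ω) : Convex ℝ (T '' Ω) :=
  h.linear_image (T.toLinearEquiv : E →ₗ[ℝ] F)

theorem closure_image (T : E ≃ₗᵢ[ℝ] F) (Ω : Set E) : closure (T '' Ω) = T '' closure Ω :=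
  (T.toHomeomorph.image_closure Ω).symm

theorem frontier_image (T : E ≃ₗᵢ[ℝ] F) (Ω : Set E) : frontier (T '' Ω) = T '' frontier Ω :=
  (T.toHomeomorph.image_frontier Ω).symm

theorem sig_image (T : E ≃ₗᵢ[ℝ] F) (σc : ℝ) (D : Set E) (x : E) :
    sig σc (T '' D) (T x) = sig σc D x := by
  unfold sig
  by_cases h : x ∈ D
  · rw [if_pos h, if_pos (T.injective.mem_set_image.2 h)]
  · rw [if_neg h, if_neg (fun h1 => h (T.injective.mem_set_image.1 h1))]

section fd

variable [FiniteDimensional ℝ E] [MeasurableSpace E] [BorelSpace E] [FiniteDimensional ℝ F]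
  [MeasurableSpace F] [BorelSpace F]

theorem inner_grad (T : E ≃ₗᵢ[ℝ] F) (u η : E → ℝ) (y : F) :
    inner ℝ (gradient (fun x => u (T.symm x)) y) (gradient (fun x => η (T.symm x)) y) =
      inner ℝ (gradient u (T.symm y)) (gradient η (T.symm y)) := by
  have h1 : ∀ f : E → ℝ, gradient (fun x => f (T.symm x)) y = T (gradient f (T.symm y)) := by
    intro f
    refine ext_inner_right ℝ fun v => ?_
    rw [inner_gradient_left, fder, ← inner_gradient_left,
      ← T.inner_map_map (gradient f (T.symm y)) (T.symm v), T.apply_symm_apply]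
  rw [h1, h1, T.inner_map_map]

theorem solution (T : E ≃ₗᵢ[ℝ] F) {σc : ℝ} {D Ω : Set E} {c : ℝ} {u : E → ℝ}
    (h : IsSolution σc D Ω c u) :
    IsSolution σc (T '' D) (T '' Ω) c (fun x => u (T.symm x)) := by
  refine ⟨?_, ?_, ?_, ?_⟩
  · obtain ⟨C, hC⟩ := h.lip
    refine ⟨C * 1, hC.comp T.symm.lipschitz⟩
  · intro y hy
    refine h.zero _ fun h1 => hy ⟨_, h1, T.apply_symm_apply y⟩
  · intro η hη hηc hηs
    have h1 := h.weak (fun x => η (T x)) (hη.comp T.contDiff)
      (hηc.comp_homeomorph T.toHomeomorph) (by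
        have h2 := tsupport_comp_eq_preimage η T.toHomeomorph
        have h3 : tsupport (fun x => η (T x)) = T ⁻¹' tsupport η := h2
        rw [h3]
        intro x hx
        obtain ⟨x', hx', he⟩ := hηs hx
        rwa [T.injective he] at hx')
    have hmp := T.measurePreserving
    have hme : MeasurableEmbedding T := T.toHomeomorph.measurableEmbedding
    rw [← hmp.integral_comp hme, ← hmp.integral_comp hme, ← h1]
    refine integral_congr_ae (ae_of_all _ fun x => ?_)
    have h4 := inner_grad T u (fun x => η (T x)) (T x)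
    simp only [T.symm_apply_apply, T.apply_symm_apply] at h4
    show sig σc (T '' D) (T x) * _ = sig σc D x * _
    rw [sig_image, h4]
  · obtain ⟨U, v, hU, hfU, hv, hvu, hn, hd⟩ := h.bdry
    refine ⟨T '' U, fun y => v (T.symm y), T.toHomeomorph.isOpenMap U hU, ?_, ?_, ?_, ?_, ?_⟩
    · rw [frontier_image]
      exact image_mono hfU
    · refine hv.comp (T.symm.contDiff.contDiffOn) ?_
      rintro _ ⟨y, hy, rfl⟩
      simpa using hy
    · rintro y ⟨⟨x, hx, rfl⟩, hy⟩
      rw [closure_image] at hy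
      have hx' : x ∈ closure Ω := T.injective.mem_set_image.1 hy
      simp only [T.symm_apply_apply]
      exact hvu x ⟨hx, hx'⟩
    · intro y hy
      rw [frontier_image] at hy
      obtain ⟨x, hx, rfl⟩ := hy
      obtain ⟨n, hn'⟩ := hn x hx
      exact ⟨T n, normal T hn'⟩
    · intro y hy n hn'
      rw [frontier_image] at hy
      obtain ⟨x, hx, rfl⟩ := hy
      have h1 := normal_back T hn'
      rw [T.symm_apply_apply] at h1
      rw [fder, T.symm_apply_apply]
      exact hd x hx _ h1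

end fd

end ModTRANS

open ModTRANS in
theorem trans : StmtTRANS := by
  intro T σc D Ω c u hD hDc hΩ hDΩ hu hΩc
  refine ⟨smooth T hD, convex_image T hDc, smooth T hΩ, ?_, solution T hu,
    fun h => hΩc (convex_iff T Ω h)⟩
  rw [closure_image]
  exact image_mono hDΩ

end Pool.Agent.T6.H52.TP
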