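import Pool.Agent.T6.H52.TP.Defs

/-!
# MP_8dfb46_an, module VOL
-/

set_option autoImplicit false

open MeasureTheory Set Metric Topology Filter
open scoped ContDiff ComplexConjugate

namespace Pool.Agent.T6.H52.TP

theorem vol : StmtVOL := by
  intro D Ω hD hΩ hsub
  have hfin : volume Ω < ⊤ := hΩ.isBounded.measure_lt_top
  refine ⟨?_, hfin⟩
  have hWo : IsOpen (Ω \ closure D) := hΩ.isOpen.sdiff isClosed_closure
  have hWne : (Ω \ closure D).Nonempty := by
    by_contra hcon
    rw [not_nonempty_iff_eq_empty, sdiff_eq_empty] at hcon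
    have heq : Ω = closure D := Subset.antisymm hcon hsub
    have hclopen : IsClopen Ω := ⟨by rw [heq]; exact isClosed_closure, hΩ.isOpen⟩
    rcases isClopen_iff.mp hclopen with h | h
    · exact hΩ.isConnected.nonempty.ne_empty h
    · have hb := hΩ.isBounded
      rw [h] at hb
      exact NormedSpace.unbounded_univ ℝ (EuclideanSpace ℝ (Fin 2)) hb
  have hWpos : 0 < volume (Ω \ closure D) := hWo.measure_pos volume hWne
  have h1 : volume Ω = volume (closure D) + volume (Ω \ closure D) := by
    rw [← measure_union disjoint_sdiff_right hWo.measurableSet, union_sdiff_cancel hsub]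
  have h2 : volume (closure D) ≠ ⊤ := ((measure_mono hsub).trans_lt hfin).ne
  calc volume D ≤ volume (closure D) := measure_mono subset_closure
    _ < volume (closure D) + volume (Ω \ closure D) := ENNReal.lt_add_right h2 hWpos.ne'
    _ = volume Ω := h1.symm

end Pool.Agent.T6.H52.TP
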