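import Pool.Agent.T6.H52.TP.Defs

/-! WEAK: weak formulation from the stream function. -/

open MeasureTheory Set Metric Topology Filter
open scoped ContDiff ComplexConjugate

namespace Pool.Agent.T6.H52.TP

namespace ModWEAK

/-- integration by parts, Lipschitz times compactly supported `C¹`. -/
lemma ibp {f g : ℂ → ℝ} {C : NNReal} (hf : LipschitzWith C f) (hg : ContDiff ℝ 1 g)
    (hc : HasCompactSupport g) (v : ℂ) :
    ∫ x, fderiv ℝ f x v * g x = - ∫ x, f x * fderiv ℝ g x v := by
  obtain ⟨D, hD⟩ := hg.lipschitzWith_of_hasCompactSupport hc (by norm_num)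
  have h := hf.integral_lineDeriv_mul_eq (μ := (volume : Measure ℂ)) hD hc v
  have h1 : ∫ x, fderiv ℝ f x v * g x = ∫ x, lineDeriv ℝ f x v * g x := by
    apply integral_congr_ae
    filter_upwards [hf.ae_differentiableAt (μ := (volume : Measure ℂ))] with x hx
    rw [hx.lineDeriv_eq_fderiv]
  rw [h1, h, ← integral_neg]
  apply integral_congr_ae
  filter_upwards with x
  have hd : DifferentiableAt ℝ g x := (hg.differentiable (by norm_num)) x
  rw [hd.lineDeriv_eq_fderiv, map_neg]
  ring

lemma inner_grad (u w : ℂ → ℝ) (x : ℂ) :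
    inner ℝ (gradient u x) (gradient w x) =
      fderiv ℝ u x 1 * fderiv ℝ w x 1 + fderiv ℝ u x Complex.I * fderiv ℝ w x Complex.I := by
  have h := Complex.orthonormalBasisOneI.sum_inner_mul_inner (gradient u x) (gradient w x)
  rw [← h, Fin.sum_univ_two]
  have e0 : Complex.orthonormalBasisOneI 0 = (1 : ℂ) := by simp
  have e1 : Complex.orthonormalBasisOneI 1 = Complex.I := by simp
  rw [e0, e1]
  have g1 : ∀ (f : ℂ → ℝ) (y : ℂ), inner ℝ (gradient f x) y = fderiv ℝ f x y := by
    intro f y
    unfold gradient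
    exact InnerProductSpace.toDual_symm_apply
  rw [g1, g1, real_inner_comm, g1, real_inner_comm, g1]

lemma integrable_fd {s g : ℂ → ℝ} {L : NNReal} (hs : LipschitzWith L s) (hg : Continuous g)
    (hc : HasCompactSupport g) (v : ℂ) : Integrable (fun x => fderiv ℝ s x v * g x) := by
  have hgi : Integrable g := hg.integrable_of_hasCompactSupport hc
  have hm : AEStronglyMeasurable (fun x => fderiv ℝ s x v) (volume : Measure ℂ) :=
    (measurable_fderiv_apply_const ℝ s v).aestronglyMeasurable
  refine hgi.bdd_mul (c := L * ‖v‖) hm (Eventually.of_forall fun x => ?_)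
  exact (ContinuousLinearMap.le_opNorm _ _).trans
    (mul_le_mul_of_nonneg_right (norm_fderiv_le_of_lipschitz ℝ hs) (norm_nonneg _))

end ModWEAK

open ModWEAK in
theorem weak : StmtWEAK := by
  intro σc D Ω u s Lu Ls hD hΩ hfr hu hs hst η hη hc hsub
  have hη1 : ContDiff ℝ 1 η := hη.of_le (by exact_mod_cast le_top)
  -- the two partial derivatives of `η`
  have hfd : ContDiff ℝ ∞ (fderiv ℝ η) := hη.fderiv_right (by simp)
  have hdir : ∀ v : ℂ, ContDiff ℝ ∞ (fun z => fderiv ℝ η z v) := fun v =>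
    hfd.clm_apply contDiff_const
  have hdirc : ∀ v : ℂ, HasCompactSupport (fun z => fderiv ℝ η z v) := by
    intro v
    exact (hc.fderiv ℝ).comp_left (g := fun L : ℂ →L[ℝ] ℝ => L v) (by simp)
  -- pointwise identity almost everywhere
  have hae : (fun x => sig σc D x * inner ℝ (gradient u x) (gradient η x)) =ᵐ[volume]
      fun z => ((-z.re / 2) * fderiv ℝ η z 1 + fderiv ℝ s z Complex.I * fderiv ℝ η z 1) +
        ((-z.im / 2) * fderiv ℝ η z Complex.I - fderiv ℝ s z 1 * fderiv ℝ η z Complex.I) := by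
    have h0 : ∀ᵐ z ∂(volume : Measure ℂ), z ∉ frontier D := by
      rw [ae_iff]
      simpa using hfr
    filter_upwards [h0] with z hz
    rw [inner_grad]
    by_cases hzΩ : z ∈ Ω
    · obtain ⟨h1, h2⟩ := hst z hzΩ hz
      have : sig σc D z * (fderiv ℝ u z 1 * fderiv ℝ η z 1 +
          fderiv ℝ u z Complex.I * fderiv ℝ η z Complex.I) =
          (sig σc D z * fderiv ℝ u z 1) * fderiv ℝ η z 1 +
          (sig σc D z * fderiv ℝ u z Complex.I) * fderiv ℝ η z Complex.I := by ring
      rw [this, h1, h2]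
      ring
    · have hz' : z ∉ tsupport η := fun h => hzΩ (hsub h)
      have hz2 : fderiv ℝ η z = 0 := by
        by_contra hne
        exact hz' (support_fderiv_subset ℝ hne)
      rw [hz2]
      simp
  rw [integral_congr_ae hae]
  -- integrability
  have i1 : Integrable (fun z : ℂ => (-z.re / 2) * fderiv ℝ η z 1) := by
    apply Continuous.integrable_of_hasCompactSupport
    · exact ((Complex.continuous_re.neg).div_const 2).mul (hdir 1).continuous
    · exact (hdirc 1).mul_left
  have i2 : Integrable (fun z : ℂ => (-z.im / 2) * fderiv ℝ η z Complex.I) := by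
    apply Continuous.integrable_of_hasCompactSupport
    · exact ((Complex.continuous_im.neg).div_const 2).mul (hdir Complex.I).continuous
    · exact (hdirc Complex.I).mul_left
  have i3 : Integrable (fun z : ℂ => fderiv ℝ s z Complex.I * fderiv ℝ η z 1) :=
    integrable_fd hs (hdir 1).continuous (hdirc 1) Complex.I
  have i4 : Integrable (fun z : ℂ => fderiv ℝ s z 1 * fderiv ℝ η z Complex.I) :=
    integrable_fd hs (hdir Complex.I).continuous (hdirc Complex.I) 1
  have hre : LipschitzWith 1 (fun z : ℂ => z.re) := by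
    refine LipschitzWith.of_dist_le_mul fun x y => ?_
    rw [Real.dist_eq, dist_eq_norm, ← Complex.sub_re, NNReal.coe_one, one_mul]
    exact Complex.abs_re_le_norm _
  have him : LipschitzWith 1 (fun z : ℂ => z.im) := by
    refine LipschitzWith.of_dist_le_mul fun x y => ?_
    rw [Real.dist_eq, dist_eq_norm, ← Complex.sub_im, NNReal.coe_one, one_mul]
    exact Complex.abs_im_le_norm _
  have e1 : ∫ z : ℂ, (-z.re / 2) * fderiv ℝ η z 1 = (1 / 2) * ∫ z, η z := by
    have h := ibp hre hη1 hc 1
    have h2 : ∀ z : ℂ, fderiv ℝ (fun z : ℂ => z.re) z 1 = 1 := by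
      intro z
      have : fderiv ℝ (fun z : ℂ => z.re) z = Complex.reCLM := Complex.reCLM.fderiv
      rw [this]; simp
    simp only [h2, one_mul] at h
    have h3 : ∫ z : ℂ, (-z.re / 2) * fderiv ℝ η z 1 = (-1 / 2) * ∫ z : ℂ, z.re * fderiv ℝ η z 1 := by
      rw [← integral_const_mul]
      congr 1
      funext z
      ring
    rw [h3, h]
    ring
  have e2 : ∫ z : ℂ, (-z.im / 2) * fderiv ℝ η z Complex.I = (1 / 2) * ∫ z, η z := by
    have h := ibp him hη1 hc Complex.I
    have h2 : ∀ z : ℂ, fderiv ℝ (fun z : ℂ => z.im) z Complex.I = 1 := by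
      intro z
      have : fderiv ℝ (fun z : ℂ => z.im) z = Complex.imCLM := Complex.imCLM.fderiv
      rw [this]; simp
    simp only [h2, one_mul] at h
    have h3 : ∫ z : ℂ, (-z.im / 2) * fderiv ℝ η z Complex.I =
        (-1 / 2) * ∫ z : ℂ, z.im * fderiv ℝ η z Complex.I := by
      rw [← integral_const_mul]
      congr 1
      funext z
      ring
    rw [h3, h]
    ring
  have e3 : ∫ z : ℂ, fderiv ℝ s z Complex.I * fderiv ℝ η z 1 =
      ∫ z : ℂ, fderiv ℝ s z 1 * fderiv ℝ η z Complex.I := by
    rw [ibp hs ((hdir 1).of_le (by exact_mod_cast le_top)) (hdirc 1) Complex.I,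
      ibp hs ((hdir Complex.I).of_le (by exact_mod_cast le_top)) (hdirc Complex.I) 1]
    congr 2
    funext z
    congr 1
    have hdf : DifferentiableAt ℝ (fderiv ℝ η) z := (hfd.differentiable (by simp)) z
    have k : ∀ v w : ℂ, fderiv ℝ (fun z => fderiv ℝ η z v) z w = fderiv ℝ (fderiv ℝ η) z w v := by
      intro v w
      have := (hdf.hasFDerivAt.clm_apply (hasFDerivAt_const v z)).fderiv
      rw [this]
      simp
    rw [k, k]
    have hsymm : IsSymmSndFDerivAt ℝ η z := (hη.contDiffAt).isSymmSndFDerivAt (by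
      rw [minSmoothness_of_isRCLikeNormedField]
      have h2 : ((2 : ℕ∞) : WithTop ℕ∞) ≤ ((⊤ : ℕ∞) : WithTop ℕ∞) := WithTop.coe_le_coe.2 le_top
      exact h2)
    exact hsymm Complex.I 1
  have t1 : ∫ z : ℂ, (((-z.re / 2) * fderiv ℝ η z 1 + fderiv ℝ s z Complex.I * fderiv ℝ η z 1) +
        ((-z.im / 2) * fderiv ℝ η z Complex.I - fderiv ℝ s z 1 * fderiv ℝ η z Complex.I)) =
      (∫ z : ℂ, ((-z.re / 2) * fderiv ℝ η z 1 + fderiv ℝ s z Complex.I * fderiv ℝ η z 1)) +
        ∫ z : ℂ, ((-z.im / 2) * fderiv ℝ η z Complex.I -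
          fderiv ℝ s z 1 * fderiv ℝ η z Complex.I) := integral_add (i1.add i3) (i2.sub i4)
  rw [t1, integral_add i1 i3, integral_sub i2 i4, e1, e2, e3]
  ring

end Pool.Agent.T6.H52.TP
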