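import Pool.Agent.T6.H52.TP.Defs
import Pool.Agent.T6.H52.TP.Lau
import Pool.Agent.T6.H52.TP.Prim
import Pool.Agent.T6.H52.TP.Kb
import Pool.Agent.T6.H52.TP.Ff
import Pool.Agent.T6.H52.TP.Inv
import Pool.Agent.T6.H52.TP.Hh
import Pool.Agent.T6.H52.TP.Fpa
import Pool.Agent.T6.H52.TP.Fpb
import Pool.Agent.T6.H52.TP.Rr
import Pool.Agent.T6.H52.TP.Geo
import Pool.Agent.T6.H52.TP.Gd
import Pool.Agent.T6.H52.TP.Go
import Pool.Agent.T6.H52.TP.Conv
import Pool.Agent.T6.H52.TP.Psi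
import Pool.Agent.T6.H52.TP.Cvx
import Pool.Agent.T6.H52.TP.Ncx
import Pool.Agent.T6.H52.TP.Bc
import Pool.Agent.T6.H52.TP.Tr
import Pool.Agent.T6.H52.TP.Reg
import Pool.Agent.T6.H52.TP.Glue
import Pool.Agent.T6.H52.TP.Lu
import Pool.Agent.T6.H52.TP.Ls
import Pool.Agent.T6.H52.TP.Weak
import Pool.Agent.T6.H52.TP.Norm
import Pool.Agent.T6.H52.TP.Vol
import Pool.Agent.T6.H52.TP.Trans
import Pool.Agent.T6.H52.TP.Sol
import Pool.Agent.T6.H52.TP.Fin

namespace Pool.Agent.T6.H52.TP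

theorem hh_all : StmtHH := hh (ff (prim lau) kb) inv
theorem rr_all : StmtRR := rr (fpb lau fpa) inv
theorem lu_all : StmtLU := lu geo gd go reg bc tr glue
theorem ls_all : StmtLS := ls geo gd go reg tr glue
theorem cvx_all : StmtCVX := cvx conv psi
theorem sol_all : StmtSOL :=
  sol geo gd go reg bc cvx_all lu_all ls_all weak norm_unique
theorem counterexample : Counterexample :=
  counterexample_of hh_all rr_all sol_all geo gd go cvx_all ncx
theorem notQ1 : ¬ Q1 := not_Q1_of counterexample vol trans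

end Pool.Agent.T6.H52.TP
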