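import Pool.Agent.T6.H52.TP.Problem

/-!
# MP_8dfb46_an : the two-phase outer overdetermined problem.  Definitions and module statements.

Part 0: the problem (for a general Euclidean space `E`).
Part 1: analysis (annulus, reflection, the explicit outer domain, fixed point problem).
Part 2: geometry in the z-plane (`k`-fold symmetric domains, `e = 1/k`).
-/

open MeasureTheory Set Metric Topology Filter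
open scoped ContDiff ComplexConjugate

namespace Pool.Agent.T6.H52.TP

/-- The counterexample in the plane `ℂ`. -/
def Counterexample : Prop :=
  ∃ (σc : ℝ) (D Ω : Set ℂ) (c : ℝ) (u : ℂ → ℝ), 0 < σc ∧ σc ≠ 1 ∧ SmoothDomain D ∧ Convex ℝ D ∧
    SmoothDomain Ω ∧ closure D ⊆ Ω ∧ IsSolution σc D Ω c u ∧ ¬ Convex ℝ Ω

/-! ## Part 1: analysis -/

/-- the annulus `1/R < |v| < R` -/
def Ann (R : ℝ) : Set ℂ := {v | 1 / R < ‖v‖ ∧ ‖v‖ < R}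

/-- reflection of a function in the unit circle, `f*(v) = conj (f (1 / conj v))` -/
noncomputable def rfc (f : ℂ → ℂ) : ℂ → ℂ := fun v => conj (f (1 / conj v))

/-- LAU: Laurent splitting of a bounded holomorphic function on `Ann R`, as a linear operation. -/
def StmtLAU : Prop := ∀ R : ℝ, 1 < R → ∃ K : ℝ, 0 < K ∧ ∃ G Hh : (ℂ → ℂ) → (ℂ → ℂ),
  (∀ (f : ℂ → ℂ) (M : ℝ), DifferentiableOn ℂ f (Ann R) → (∀ v ∈ Ann R, ‖f v‖ ≤ M) →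
     DifferentiableOn ℂ (G f) (ball 0 R) ∧ DifferentiableOn ℂ (Hh f) (ball 0 R) ∧ G f 0 = 0 ∧
     (∀ v ∈ ball (0:ℂ) R, ‖G f v‖ ≤ K * M ∧ ‖Hh f v‖ ≤ K * M) ∧
     ∀ v ∈ Ann R, f v = G f v + rfc (Hh f) v) ∧
  (∀ (f₁ f₂ : ℂ → ℂ) (M : ℝ), DifferentiableOn ℂ f₁ (Ann R) → DifferentiableOn ℂ f₂ (Ann R) →
     (∀ v ∈ Ann R, ‖f₁ v - f₂ v‖ ≤ M) → ∀ v ∈ ball (0:ℂ) R, ‖G f₁ v - G f₂ v‖ ≤ K * M)

/-- PRIM: primitive of a function which is symmetric under reflection and has mean zero. -/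
def StmtPRIM : Prop := ∀ R : ℝ, 1 < R → ∃ K : ℝ, 0 < K ∧ ∀ (f : ℂ → ℂ) (M : ℝ),
  DifferentiableOn ℂ f (Ann R) → (∀ v ∈ Ann R, ‖f v‖ ≤ M) → (∀ v ∈ Ann R, rfc f v = f v) →
  (∫ t in (0:ℝ)..2 * Real.pi, f (Complex.exp (t * Complex.I))) = 0 →
  ∃ F : ℂ → ℂ, DifferentiableOn ℂ F (Ann R) ∧ (∀ v ∈ Ann R, ‖F v‖ ≤ K * M) ∧
    (∀ v ∈ Ann R, v * deriv F v = f v) ∧ (∀ v : ℂ, ‖v‖ = 1 → (F v).re = 0)

/-- `P(V) = 3 + V + 1/V` -/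
noncomputable def PP (V : ℂ) : ℂ := 3 + (V + V⁻¹)
/-- `Q(V) = V P'(V)` -/
noncomputable def QQ (V : ℂ) : ℂ := V - V⁻¹
/-- `J = √(1 - e²Q²)` -/
noncomputable def JJ (e : ℝ) (V : ℂ) : ℂ := Complex.exp (Complex.log (1 - (e * QQ V) ^ 2) / 2)
/-- `K = e^{2e²P}/2 - c e^{e²P} J` -/
noncomputable def KK (e c : ℝ) (V : ℂ) : ℂ :=
  Complex.exp (2 * e ^ 2 * PP V) / 2 - c * (Complex.exp (e ^ 2 * PP V) * JJ e V)

/-- the real values on the unit circle, `y = Re V = cos t`, `s = Im V = sin t`: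
`p = 3 + 2y`, `A = exp(2e²p)/2`, `B = exp(e²p) √(1+4e²s²)` -/
noncomputable def rA (e y : ℝ) : ℝ := Real.exp (2 * e ^ 2 * (3 + 2 * y)) / 2
noncomputable def rB (e y s : ℝ) : ℝ :=
  Real.exp (e ^ 2 * (3 + 2 * y)) * Real.sqrt (1 + 4 * e ^ 2 * s ^ 2)

/-- KB: properties of the function `K` -/
def StmtKB : Prop := ∃ C e₀ : ℝ, 0 < C ∧ 0 < e₀ ∧ ∀ e : ℝ, 0 < e → e < e₀ → ∃ c : ℝ, 0 < c ∧
  DifferentiableOn ℂ (KK e c) (Ann 4) ∧ (∀ V ∈ Ann 4, ‖KK e c V‖ ≤ C * e ^ 2) ∧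
  (∀ V ∈ Ann 4, rfc (KK e c) V = KK e c V) ∧
  (∫ t in (0:ℝ)..2 * Real.pi, KK e c (Complex.exp (t * Complex.I))) = 0 ∧
  ∀ V : ℂ, ‖V‖ = 1 → KK e c V = ((rA e V.re - c * rB e V.re V.im : ℝ) : ℂ)

/-- properties of the outer potential `F` as a function of the uniformising variable `V` -/
structure FProp (C e c : ℝ) (F : ℂ → ℂ) : Prop where
  diff : DifferentiableOn ℂ F (Ann 4)
  small : ∀ V ∈ Ann 4, ‖F V - 1 / 4‖ ≤ C * e ^ 2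
  asym : ∀ V ∈ Ann 4, ‖F V - rfc F V‖ ≤ C * e ^ 3
  re : ∀ V : ℂ, ‖V‖ = 1 → (F V).re = rA e V.re / 2
  der : ∀ V : ℂ, ‖V‖ = 1 → V * deriv F V =
    e * ((rA e V.re : ℂ) * (1 + 2 * e * V.im * Complex.I) - (c * rB e V.re V.im : ℝ))

/-- FF -/
def StmtFF : Prop := ∃ C e₀ : ℝ, 0 < C ∧ 0 < e₀ ∧ ∀ e : ℝ, 0 < e → e < e₀ →
  ∃ c : ℝ, 0 < c ∧ ∃ F : ℂ → ℂ, FProp C e c F

/-- INV: inversion by iteration: `s(x) = f(x exp(-e s(x)))` -/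
def StmtINV : Prop := ∀ (U U' : Set ℂ) (f : ℂ → ℂ) (C e : ℝ), IsOpen U → IsOpen U' →
  DifferentiableOn ℂ f U → (∀ x ∈ U, ‖f x‖ ≤ C) →
  (∀ x ∈ U', ∀ y : ℂ, ‖y‖ < 1 / 4 → x * Complex.exp y ∈ U) → 0 < C → 0 < e → e * C ≤ 1 / 64 →
  ∃ s : ℂ → ℂ, DifferentiableOn ℂ s U' ∧
    (∀ x ∈ U', ‖s x‖ ≤ C ∧ s x = f (x * Complex.exp (-(e * s x)))) ∧
    ∀ x ∈ U', ∀ y : ℂ, ‖y‖ ≤ C → y = f (x * Complex.exp (-(e * y))) → s x = y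

/-- the boundary of the outer domain in the `x = z^k` plane: `x = exp(e(3+2cos t) + i t)` -/
noncomputable def xx (e t : ℝ) : ℂ :=
  Complex.exp ((e * (3 + 2 * Real.cos t) : ℝ) + (t : ℂ) * Complex.I)

/-- properties of the outer potential `H` as a function of `x = z^k` -/
structure HProp (C e c : ℝ) (H : ℂ → ℂ) : Prop where
  diff : DifferentiableOn ℂ H (Ann 3)
  small : ∀ x ∈ Ann 3, ‖H x - 1 / 4‖ ≤ C * e ^ 2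
  asym : ∀ x ∈ Ann 3, ‖H x - rfc H x‖ ≤ C * e ^ 3
  re : ∀ t : ℝ, (H (xx e t)).re = rA e (Real.cos t) / 2
  der : ∀ t : ℝ, xx e t * deriv H (xx e t) =
    e * ((rA e (Real.cos t) : ℂ) -
      (c * rB e (Real.cos t) (Real.sin t) : ℝ) / (1 + 2 * e * Real.sin t * Complex.I))

/-- HH -/
def StmtHH : Prop := ∃ C e₀ : ℝ, 0 < C ∧ 0 < e₀ ∧ ∀ e : ℝ, 0 < e → e < e₀ →
  ∃ c : ℝ, 0 < c ∧ ∃ H : ℂ → ℂ, HProp C e c H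

/-- the composed function `A_q(v) = H(v exp(e q(v)))` -/
noncomputable def AA (e : ℝ) (H q : ℂ → ℂ) (v : ℂ) : ℂ := H (v * Complex.exp (e * q v))
/-- `E(y) = (exp(e²y) - 1 - e²y) / (2e²)` -/
noncomputable def EE (e : ℝ) (y : ℂ) : ℂ :=
  (Complex.exp (e ^ 2 * y) - 1 - e ^ 2 * y) / (2 * e ^ 2)
/-- the nonlinear map of the inner problem -/
noncomputable def NN (e : ℝ) (H q : ℂ → ℂ) (v : ℂ) : ℂ :=
  EE e (q v + rfc q v) - (AA e H q v - rfc (AA e H q) v) / e ^ 2 +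
    (rfc (AA e H q) v - 1 / 4) / e

/-- hypotheses on `H` used in the fixed point problem -/
def HHyp (C e : ℝ) (H : ℂ → ℂ) : Prop := DifferentiableOn ℂ H (Ann 3) ∧
  (∀ x ∈ Ann 3, ‖H x - 1 / 4‖ ≤ C * e ^ 2) ∧ (∀ x ∈ Ann 3, ‖H x - rfc H x‖ ≤ C * e ^ 3)

/-- the class of unknowns -/
def QHyp (q : ℂ → ℂ) : Prop := DifferentiableOn ℂ q (ball 0 2) ∧ q 0 = 0 ∧
  ∀ v ∈ ball (0:ℂ) 2, ‖q v‖ ≤ 1 / 100

/-- FPA: estimates for the nonlinear map -/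
def StmtFPA : Prop := ∀ C : ℝ, 0 < C → ∃ L : ℝ, 0 < L ∧ ∀ e : ℝ, 0 < e → e < 1 →
  ∀ H : ℂ → ℂ, HHyp C e H →
    (∀ q, QHyp q → DifferentiableOn ℂ (NN e H q) (Ann 2) ∧ ∀ v ∈ Ann 2, ‖NN e H q v‖ ≤ L * e) ∧
    (∀ q₁ q₂, QHyp q₁ → QHyp q₂ → ∀ M : ℝ, (∀ v ∈ ball (0:ℂ) 2, ‖q₁ v - q₂ v‖ ≤ M) →
      ∀ v ∈ Ann 2, ‖NN e H q₁ v - NN e H q₂ v‖ ≤ L * e * M)

/-- FPB: solution of the inner free boundary problem -/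
def StmtFPB : Prop := ∀ C : ℝ, 0 < C → ∃ e₀ : ℝ, 0 < e₀ ∧ ∀ e : ℝ, 0 < e → e < e₀ →
  ∀ H : ℂ → ℂ, HHyp C e H → ∃ q g : ℂ → ℂ, QHyp q ∧ DifferentiableOn ℂ g (ball 0 2) ∧
    ∀ v : ℂ, ‖v‖ = 1 →
      (Real.exp (2 * e ^ 2 * (q v).re) : ℂ) / 2 - conj (H (v * Complex.exp (e * q v))) +
        (1 + e) * H (v * Complex.exp (e * q v)) = g v

/-- the data on the side of the core, in the variable `x = z^k` -/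
structure RProp (e : ℝ) (H r G : ℂ → ℂ) : Prop where
  rdiff : DifferentiableOn ℂ r (ball 0 (3/2))
  rsmall : ∀ x ∈ ball (0:ℂ) (3/2), ‖r x‖ ≤ 1 / 100
  gdiff : DifferentiableOn ℂ G (ball 0 (3/2))
  eqn : ∀ x ∈ ball (0:ℂ) (3/2), ‖x‖ = Real.exp (e * (r x).re) →
    (Real.exp (2 * e ^ 2 * (r x).re) : ℂ) / 2 - conj (H x) + (1 + e) * H x = G x

/-- RR -/
def StmtRR : Prop := ∀ C : ℝ, 0 < C → ∃ e₀ : ℝ, 0 < e₀ ∧ ∀ e : ℝ, 0 < e → e < e₀ →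
  ∀ H : ℂ → ℂ, HHyp C e H → ∃ r G : ℂ → ℂ, RProp e H r G

/-! ## Part 2: geometry -/

/-- star-shaped domain described by a function `ρ` on the annulus `r₁ < |z| < r₂` -/
def Dom (r₁ s₁ r₂ : ℝ) (ρ : ℂ → ℝ) : Set ℂ := {z | ‖z‖ ≤ s₁ ∨ (r₁ < ‖z‖ ∧ ‖z‖ < r₂ ∧ ρ z < 0)}

structure GeoHyp (r₁ s₁ s₂ r₂ : ℝ) (ρ : ℂ → ℝ) : Prop where
  h0 : 0 < r₁
  h1 : r₁ < s₁
  h2 : s₁ < s₂
  h3 : s₂ < r₂
  smooth : ContDiffOn ℝ ∞ ρ {z | r₁ < ‖z‖ ∧ ‖z‖ < r₂}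
  rad : ∀ z : ℂ, r₁ < ‖z‖ → ‖z‖ < r₂ → 0 < fderiv ℝ ρ z z
  neg : ∀ z : ℂ, r₁ < ‖z‖ → ‖z‖ ≤ s₁ → ρ z < 0
  pos : ∀ z : ℂ, s₂ ≤ ‖z‖ → ‖z‖ < r₂ → 0 < ρ z

/-- GEO: topology and smoothness of such domains -/
def StmtGEO : Prop := ∀ (r₁ s₁ s₂ r₂ : ℝ) (ρ : ℂ → ℝ), GeoHyp r₁ s₁ s₂ r₂ ρ →
  SmoothDomain (Dom r₁ s₁ r₂ ρ) ∧
  frontier (Dom r₁ s₁ r₂ ρ) = {z | r₁ < ‖z‖ ∧ ‖z‖ < r₂ ∧ ρ z = 0} ∧
  closure (Dom r₁ s₁ r₂ ρ) = {z | ‖z‖ ≤ s₁ ∨ (r₁ < ‖z‖ ∧ ‖z‖ < r₂ ∧ ρ z ≤ 0)} ∧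
  ∀ z, r₁ < ‖z‖ → ‖z‖ < r₂ → ρ z = 0 → IsLocalDefining (Dom r₁ s₁ r₂ ρ) z ρ

/-- `e = 1/k` -/
noncomputable def ee (k : ℕ) : ℝ := 1 / k

/-- defining function of the core: `log|z| - e² Re r(z^k)` -/
noncomputable def rhoD (k : ℕ) (r : ℂ → ℂ) (z : ℂ) : ℝ :=
  Real.log ‖z‖ - ee k ^ 2 * (r (z ^ k)).re
/-- defining function of the outer domain: `log|z| - e² (3 + 2 cos(k arg z))` -/
noncomputable def rhoO (k : ℕ) (z : ℂ) : ℝ :=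
  Real.log ‖z‖ - ee k ^ 2 * (3 + 2 * ((z ^ k).re / ‖z‖ ^ k))

/-- the core -/
noncomputable def DD (k : ℕ) (r : ℂ → ℂ) : Set ℂ :=
  Dom (Real.exp (-2 * ee k ^ 2)) (Real.exp (-ee k ^ 2)) (Real.exp (2 * ee k ^ 2)) (rhoD k r)
/-- the outer domain -/
noncomputable def OO (k : ℕ) : Set ℂ :=
  Dom 1 (Real.exp (ee k ^ 2 / 2)) (Real.exp (6 * ee k ^ 2)) (rhoO k)

def RSmall (r : ℂ → ℂ) : Prop :=
  DifferentiableOn ℂ r (ball 0 (3/2)) ∧ ∀ x ∈ ball (0:ℂ) (3/2), ‖r x‖ ≤ 1 / 100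

/-- GD -/
def StmtGD : Prop := ∀ (k : ℕ) (r : ℂ → ℂ), 100 ≤ k → RSmall r →
  GeoHyp (Real.exp (-2 * ee k ^ 2)) (Real.exp (-ee k ^ 2)) (Real.exp (ee k ^ 2))
    (Real.exp (2 * ee k ^ 2)) (rhoD k r)
/-- GO -/
def StmtGO : Prop := ∀ k : ℕ, 100 ≤ k →
  GeoHyp 1 (Real.exp (ee k ^ 2 / 2)) (Real.exp (11/2 * ee k ^ 2)) (Real.exp (6 * ee k ^ 2))
    (rhoO k)

/-- CONV: a convexity criterion -/
def StmtCONV : Prop := ∀ (ψ : ℂ → ℂ) (R : ℝ), 0 < R → DifferentiableOn ℂ ψ (ball 0 R) →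
  (∀ z ∈ ball (0:ℂ) R, ‖ψ z‖ * ‖deriv (deriv ψ) z‖ ≤ ‖deriv ψ z‖ ^ 2) →
  Convex ℝ {z | z ∈ ball (0:ℂ) R ∧ ‖ψ z‖ < 1}
/-- PSI: the criterion holds for `ψ(z) = z exp(-e² r(z^k))` -/
def StmtPSI : Prop := ∀ (k : ℕ) (r : ℂ → ℂ), 100 ≤ k → RSmall r →
  let ψ : ℂ → ℂ := fun z => z * Complex.exp (-((ee k : ℂ) ^ 2 * r (z ^ k)))
  DifferentiableOn ℂ ψ (ball 0 (Real.exp (2 * ee k ^ 2))) ∧
  ∀ z ∈ ball (0:ℂ) (Real.exp (2 * ee k ^ 2)),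
    ‖ψ z‖ * ‖deriv (deriv ψ) z‖ ≤ ‖deriv ψ z‖ ^ 2
/-- CVX: the core is convex -/
def StmtCVX : Prop := ∀ (k : ℕ) (r : ℂ → ℂ), 100 ≤ k → RSmall r → Convex ℝ (DD k r)
/-- NCX: the outer domain is not convex -/
def StmtNCX : Prop := ∀ k : ℕ, 100 ≤ k → ¬ Convex ℝ (OO k)

/-- the outer solution, the inner solution and their stream functions; `σc = 1/(2k+1)` -/
noncomputable def uO (k : ℕ) (H : ℂ → ℂ) (z : ℂ) : ℝ := (H (z ^ k)).re - ‖z‖ ^ 2 / 4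
noncomputable def uI (k : ℕ) (G : ℂ → ℂ) (z : ℂ) : ℝ :=
  k * (G (z ^ k)).re - (2 * k + 1) * ‖z‖ ^ 2 / 4
noncomputable def sO (k : ℕ) (H : ℂ → ℂ) (z : ℂ) : ℝ := (H (z ^ k)).im
noncomputable def sI (k : ℕ) (G : ℂ → ℂ) (z : ℂ) : ℝ := k / (2 * k + 1) * (G (z ^ k)).im
noncomputable def sc (k : ℕ) : ℝ := 1 / (2 * k + 1)

open Classical in
/-- the solution -/
noncomputable def uu (k : ℕ) (H r G : ℂ → ℂ) (z : ℂ) : ℝ :=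
  if z ∈ DD k r then uI k G z else if z ∈ OO k then uO k H z else 0
open Classical in
/-- the stream function -/
noncomputable def ss (k : ℕ) (H r G : ℂ → ℂ) (z : ℂ) : ℝ :=
  if z ∈ DD k r then sI k G z else sO k H z

/-- BC: boundary values on the outer boundary -/
def StmtBC : Prop := ∀ (k : ℕ) (C c : ℝ) (H : ℂ → ℂ), 100 ≤ k → 0 < c → HProp C (ee k) c H →
  ∀ z : ℂ, 1 < ‖z‖ → ‖z‖ < Real.exp (6 * ee k ^ 2) → rhoO k z = 0 →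
    uO k H z = 0 ∧ ∃ n : ℂ, ‖n‖ = 1 ∧ (∀ h : ℂ, fderiv ℝ (uO k H) z h = -c * inner ℝ n h) ∧
      ∃ l : ℝ, 0 < l ∧ ∀ h : ℂ, fderiv ℝ (rhoO k) z h = l * inner ℝ n h

/-- TR: transmission conditions on the boundary of the core -/
def StmtTR : Prop := ∀ (k : ℕ) (H r G : ℂ → ℂ), 100 ≤ k → RProp (ee k) H r G →
  ∀ z : ℂ, Real.exp (-2 * ee k ^ 2) < ‖z‖ → ‖z‖ < Real.exp (2 * ee k ^ 2) → rhoD k r z = 0 →
    uI k G z = uO k H z ∧ sI k G z = sO k H z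

/-- REG: smoothness of the four functions, and the relation between `u` and the stream function -/
def StmtREG : Prop := ∀ (k : ℕ) (H G : ℂ → ℂ), 100 ≤ k → DifferentiableOn ℂ H (Ann 3) →
  DifferentiableOn ℂ G (ball 0 (3/2)) →
  (∀ z : ℂ, Real.exp (-6 * ee k ^ 2) < ‖z‖ → ‖z‖ < Real.exp (7 * ee k ^ 2) →
    ContDiffAt ℝ ∞ (uO k H) z ∧ ContDiffAt ℝ ∞ (sO k H) z ∧
    fderiv ℝ (uO k H) z 1 = -z.re / 2 + fderiv ℝ (sO k H) z Complex.I ∧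
    fderiv ℝ (uO k H) z Complex.I = -z.im / 2 - fderiv ℝ (sO k H) z 1) ∧
  (∀ z : ℂ, ‖z‖ < Real.exp (5/2 * ee k ^ 2) →
    ContDiffAt ℝ ∞ (uI k G) z ∧ ContDiffAt ℝ ∞ (sI k G) z ∧
    sc k * fderiv ℝ (uI k G) z 1 = -z.re / 2 + fderiv ℝ (sI k G) z Complex.I ∧
    sc k * fderiv ℝ (uI k G) z Complex.I = -z.im / 2 - fderiv ℝ (sI k G) z 1)

/-- GLUE: a function with pointwise Lipschitz constant `≤ C` on a convex set is `C`-Lipschitz -/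
def StmtGLUE : Prop := ∀ (S : Set ℂ) (f : ℂ → ℝ) (C : ℝ), Convex ℝ S → 0 ≤ C →
  (∀ x ∈ S, ∀ C' : ℝ, C < C' → ∀ᶠ y in 𝓝[S] x, |f y - f x| ≤ C' * ‖y - x‖) →
  ∀ x ∈ S, ∀ y ∈ S, |f y - f x| ≤ C * ‖y - x‖

/-- LU: `u` is Lipschitz -/
def StmtLU : Prop := ∀ (k : ℕ) (C c : ℝ) (H r G : ℂ → ℂ), 100 ≤ k → 0 < c →
  HProp C (ee k) c H → RProp (ee k) H r G → ∃ L, LipschitzWith L (uu k H r G)
/-- LS: the stream function agrees on the outer domain with a Lipschitz function -/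
def StmtLS : Prop := ∀ (k : ℕ) (C c : ℝ) (H r G : ℂ → ℂ), 100 ≤ k → 0 < c →
  HProp C (ee k) c H → RProp (ee k) H r G → ∃ (L : NNReal) (s : ℂ → ℝ), LipschitzWith L s ∧
    ∀ z ∈ OO k, s z = ss k H r G z

/-- WEAK: weak formulation from the stream function -/
def StmtWEAK : Prop := ∀ (σc : ℝ) (D Ω : Set ℂ) (u s : ℂ → ℝ) (Lu Ls : NNReal), IsOpen D →
  IsOpen Ω → volume (frontier D) = 0 → LipschitzWith Lu u → LipschitzWith Ls s →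
  (∀ z ∈ Ω, z ∉ frontier D →
    sig σc D z * fderiv ℝ u z 1 = -z.re / 2 + fderiv ℝ s z Complex.I ∧
    sig σc D z * fderiv ℝ u z Complex.I = -z.im / 2 - fderiv ℝ s z 1) →
  WeakForm σc D Ω u

/-- SOL: `u` is a solution -/
def StmtSOL : Prop := ∀ (k : ℕ) (C c : ℝ) (H r G : ℂ → ℂ), 100 ≤ k → 0 < c →
  HProp C (ee k) c H → RProp (ee k) H r G →
    closure (DD k r) ⊆ OO k ∧ IsSolution (sc k) (DD k r) (OO k) (-c) (uu k H r G)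

/-- NORM: the outward unit normal is unique -/
def StmtNORM : Prop := ∀ (Ω : Set ℂ) (x n n' : ℂ), IsOuterNormal Ω x n → IsOuterNormal Ω x n' →
  n = n'

/-- VOL -/
def StmtVOL : Prop := ∀ D Ω : Set (EuclideanSpace ℝ (Fin 2)), SmoothDomain D → SmoothDomain Ω →
  closure D ⊆ Ω → volume D < volume Ω ∧ volume Ω < ⊤

/-- TRANS: transport from `ℂ` to `EuclideanSpace ℝ (Fin 2)` by a linear isometry -/
def StmtTRANS : Prop := ∀ (T : ℂ ≃ₗᵢ[ℝ] EuclideanSpace ℝ (Fin 2)) (σc : ℝ) (D Ω : Set ℂ) (c : ℝ)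
  (u : ℂ → ℝ), SmoothDomain D → Convex ℝ D → SmoothDomain Ω → closure D ⊆ Ω →
  IsSolution σc D Ω c u → ¬ Convex ℝ Ω →
    SmoothDomain (T '' D) ∧ Convex ℝ (T '' D) ∧ SmoothDomain (T '' Ω) ∧
    closure (T '' D) ⊆ T '' Ω ∧ IsSolution σc (T '' D) (T '' Ω) c (fun x => u (T.symm x)) ∧
    ¬ Convex ℝ (T '' Ω)

end Pool.Agent.T6.H52.TP
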