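import Mathlib

/-!
# The two-phase outer overdetermined problem (MP_8dfb46_an): definitions

`E` is a Euclidean space (in the final statement `E = EuclideanSpace ℝ (Fin N)`, `N ≥ 2`).
-/

open MeasureTheory Set Metric Topology Filter
open scoped ContDiff

namespace Pool.Agent.T6.H52.TP

section problem

variable {E : Type*} [NormedAddCommGroup E] [InnerProductSpace ℝ E]

/-- `ρ` is a smooth local defining function of `Ω` at the point `x`:
`ρ x = 0`, `dρ(x) ≠ 0`, and near `x` the function `ρ` is smooth and `Ω = {ρ < 0}`. -/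
def IsLocalDefining (Ω : Set E) (x : E) (ρ : E → ℝ) : Prop :=
  ρ x = 0 ∧ fderiv ℝ ρ x ≠ 0 ∧
    ∃ U : Set E, IsOpen U ∧ x ∈ U ∧ ContDiffOn ℝ ∞ ρ U ∧ ∀ y ∈ U, (y ∈ Ω ↔ ρ y < 0)

/-- A domain in the sense of the problem: bounded, connected, open, with smooth boundary. -/
structure SmoothDomain (Ω : Set E) : Prop where
  isOpen : IsOpen Ω
  isConnected : IsConnected Ω
  isBounded : Bornology.IsBounded Ω
  smooth : ∀ x ∈ frontier Ω, ∃ ρ : E → ℝ, IsLocalDefining Ω x ρ

/-- `n` is the outward unit normal of `Ω` at the boundary point `x`. -/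
def IsOuterNormal (Ω : Set E) (x n : E) : Prop :=
  ‖n‖ = 1 ∧ ∃ ρ : E → ℝ, IsLocalDefining Ω x ρ ∧
    ∃ l : ℝ, 0 < l ∧ ∀ h : E, fderiv ℝ ρ x h = l * inner ℝ n h

open Classical in
/-- the coefficient: `σ = σc` in `D`, `σ = 1` outside. -/
noncomputable def sig (σc : ℝ) (D : Set E) (x : E) : ℝ := if x ∈ D then σc else 1

variable [FiniteDimensional ℝ E] [MeasurableSpace E] [BorelSpace E]

/-- the weak form of `-div(σ∇u) = 1` in `Ω` for a Lipschitz function `u` -/
def WeakForm (σc : ℝ) (D Ω : Set E) (u : E → ℝ) : Prop :=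
  ∀ η : E → ℝ, ContDiff ℝ ∞ η → HasCompactSupport η → tsupport η ⊆ Ω →
    ∫ x, sig σc D x * inner ℝ (gradient u x) (gradient η x) = ∫ x, η x

/-- `u` solves `-div(σ∇u) = 1` in `Ω`, `u = 0` on `∂Ω`, `∂ₙu ≡ c` on `∂Ω`:
`u` is Lipschitz and vanishes outside `Ω` (so `u ∈ H¹₀(Ω)`), satisfies the weak form of the
equation, and coincides near `∂Ω`, inside `closure Ω`, with a function `v` smooth in a
neighbourhood of `∂Ω` whose derivative in the direction of the outward unit normal is `c`. -/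
structure IsSolution (σc : ℝ) (D Ω : Set E) (c : ℝ) (u : E → ℝ) : Prop where
  lip : ∃ C, LipschitzWith C u
  zero : ∀ x, x ∉ Ω → u x = 0
  weak : WeakForm σc D Ω u
  bdry : ∃ (U : Set E) (v : E → ℝ), IsOpen U ∧ frontier Ω ⊆ U ∧ ContDiffOn ℝ ∞ v U ∧
    (∀ x ∈ U ∩ closure Ω, v x = u x) ∧
    (∀ x ∈ frontier Ω, ∃ n, IsOuterNormal Ω x n) ∧
    ∀ x ∈ frontier Ω, ∀ n, IsOuterNormal Ω x n → fderiv ℝ v x n = c

end problem

/-- The question Q1 (to be disproved): for every `N ≥ 2`, every `σc ∈ (0,∞) \ {1}`, every convex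
domain `D` and every `V₀ > |D|`, every solution `Ω` of the outer problem for `(D, V₀)` is convex. -/
def Q1 : Prop :=
  ∀ (N : ℕ), 2 ≤ N → ∀ σc : ℝ, 0 < σc → σc ≠ 1 →
    ∀ D : Set (EuclideanSpace ℝ (Fin N)), SmoothDomain D → Convex ℝ D →
      ∀ V₀ : ℝ, volume D < ENNReal.ofReal V₀ →
        ∀ Ω : Set (EuclideanSpace ℝ (Fin N)), SmoothDomain Ω → closure D ⊆ Ω →
          volume Ω = ENNReal.ofReal V₀ →
          (∃ (c : ℝ) (u : EuclideanSpace ℝ (Fin N) → ℝ), IsSolution σc D Ω c u) → Convex ℝ Ω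

end Pool.Agent.T6.H52.TP
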