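import Pool.Agent.T6.H52.TP.Defs

/-!
# The convexity criterion holds for the core (helper94, module PSI)
-/

set_option autoImplicit false

open MeasureTheory Set Metric Topology Filter
open scoped ContDiff ComplexConjugate

namespace Pool.Agent.T6.H52.TP

namespace ModPSI

/-- Cauchy estimates -/
theorem cauchy {r : ℂ → ℂ} (hr : RSmall r) {x : ℂ} (hx : ‖x‖ ≤ 103 / 100) :
    ‖deriv r x‖ ≤ 1 / 40 ∧ ‖deriv (deriv r) x‖ ≤ 1 / 8 := by
  have hsub : closedBall x (2 / 5) ⊆ ball (0 : ℂ) (3 / 2) := by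
    intro y hy
    rw [mem_closedBall, dist_eq_norm] at hy
    rw [mem_ball_zero_iff]
    have : ‖y‖ ≤ ‖y - x‖ + ‖x‖ := by
      have := norm_add_le (y - x) x
      rwa [sub_add_cancel] at this
    linarith
  have hd : DiffContOnCl ℂ r (ball x (2 / 5)) := by
    apply DifferentiableOn.diffContOnCl
    refine hr.1.mono ?_
    rw [closure_ball _ (by norm_num)]
    exact hsub
  have hb : ∀ y ∈ sphere x (2 / 5), ‖r y‖ ≤ 1 / 100 := fun y hy =>
    hr.2 y (hsub (sphere_subset_closedBall hy))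
  constructor
  · have := Complex.norm_deriv_le_of_forall_mem_sphere_norm_le (by norm_num : (0 : ℝ) < 2 / 5) hd hb
    norm_num at this ⊢
    exact this
  · have := Complex.norm_iteratedDeriv_le_of_forall_mem_sphere_norm_le 2
      (by norm_num : (0 : ℝ) < 2 / 5) hd hb
    rw [iteratedDeriv_succ, iteratedDeriv_one] at this
    refine this.trans ?_
    norm_num [Nat.factorial]

end ModPSI

open ModPSI in
theorem psi : StmtPSI := by
  intro k r hk hr ψ
  have hkR : (100 : ℝ) ≤ k := by exact_mod_cast hk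
  have hk0 : (0 : ℝ) < k := by linarith
  have hkC : (k : ℂ) ≠ 0 := by
    have : k ≠ 0 := by omega
    exact_mod_cast this
  have he0 : 0 < ee k := by unfold ee; positivity
  have he1 : ee k ≤ 1 / 100 := by
    unfold ee
    exact one_div_le_one_div_of_le (by norm_num) hkR
  have hek : (ee k : ℂ) * k = 1 := by
    unfold ee
    push_cast
    field_simp
  obtain ⟨e, he⟩ : ∃ e, e = ee k := ⟨_, rfl⟩
  have hψdef : ψ = fun z => z * Complex.exp (-((e : ℂ) ^ 2 * r (z ^ k))) := by rw [he]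
  rw [← he] at he0 he1 hek ⊢
  clear_value ψ
  have hR : ∀ z ∈ ball (0 : ℂ) (Real.exp (2 * e ^ 2)), ‖z ^ k‖ < 103 / 100 := by
    intro z hz
    rw [mem_ball_zero_iff] at hz
    rw [norm_pow]
    have h1 : ‖z‖ ^ k < Real.exp (2 * e ^ 2) ^ k :=
      pow_lt_pow_left₀ hz (norm_nonneg _) (by omega)
    rw [← Real.exp_nat_mul] at h1
    have h2 : (k : ℝ) * (2 * e ^ 2) = 2 * e := by
      have : (e : ℝ) * k = 1 := by exact_mod_cast hek
      calc (k : ℝ) * (2 * e ^ 2) = 2 * e * (e * k) := by ring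
        _ = 2 * e := by rw [this, mul_one]
    rw [h2] at h1
    refine h1.trans_le ?_
    have h3 : Real.exp (2 * e) ≤ Real.exp (1 / 50) := Real.exp_le_exp.2 (by linarith)
    refine h3.trans ?_
    have h4 := Real.exp_bound' (x := 1 / 50) (by norm_num) (by norm_num) (n := 2) (by norm_num)
    refine h4.trans ?_
    norm_num [Finset.sum_range_succ, Nat.factorial]
  have hmem : ∀ z ∈ ball (0 : ℂ) (Real.exp (2 * e ^ 2)), z ^ k ∈ ball (0 : ℂ) (3 / 2) := by
    intro z hz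
    rw [mem_ball_zero_iff]
    linarith [hR z hz]
  have hrd : ∀ x ∈ ball (0 : ℂ) (3 / 2), HasDerivAt r (deriv r x) x := fun x hx =>
    ((hr.1 x hx).differentiableAt (isOpen_ball.mem_nhds hx)).hasDerivAt
  have hrd2 : ∀ x ∈ ball (0 : ℂ) (3 / 2), HasDerivAt (deriv r) (deriv (deriv r) x) x := fun x hx =>
    (((hr.1.deriv isOpen_ball) x hx).differentiableAt (isOpen_ball.mem_nhds hx)).hasDerivAt
  have hpow : ∀ z : ℂ, HasDerivAt (fun z : ℂ => z ^ k) (k * z ^ (k - 1)) z := fun z =>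
    hasDerivAt_pow k z
  have hzk : ∀ z : ℂ, z * z ^ (k - 1) = z ^ k := fun z => by
    rw [← pow_succ', Nat.sub_add_cancel (by omega)]
  let E : ℂ → ℂ := fun z => Complex.exp (-((e : ℂ) ^ 2 * r (z ^ k)))
  have hrk : ∀ z ∈ ball (0 : ℂ) (Real.exp (2 * e ^ 2)),
      HasDerivAt (fun z : ℂ => r (z ^ k)) (deriv r (z ^ k) * (k * z ^ (k - 1))) z := fun z hz =>
    (hrd _ (hmem z hz)).comp z (hpow z)
  have hrk2 : ∀ z ∈ ball (0 : ℂ) (Real.exp (2 * e ^ 2)),
      HasDerivAt (fun z : ℂ => deriv r (z ^ k))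
        (deriv (deriv r) (z ^ k) * (k * z ^ (k - 1))) z := fun z hz =>
    (hrd2 _ (hmem z hz)).comp z (hpow z)
  have hE : ∀ z ∈ ball (0 : ℂ) (Real.exp (2 * e ^ 2)),
      HasDerivAt E (E z * (-(e * z ^ (k - 1) * deriv r (z ^ k)))) z := by
    intro z hz
    refine (((hrk z hz).const_mul ((e : ℂ) ^ 2)).neg.cexp).congr_deriv ?_
    change E z * _ = _
    congr 1
    linear_combination (-(e * z ^ (k - 1) * deriv r (z ^ k))) * hek
  have hψ1 : ∀ z ∈ ball (0 : ℂ) (Real.exp (2 * e ^ 2)),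
      HasDerivAt ψ (E z * (1 - e * z ^ k * deriv r (z ^ k))) z := by
    intro z hz
    rw [hψdef]
    refine ((hasDerivAt_id z).mul (hE z hz)).congr_deriv ?_
    simp only [id]
    linear_combination (-(e * deriv r (z ^ k) * E z)) * hzk z
  have hψd : DifferentiableOn ℂ ψ (ball 0 (Real.exp (2 * e ^ 2))) := fun z hz =>
    (hψ1 z hz).differentiableAt.differentiableWithinAt
  refine ⟨hψd, ?_⟩
  have hψ2 : ∀ z ∈ ball (0 : ℂ) (Real.exp (2 * e ^ 2)),
      deriv (deriv ψ) z = E z * (-(e * z ^ (k - 1) * deriv r (z ^ k))) *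
        (1 - e * z ^ k * deriv r (z ^ k)) + E z * (-(z ^ (k - 1) * deriv r (z ^ k) +
          z ^ k * z ^ (k - 1) * deriv (deriv r) (z ^ k))) := by
    intro z hz
    have h1 : deriv ψ =ᶠ[𝓝 z] fun z => E z * (1 - e * z ^ k * deriv r (z ^ k)) := by
      filter_upwards [isOpen_ball.mem_nhds hz] with w hw using (hψ1 w hw).deriv
    rw [h1.deriv_eq]
    have h2 : HasDerivAt (fun z : ℂ => 1 - e * z ^ k * deriv r (z ^ k))
        (-(z ^ (k - 1) * deriv r (z ^ k) + z ^ k * z ^ (k - 1) * deriv (deriv r) (z ^ k))) z := by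
      refine ((((hpow z).const_mul (e : ℂ)).mul (hrk2 z hz)).const_sub 1).congr_deriv ?_
      linear_combination (-(z ^ (k - 1) * deriv r (z ^ k) +
        z ^ k * z ^ (k - 1) * deriv (deriv r) (z ^ k))) * hek
    exact ((hE z hz).mul h2).deriv
  intro z hz
  rw [(hψ1 z hz).deriv, hψ2 z hz]
  have hxn := hR z hz
  obtain ⟨c1, c2⟩ := cauchy hr hxn.le
  set x := z ^ k with hx
  set p := deriv r x with hp
  set q := deriv (deriv r) x with hq
  have e1 : ‖ψ z‖ * ‖E z * (-(e * z ^ (k - 1) * p)) * (1 - e * x * p) +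
      E z * (-(z ^ (k - 1) * p + x * z ^ (k - 1) * q))‖ =
      ‖E z‖ ^ 2 * ‖e * (x * p) * (1 - e * (x * p)) + x * p + x * x * q‖ := by
    rw [← norm_mul, ← norm_pow, ← norm_mul]
    have : ψ z = z * E z := by rw [hψdef]
    rw [this, ← norm_neg]
    congr 1
    linear_combination (E z ^ 2 * (e * p * (1 - e * x * p) + p + x * q)) * hzk z
  rw [e1, norm_mul, mul_pow]
  refine mul_le_mul_of_nonneg_left ?_ (sq_nonneg _)
  have hA : ‖x * p‖ ≤ 26 / 1000 := by
    rw [norm_mul]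
    calc ‖x‖ * ‖p‖ ≤ 103 / 100 * (1 / 40) :=
          mul_le_mul hxn.le c1 (norm_nonneg _) (by norm_num)
      _ ≤ 26 / 1000 := by norm_num
  have hB : ‖x * x * q‖ ≤ 133 / 1000 := by
    rw [norm_mul, norm_mul]
    calc ‖x‖ * ‖x‖ * ‖q‖ ≤ 103 / 100 * (103 / 100) * (1 / 8) :=
          mul_le_mul (mul_le_mul hxn.le hxn.le (norm_nonneg _) (by norm_num)) c2 (norm_nonneg _)
            (by norm_num)
      _ ≤ 133 / 1000 := by norm_num
  have hen : ‖(e : ℂ)‖ ≤ 1 / 100 := by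
    rw [Complex.norm_real, Real.norm_eq_abs, abs_of_pos he0]
    exact he1
  have hC : ‖(e : ℂ) * (x * p)‖ ≤ 1 / 1000 := by
    rw [norm_mul]
    calc ‖(e : ℂ)‖ * ‖x * p‖ ≤ 1 / 100 * (26 / 1000) :=
          mul_le_mul hen hA (norm_nonneg _) (by norm_num)
      _ ≤ 1 / 1000 := by norm_num
  have hD1 : ‖1 - (e : ℂ) * (x * p)‖ ≤ 1001 / 1000 := by
    calc ‖1 - (e : ℂ) * (x * p)‖ ≤ ‖(1 : ℂ)‖ + ‖(e : ℂ) * (x * p)‖ := norm_sub_le _ _
      _ ≤ 1 + 1 / 1000 := by rw [norm_one]; linarith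
      _ = 1001 / 1000 := by norm_num
  have hD2 : 999 / 1000 ≤ ‖1 - (e : ℂ) * x * p‖ := by
    have h1 : ‖(1 : ℂ)‖ - ‖(e : ℂ) * (x * p)‖ ≤ ‖1 - (e : ℂ) * (x * p)‖ := norm_sub_norm_le _ _
    rw [norm_one] at h1
    rw [mul_assoc]
    linarith
  calc ‖e * (x * p) * (1 - e * (x * p)) + x * p + x * x * q‖
      ≤ ‖(e : ℂ) * (x * p) * (1 - e * (x * p))‖ + ‖x * p‖ + ‖x * x * q‖ := norm_add₃_le
    _ ≤ 1 / 1000 * (1001 / 1000) + 26 / 1000 + 133 / 1000 := by
        rw [norm_mul]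
        have := mul_le_mul hC hD1 (norm_nonneg _) (by norm_num : (0 : ℝ) ≤ 1 / 1000)
        linarith
    _ ≤ (999 / 1000) ^ 2 := by norm_num
    _ ≤ ‖1 - (e : ℂ) * x * p‖ ^ 2 := pow_le_pow_left₀ (by norm_num) hD2 2

end Pool.Agent.T6.H52.TP
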